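import Pool.Agent.H379R3.RC.Defs

set_option autoImplicit false

open MeasureTheory Set Metric Real MvPolynomial
open Pool.Helper490.SH

namespace Pool.Agent.H379R3.RC

private theorem A1_max {H : Type*} [AddCommGroup H] [Module ℝ H] (b : LinearMap.BilinForm ℝ H)
    (X : Submodule ℝ H) [FiniteDimensional ℝ X] :
    ∃ T : Submodule ℝ H, T ≤ X ∧ (∀ x ∈ T, x ≠ 0 → b x x < 0) ∧
      ∀ T' : Submodule ℝ H, T' ≤ X → (∀ x ∈ T', x ≠ 0 → b x x < 0) →
        Module.finrank ℝ T' ≤ Module.finrank ℝ T := by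
  classical
  let s : Set ℕ := {n | ∃ T : Submodule ℝ H, T ≤ X ∧ (∀ x ∈ T, x ≠ 0 → b x x < 0) ∧
    Module.finrank ℝ T = n}
  have hne : s.Nonempty := ⟨0, ⊥, bot_le, fun x hx hx0 => absurd ((Submodule.mem_bot ℝ).1 hx) hx0,
    finrank_bot ℝ H⟩
  have hbd : BddAbove s := by
    refine ⟨Module.finrank ℝ X, ?_⟩
    rintro n ⟨T, hT, -, rfl⟩
    exact Submodule.finrank_mono hT
  obtain ⟨T, hT, hT1, hT2⟩ := Nat.sSup_mem hne hbd
  refine ⟨T, hT, hT1, fun T' h1 h2 => ?_⟩
  rw [hT2]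
  exact le_csSup hbd ⟨T', h1, h2, rfl⟩

private theorem A1_nonneg {H : Type*} [AddCommGroup H] [Module ℝ H] (b : LinearMap.BilinForm ℝ H)
    (hb : b.IsSymm) (X : Submodule ℝ H) [FiniteDimensional ℝ X] (T : Submodule ℝ H) (hTX : T ≤ X)
    (hT : ∀ x ∈ T, x ≠ 0 → b x x < 0)
    (hmax : ∀ T' : Submodule ℝ H, T' ≤ X → (∀ x ∈ T', x ≠ 0 → b x x < 0) →
        Module.finrank ℝ T' ≤ Module.finrank ℝ T)
    (x : H) (hx : x ∈ X) (hxT : ∀ t ∈ T, b x t = 0) : 0 ≤ b x x := by
  by_contra hneg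
  push Not at hneg
  have hxnT : x ∉ T := fun h => by
    rw [hxT x h] at hneg
    exact lt_irrefl _ hneg
  have hle : T ⊔ Submodule.span ℝ {x} ≤ X :=
    sup_le hTX (by rw [Submodule.span_singleton_le_iff_mem]; exact hx)
  have hlt : T < T ⊔ Submodule.span ℝ {x} := by
    refine lt_of_le_of_ne le_sup_left (fun h => hxnT ?_)
    rw [h]
    exact Submodule.mem_sup_right (Submodule.mem_span_singleton_self x)
  have hfd : FiniteDimensional ℝ (T ⊔ Submodule.span ℝ {x} : Submodule ℝ H) :=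
    Submodule.finiteDimensional_of_le hle
  have h1 := Submodule.finrank_lt_finrank_of_lt hlt
  have h2 := hmax _ hle (by
    intro y hy hy0
    obtain ⟨t, ht, z, hz, rfl⟩ := Submodule.mem_sup.1 hy
    obtain ⟨c, rfl⟩ := Submodule.mem_span_singleton.1 hz
    have hxt : b x t = 0 := hxT t ht
    have htx : b t x = 0 := by
      have := hb.eq x t
      rw [← this]
      exact hxt
    have hexp : b (t + c • x) (t + c • x) = b t t + c ^ 2 * b x x := by
      simp only [map_add, LinearMap.add_apply, map_smul, LinearMap.smul_apply, smul_eq_mul, hxt,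
        htx]
      ring
    rw [hexp]
    by_cases ht0 : t = 0
    · have hc : c ≠ 0 := by
        rintro rfl
        apply hy0
        rw [ht0, zero_smul, add_zero]
      rw [ht0]
      simp only [map_zero, zero_add]
      have : 0 < c ^ 2 := by positivity
      nlinarith
    · have := hT t ht ht0
      nlinarith [sq_nonneg c])
  omega

/-- A1: sums of negative indices -/
theorem A1_index {S H : Type*} [AddCommGroup S] [Module ℝ S] [FiniteDimensional ℝ S]
    [AddCommGroup H] [Module ℝ H] (B : ℕ → LinearMap.BilinForm ℝ H) (hB : ∀ l, (B l).IsSymm)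
    (m : ℕ) (deg : ℕ → ℕ) (Φ : ℕ → S →ₗ[ℝ] H)
    (hneg : ∀ s : S, s ≠ 0 → ∑ k ∈ Finset.range m, B (deg k) (Φ k s) (Φ k s) < 0) :
    ∃ T : ℕ → Submodule ℝ H, (∀ l, FiniteDimensional ℝ (T l)) ∧
      (∀ l, ∀ x ∈ T l, x ≠ 0 → B l x x < 0) ∧
      Module.finrank ℝ S ≤ ∑ k ∈ Finset.range m, Module.finrank ℝ (T (deg k)) := by
  classical
  let X : Submodule ℝ H := ⨆ k : Fin m, LinearMap.range (Φ k)
  have hX : FiniteDimensional ℝ X := inferInstance
  have hXmem : ∀ k, k < m → ∀ s, Φ k s ∈ X := by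
    intro k hk s
    exact (le_iSup (fun k : Fin m => LinearMap.range (Φ k)) ⟨k, hk⟩) (LinearMap.mem_range_self _ s)
  choose T hTX hTneg hTmax using fun l => A1_max (B l) X
  have hfd : ∀ l, FiniteDimensional ℝ (T l) := fun l => Submodule.finiteDimensional_of_le (hTX l)
  refine ⟨T, hfd, hTneg, ?_⟩
  by_contra hlt
  push Not at hlt
  let L : S →ₗ[ℝ] (∀ k : Fin m, Module.Dual ℝ (T (deg k))) :=
    LinearMap.pi (fun k => (Submodule.subtype (T (deg k))).dualMap ∘ₗ (B (deg k)) ∘ₗ (Φ k))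
  have hker : LinearMap.ker L ≠ ⊥ := by
    apply LinearMap.ker_ne_bot_of_finrank_lt
    rw [Module.finrank_pi_fintype]
    simp only [Subspace.dual_finrank_eq]
    rw [Fin.sum_univ_eq_sum_range (fun k => Module.finrank ℝ (T (deg k)))]
    exact hlt
  obtain ⟨s, hs, hs0⟩ := Submodule.exists_mem_ne_zero_of_ne_bot hker
  have hs1 : ∀ k, k < m → ∀ t ∈ T (deg k), B (deg k) (Φ k s) t = 0 := by
    intro k hk t ht
    have h1 : L s = 0 := LinearMap.mem_ker.1 hs
    have h2 := congrArg (fun f => f ⟨k, hk⟩ ⟨t, ht⟩) h1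
    simpa [L] using h2
  have h3 : 0 ≤ ∑ k ∈ Finset.range m, B (deg k) (Φ k s) (Φ k s) := by
    refine Finset.sum_nonneg fun k hk => ?_
    have hk' : k < m := Finset.mem_range.1 hk
    exact A1_nonneg (B (deg k)) (hB _) X (T (deg k)) (hTX _) (hTneg _) (hTmax _) _
      (hXmem k hk' s) (hs1 k hk')
  exact absurd (hneg s hs0) (not_lt.2 h3)

end Pool.Agent.H379R3.RC

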