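import Pool.Agent.H379R3.RC.Defs

/-! A2, A3: perturbation of negative definite forms; the bilinear forms on `H¹(ℝ)`. -/

set_option autoImplicit false

open MeasureTheory Set Metric Real MvPolynomial
open Pool.Helper490.SH

namespace Pool.Agent.H379R3.RC

noncomputable section

private lemma A2_cont {n : ℕ} (f : (Fin n → ℝ) →ₗ[ℝ] (Fin n → ℝ) →ₗ[ℝ] ℝ) :
    Continuous fun x => f x x := by
  let g : (Fin n → ℝ) →ₗ[ℝ] ((Fin n → ℝ) →L[ℝ] ℝ) :=
    (LinearMap.toContinuousLinearMap (𝕜 := ℝ) (E := Fin n → ℝ) (F' := ℝ)).toLinearMap ∘ₗ f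
  have hg : Continuous g := LinearMap.continuous_of_finiteDimensional g
  have h : Continuous fun x => g x x := hg.clm_apply continuous_id
  exact h

/-- A2: a negative definite form stays negative definite after a small perturbation -/
theorem A2_pert {S : Type*} [AddCommGroup S] [Module ℝ S] [FiniteDimensional ℝ S]
    (Q D : LinearMap.BilinForm ℝ S) (hQ : ∀ s : S, s ≠ 0 → Q s s < 0) :
    ∃ K : ℕ, 1 ≤ K ∧ ∀ s : S, s ≠ 0 →
      Q s s + 1 / ((K : ℝ) * ((K : ℝ) + 1)) * D s s < 0 := by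
  classical
  rcases subsingleton_or_nontrivial S with h | h
  · exact ⟨1, le_rfl, fun s hs => (hs (Subsingleton.elim s 0)).elim⟩
  let n := Module.finrank ℝ S
  let e : S ≃ₗ[ℝ] (Fin n → ℝ) := (Module.finBasis ℝ S).equivFun
  let q : (Fin n → ℝ) →ₗ[ℝ] (Fin n → ℝ) →ₗ[ℝ] ℝ :=
    Q.compl₁₂ e.symm.toLinearMap e.symm.toLinearMap
  let d : (Fin n → ℝ) →ₗ[ℝ] (Fin n → ℝ) →ₗ[ℝ] ℝ :=
    D.compl₁₂ e.symm.toLinearMap e.symm.toLinearMap
  have hqc := A2_cont q
  have hdc := A2_cont d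
  have hcomp : IsCompact (sphere (0 : Fin n → ℝ) 1) := isCompact_sphere _ _
  obtain ⟨s0, hs0⟩ := exists_ne (0 : S)
  have he0 : e s0 ≠ 0 := fun h0 => hs0 (by simpa using congrArg e.symm h0)
  have hunit : ∀ x : Fin n → ℝ, x ≠ 0 → ‖x‖⁻¹ • x ∈ sphere (0 : Fin n → ℝ) 1 := by
    intro x hx
    rw [mem_sphere_zero_iff_norm, norm_smul, norm_inv, norm_norm,
      inv_mul_cancel₀ (norm_ne_zero_iff.2 hx)]
  have hne : (sphere (0 : Fin n → ℝ) 1).Nonempty := ⟨_, hunit _ he0⟩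
  obtain ⟨x1, hx1, hmax⟩ := hcomp.exists_isMaxOn hne hqc.continuousOn
  obtain ⟨x2, hx2, hmax2⟩ := hcomp.exists_isMaxOn hne hdc.continuousOn
  have hc : q x1 x1 < 0 := by
    apply hQ
    intro h0
    have h1 : x1 = 0 := by simpa using congrArg e h0
    rw [h1] at hx1
    simp at hx1
  set c : ℝ := -(q x1 x1) with hcdef
  set M : ℝ := max (d x2 x2) 0 with hM
  have hcpos : 0 < c := by rw [hcdef]; linarith
  obtain ⟨K, hK⟩ := exists_nat_gt (M / c)
  have hM0 : 0 ≤ M := le_max_right _ _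
  refine ⟨K + 1, by omega, fun s hs => ?_⟩
  have hes : e s ≠ 0 := fun h0 => hs (by simpa using congrArg e.symm h0)
  have hxn : 0 < ‖e s‖ := norm_pos_iff.2 hes
  have hscale : ∀ f : LinearMap.BilinForm ℝ S, f s s =
      ‖e s‖ ^ 2 * (f.compl₁₂ e.symm.toLinearMap e.symm.toLinearMap) (‖e s‖⁻¹ • e s)
        (‖e s‖⁻¹ • e s) := by
    intro f
    simp only [LinearMap.compl₁₂_apply, LinearEquiv.coe_coe, map_smul, LinearEquiv.symm_apply_apply,
      LinearMap.smul_apply, smul_eq_mul]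
    field_simp
  have h1 : q (‖e s‖⁻¹ • e s) (‖e s‖⁻¹ • e s) ≤ -c := by
    have := hmax (hunit _ hes)
    simp only [Set.mem_ofPred_eq] at this
    rw [hcdef]; linarith
  have h2 : d (‖e s‖⁻¹ • e s) (‖e s‖⁻¹ • e s) ≤ M := by
    have := hmax2 (hunit _ hes)
    simp only [Set.mem_ofPred_eq] at this
    exact this.trans (le_max_left _ _)
  have hKpos : (0 : ℝ) < ((K + 1 : ℕ) : ℝ) * (((K + 1 : ℕ) : ℝ) + 1) := by positivity
  have h3 : 1 / (((K + 1 : ℕ) : ℝ) * (((K + 1 : ℕ) : ℝ) + 1)) * M < c := by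
    rw [div_mul_eq_mul_div, one_mul, div_lt_iff₀ hKpos]
    have h4 : M < c * K := by
      rw [div_lt_iff₀ hcpos] at hK
      linarith
    have hKn : (0 : ℝ) ≤ (K : ℝ) := Nat.cast_nonneg K
    push_cast
    nlinarith
  have h5 : Q s s + 1 / (((K + 1 : ℕ) : ℝ) * (((K + 1 : ℕ) : ℝ) + 1)) * D s s =
      ‖e s‖ ^ 2 * (q (‖e s‖⁻¹ • e s) (‖e s‖⁻¹ • e s) +
        1 / (((K + 1 : ℕ) : ℝ) * (((K + 1 : ℕ) : ℝ) + 1)) *
          d (‖e s‖⁻¹ • e s) (‖e s‖⁻¹ • e s)) := by
    rw [hscale Q, hscale D]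
    ring
  rw [h5]
  apply mul_neg_of_pos_of_neg (by positivity)
  have h6 : 1 / (((K + 1 : ℕ) : ℝ) * (((K + 1 : ℕ) : ℝ) + 1)) *
      d (‖e s‖⁻¹ • e s) (‖e s‖⁻¹ • e s) ≤
      1 / (((K + 1 : ℕ) : ℝ) * (((K + 1 : ℕ) : ℝ) + 1)) * M :=
    mul_le_mul_of_nonneg_left h2 (by positivity)
  linarith

/-! ### the forms on `H¹` -/

private lemma A3_bdd (v : H1) : ∃ C : ℝ, 0 ≤ C ∧ ∀ t, |(v : ℝ → ℝ) t| ≤ C := by
  obtain ⟨v, hv, hv2, hv3⟩ := v
  have hd : ∀ t, HasDerivAt v (deriv v t) t := fun t =>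
    (hv.differentiable (by norm_num) t).hasDerivAt
  have hcd : Continuous (deriv v) := hv.continuous_deriv (by norm_num)
  have hsum : Integrable fun t => v t ^ 2 + deriv v t ^ 2 := hv2.add hv3
  set I : ℝ := ∫ t, (v t ^ 2 + deriv v t ^ 2) with hI
  have hI0 : 0 ≤ I := integral_nonneg fun t => by positivity
  have key : ∀ a b : ℝ, a ≤ b → |v b ^ 2 - v a ^ 2| ≤ I := by
    intro a b hab
    have hder : ∀ t ∈ uIcc a b, HasDerivAt (fun t => v t ^ 2) (2 * v t * deriv v t) t := by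
      intro t _
      have h := (hd t).fun_pow 2
      have h' : ((2 : ℕ) : ℝ) * v t ^ (2 - 1) * deriv v t = 2 * v t * deriv v t := by norm_num
      rw [h'] at h
      exact h
    have hci : Continuous fun t => 2 * v t * deriv v t :=
      (continuous_const.mul hv.continuous).mul hcd
    have h1 := intervalIntegral.integral_eq_sub_of_hasDerivAt hder (hci.intervalIntegrable a b)
    rw [← h1, intervalIntegral.integral_of_le hab]
    calc |∫ t in Ioc a b, 2 * v t * deriv v t|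
        ≤ ∫ t in Ioc a b, |2 * v t * deriv v t| := abs_integral_le_integral_abs
      _ ≤ ∫ t in Ioc a b, (v t ^ 2 + deriv v t ^ 2) := by
          apply integral_mono_of_nonneg (Filter.Eventually.of_forall fun t => abs_nonneg _)
            hsum.integrableOn
          refine Filter.Eventually.of_forall fun t => ?_
          simp only
          rw [abs_le]
          constructor <;> nlinarith [sq_nonneg (v t - deriv v t), sq_nonneg (v t + deriv v t)]
      _ ≤ I := by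
          rw [hI]
          exact setIntegral_le_integral hsum (Filter.Eventually.of_forall fun t => by
            simp only [Pi.zero_apply]; positivity)
  refine ⟨1 + v 0 ^ 2 + I, by positivity, fun t => ?_⟩
  have h2 : v t ^ 2 ≤ v 0 ^ 2 + I := by
    rcases le_total 0 t with h | h
    · have := abs_le.1 (key 0 t h); linarith [this.2]
    · have := abs_le.1 (key t 0 h); linarith [this.1]
  show |v t| ≤ _
  rw [abs_le]
  constructor <;> nlinarith [sq_nonneg (v t - 1), sq_nonneg (v t + 1), sq_nonneg (v 0)]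

private lemma A3_i1 (v w : H1) :
    Integrable fun t => deriv (v : ℝ → ℝ) t * deriv (w : ℝ → ℝ) t := by
  obtain ⟨v, hv, hv2, hv3⟩ := v
  obtain ⟨w, hw, hw2, hw3⟩ := w
  refine (hv3.add hw3).mono' ((hv.continuous_deriv (by norm_num)).mul
    (hw.continuous_deriv (by norm_num))).aestronglyMeasurable
    (Filter.Eventually.of_forall fun t => ?_)
  simp only [Real.norm_eq_abs, Pi.add_apply]
  rw [abs_le]
  constructor <;> nlinarith [sq_nonneg (deriv v t - deriv w t), sq_nonneg (deriv v t + deriv w t)]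

private lemma A3_i3 (v w : H1) :
    Integrable fun t => (v : ℝ → ℝ) t * (w : ℝ → ℝ) t := by
  obtain ⟨v, hv, hv2, hv3⟩ := v
  obtain ⟨w, hw, hw2, hw3⟩ := w
  refine (hv2.add hw2).mono' (hv.continuous.mul hw.continuous).aestronglyMeasurable
    (Filter.Eventually.of_forall fun t => ?_)
  simp only [Real.norm_eq_abs, Pi.add_apply]
  rw [abs_le]
  constructor <;> nlinarith [sq_nonneg (v t - w t), sq_nonneg (v t + w t)]

private lemma A3_i2 (V : ℝ → ℝ) (hV : MemLp V (3 / 2)) (v w : H1) :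
    Integrable fun t => V t * ((v : ℝ → ℝ) t * (w : ℝ → ℝ) t) := by
  obtain ⟨C, hC0, hC⟩ := A3_bdd v
  obtain ⟨C', hC0', hC'⟩ := A3_bdd w
  have hcont : Continuous fun t => (v : ℝ → ℝ) t * (w : ℝ → ℝ) t :=
    v.2.1.continuous.mul w.2.1.continuous
  have hm : MemLp (fun t => (v : ℝ → ℝ) t * (w : ℝ → ℝ) t) 3 := by
    rw [← integrable_norm_rpow_iff hcont.aestronglyMeasurable (by norm_num) (by norm_num)]
    have h1 : Integrable fun t => (C * C') ^ 2 * ‖(v : ℝ → ℝ) t * (w : ℝ → ℝ) t‖ :=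
      (A3_i3 v w).norm.const_mul _
    refine h1.mono' ?_ (Filter.Eventually.of_forall fun t => ?_)
    · exact (hcont.norm.rpow_const fun t => Or.inr (by simp)).aestronglyMeasurable
    · simp only [ENNReal.toReal_ofNat]
      have h2 : ‖(v : ℝ → ℝ) t * (w : ℝ → ℝ) t‖ ≤ C * C' := by
        rw [norm_mul]
        exact mul_le_mul (hC t) (hC' t) (norm_nonneg _) hC0
      have h3 : (0 : ℝ) ≤ ‖(v : ℝ → ℝ) t * (w : ℝ → ℝ) t‖ := norm_nonneg _
      set a := ‖(v : ℝ → ℝ) t * (w : ℝ → ℝ) t‖ with ha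
      have h4 : a ^ (3 : ℝ) = a ^ 3 := by exact_mod_cast Real.rpow_natCast a 3
      rw [h4, Real.norm_eq_abs, abs_of_nonneg (by positivity)]
      have h5 : a ^ 2 ≤ (C * C') ^ 2 := pow_le_pow_left₀ h3 h2 2
      calc a ^ 3 = a ^ 2 * a := by ring
        _ ≤ (C * C') ^ 2 * a := mul_le_mul_of_nonneg_right h5 h3
  have hinst := Pool.Helper490.Eig.holder_inst
  exact hV.integrable_mul hm

private lemma A3_dadd (v w : H1) (t : ℝ) :
    deriv ((v + w : H1) : ℝ → ℝ) t = deriv (v : ℝ → ℝ) t + deriv (w : ℝ → ℝ) t :=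
  deriv_add (v.2.1.differentiable (by norm_num) t) (w.2.1.differentiable (by norm_num) t)

private lemma A3_dsmul (c : ℝ) (v : H1) (t : ℝ) :
    deriv ((c • v : H1) : ℝ → ℝ) t = c * deriv (v : ℝ → ℝ) t := by
  have : deriv (c • (v : ℝ → ℝ)) t = c • deriv (v : ℝ → ℝ) t :=
    deriv_const_smul c (v.2.1.differentiable (by norm_num) t)
  simpa [smul_eq_mul] using this

private lemma A3_vadd (v w : H1) (t : ℝ) :
    ((v + w : H1) : ℝ → ℝ) t = (v : ℝ → ℝ) t + (w : ℝ → ℝ) t := rfl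

private lemma A3_vsmul (c : ℝ) (v : H1) (t : ℝ) :
    ((c • v : H1) : ℝ → ℝ) t = c * (v : ℝ → ℝ) t := rfl

private def A3_B (V : ℝ → ℝ) (l : ℕ) (v w : H1) : ℝ :=
  (∫ t, deriv (v : ℝ → ℝ) t * deriv (w : ℝ → ℝ) t) -
    (∫ t, V t * ((v : ℝ → ℝ) t * (w : ℝ → ℝ) t)) +
    ((l : ℝ) + 1 / 2) ^ 2 * ∫ t, (v : ℝ → ℝ) t * (w : ℝ → ℝ) t

private lemma A3_comm (V : ℝ → ℝ) (l : ℕ) (v w : H1) : A3_B V l v w = A3_B V l w v := by
  unfold A3_B
  congr 1
  · congr 1
    · exact integral_congr_ae (Filter.Eventually.of_forall fun t => mul_comm _ _)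
    · refine integral_congr_ae (Filter.Eventually.of_forall fun t => ?_)
      simp only
      ring
  · congr 1
    exact integral_congr_ae (Filter.Eventually.of_forall fun t => mul_comm _ _)

private lemma A3_addl (V : ℝ → ℝ) (hV : MemLp V (3 / 2)) (l : ℕ) (v v' w : H1) :
    A3_B V l (v + v') w = A3_B V l v w + A3_B V l v' w := by
  unfold A3_B
  have e1 : (∫ t, deriv ((v + v' : H1) : ℝ → ℝ) t * deriv (w : ℝ → ℝ) t) =
      (∫ t, deriv (v : ℝ → ℝ) t * deriv (w : ℝ → ℝ) t) +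
      ∫ t, deriv (v' : ℝ → ℝ) t * deriv (w : ℝ → ℝ) t := by
    rw [← integral_add (A3_i1 v w) (A3_i1 v' w)]
    refine integral_congr_ae (Filter.Eventually.of_forall fun t => ?_)
    simp only [A3_dadd]
    ring
  have e2 : (∫ t, V t * (((v + v' : H1) : ℝ → ℝ) t * (w : ℝ → ℝ) t)) =
      (∫ t, V t * ((v : ℝ → ℝ) t * (w : ℝ → ℝ) t)) +
      ∫ t, V t * ((v' : ℝ → ℝ) t * (w : ℝ → ℝ) t) := by
    rw [← integral_add (A3_i2 V hV v w) (A3_i2 V hV v' w)]
    refine integral_congr_ae (Filter.Eventually.of_forall fun t => ?_)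
    simp only [A3_vadd]
    ring
  have e3 : (∫ t, ((v + v' : H1) : ℝ → ℝ) t * (w : ℝ → ℝ) t) =
      (∫ t, (v : ℝ → ℝ) t * (w : ℝ → ℝ) t) + ∫ t, (v' : ℝ → ℝ) t * (w : ℝ → ℝ) t := by
    rw [← integral_add (A3_i3 v w) (A3_i3 v' w)]
    refine integral_congr_ae (Filter.Eventually.of_forall fun t => ?_)
    simp only [A3_vadd]
    ring
  rw [e1, e2, e3]
  ring

private lemma A3_smull (V : ℝ → ℝ) (l : ℕ) (c : ℝ) (v w : H1) :
    A3_B V l (c • v) w = c * A3_B V l v w := by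
  unfold A3_B
  have e1 : (∫ t, deriv ((c • v : H1) : ℝ → ℝ) t * deriv (w : ℝ → ℝ) t) =
      c * ∫ t, deriv (v : ℝ → ℝ) t * deriv (w : ℝ → ℝ) t := by
    rw [← integral_const_mul]
    refine integral_congr_ae (Filter.Eventually.of_forall fun t => ?_)
    simp only [A3_dsmul]
    ring
  have e2 : (∫ t, V t * (((c • v : H1) : ℝ → ℝ) t * (w : ℝ → ℝ) t)) =
      c * ∫ t, V t * ((v : ℝ → ℝ) t * (w : ℝ → ℝ) t) := by
    rw [← integral_const_mul]
    refine integral_congr_ae (Filter.Eventually.of_forall fun t => ?_)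
    simp only [A3_vsmul]
    ring
  have e3 : (∫ t, ((c • v : H1) : ℝ → ℝ) t * (w : ℝ → ℝ) t) =
      c * ∫ t, (v : ℝ → ℝ) t * (w : ℝ → ℝ) t := by
    rw [← integral_const_mul]
    refine integral_congr_ae (Filter.Eventually.of_forall fun t => ?_)
    simp only [A3_vsmul]
    ring
  rw [e1, e2, e3]
  ring

/-- A3: the bilinear forms on `H¹` -/
theorem A3_forms (V : ℝ → ℝ) (hV : MemLp V (3 / 2)) :
    ∃ B : ℕ → LinearMap.BilinForm ℝ H1, (∀ l, (B l).IsSymm) ∧
      ∀ l (v : H1), B l v v = qf V l (v : ℝ → ℝ) := by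
  refine ⟨fun l => LinearMap.mk₂ ℝ (A3_B V l) (A3_addl V hV l) (fun c v w => A3_smull V l c v w)
    (fun v w w' => by rw [A3_comm, A3_addl V hV, A3_comm V l w v, A3_comm V l w' v])
    (fun c v w => by rw [A3_comm, A3_smull, A3_comm V l w v]; rfl), fun l => ?_, fun l v => ?_⟩
  · constructor
    intro v w
    simp only [LinearMap.mk₂_apply]
    exact A3_comm V l v w
  · rw [LinearMap.mk₂_apply]
    unfold A3_B qf
    simp only [← sq]

end

end Pool.Agent.H379R3.RC
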