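import Pool.Agent.H379R3.RC.Defs

/-! A4: the bilinear forms on a space of test functions. -/

set_option autoImplicit false

open MeasureTheory Set Metric Real MvPolynomial
open Pool.Helper490.SH

namespace Pool.Agent.H379R3.RC

noncomputable section

/-- local integrability of the potential -/
theorem A4_locW (W : E → ℝ) (hWm : Measurable W) (hW0 : ∀ x, 0 ≤ W x)
    (hWi : Integrable (fun x => W x ^ (3 / 2 : ℝ))) (f : E → ℝ) (hf : Continuous f)
    (hfc : HasCompactSupport f) : Integrable (fun x => W x * f x) := by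
  obtain ⟨C, hC⟩ := hfc.exists_bound_of_continuous hf
  have hfi : Integrable f := hf.integrable_of_hasCompactSupport hfc
  refine (hfi.norm.add (hWi.const_mul C)).mono'
    (hWm.aestronglyMeasurable.mul hf.aestronglyMeasurable)
    (Filter.Eventually.of_forall fun x => ?_)
  have h1 : W x ≤ 1 + W x ^ (3 / 2 : ℝ) := by
    have h0 : 0 ≤ W x ^ (3 / 2 : ℝ) := Real.rpow_nonneg (hW0 x) _
    rcases le_total (W x) 1 with h | h
    · linarith
    · have := Real.rpow_le_rpow_of_exponent_le h (show (1 : ℝ) ≤ 3 / 2 by norm_num)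
      rw [Real.rpow_one] at this
      linarith
  have h0 : 0 ≤ W x ^ (3 / 2 : ℝ) := Real.rpow_nonneg (hW0 x) _
  rw [norm_mul, Real.norm_of_nonneg (hW0 x)]
  calc W x * ‖f x‖ ≤ (1 + W x ^ (3 / 2 : ℝ)) * ‖f x‖ :=
        mul_le_mul_of_nonneg_right h1 (norm_nonneg _)
    _ = ‖f x‖ + ‖f x‖ * W x ^ (3 / 2 : ℝ) := by ring
    _ ≤ ‖f x‖ + C * W x ^ (3 / 2 : ℝ) := by
        have := mul_le_mul_of_nonneg_right (hC x) h0
        linarith

/-- weighted forms -/
theorem A4_mk (S : Submodule ℝ (E → ℝ)) (ω : E → ℝ)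
    (hω : ∀ f : E → ℝ, Continuous f → HasCompactSupport f → Integrable (fun x => ω x * f x))
    (T : S → E → ℝ) (hadd : ∀ u v x, T (u + v) x = T u x + T v x)
    (hsmul : ∀ (c : ℝ) u x, T (c • u) x = c * T u x) (hcont : ∀ u, Continuous (T u))
    (hsupp : ∀ u, HasCompactSupport (T u)) :
    ∃ B : LinearMap.BilinForm ℝ S, ∀ u v, B u v = ∫ x, ω x * (T u x * T v x) := by
  have hint : ∀ u v, Integrable (fun x => ω x * (T u x * T v x)) := fun u v =>
    hω _ ((hcont u).mul (hcont v)) ((hsupp u).mul_right)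
  refine ⟨LinearMap.mk₂ ℝ (fun u v => ∫ x, ω x * (T u x * T v x)) ?_ ?_ ?_ ?_, fun u v => rfl⟩
  · intro u u' v
    rw [← integral_add (hint u v) (hint u' v)]
    congr 1
    funext x
    rw [hadd]; ring
  · intro c u v
    rw [smul_eq_mul, ← integral_const_mul]
    congr 1
    funext x
    rw [hsmul]; ring
  · intro u v v'
    rw [← integral_add (hint u v) (hint u v')]
    congr 1
    funext x
    rw [hadd]; ring
  · intro c u v
    rw [smul_eq_mul, ← integral_const_mul]
    congr 1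
    funext x
    rw [hsmul]; ring

theorem A4_norm (L : E →L[ℝ] ℝ) :
    ‖L‖ ^ 2 = ∑ i : Fin 3, (L (EuclideanSpace.single i 1)) ^ 2 := by
  set v : E := (InnerProductSpace.toDual ℝ E).symm L with hv
  have h1 : ‖L‖ = ‖v‖ := by rw [hv, LinearIsometryEquiv.norm_map]
  have h2 : ∀ x : E, L x = inner ℝ v x := by
    intro x
    rw [hv, InnerProductSpace.toDual_symm_apply]
  rw [h1, EuclideanSpace.norm_sq_eq]
  refine Finset.sum_congr rfl fun i _ => ?_
  rw [h2, EuclideanSpace.inner_single_right]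
  simp

/-- A4: the bilinear forms on a space of test functions -/
theorem A4_forms (W : E → ℝ) (hWm : Measurable W) (hW0 : ∀ x, 0 ≤ W x) (hWr : Rad W)
    (hWi : Integrable (fun x => W x ^ (3 / 2 : ℝ))) (S : Submodule ℝ (E → ℝ))
    (hS : ∀ u ∈ S, Cc u) :
    ∃ Q D : LinearMap.BilinForm ℝ S,
      (∀ u : S, Q u u = (∫ x, ‖fderiv ℝ (u : E → ℝ) x‖ ^ 2) - ∫ x, W x * (u : E → ℝ) x ^ 2) ∧
      ∀ u : S, D u u = ∫ x, W x * ang (u : E → ℝ) x := by
  have hlocW := A4_locW W hWm hW0 hWi
  have hloc1 : ∀ f : E → ℝ, Continuous f → HasCompactSupport f →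
      Integrable (fun x => (1 : ℝ) * f x) := by
    intro f hf hfc
    simpa using hf.integrable_of_hasCompactSupport hfc
  have hdiff : ∀ (u : S) x, DifferentiableAt ℝ (u : E → ℝ) x := fun u x =>
    ((hS u u.2).1.differentiable (by norm_num)) x
  have hC1 : ∀ u : S, ContDiff ℝ 1 (u : E → ℝ) := fun u => (hS u u.2).1.of_le (by norm_num)
  have hcs : ∀ u : S, HasCompactSupport (u : E → ℝ) := fun u => (hS u u.2).2
  have hfadd : ∀ (u v : S) x, fderiv ℝ ((u + v : S) : E → ℝ) x =
      fderiv ℝ (u : E → ℝ) x + fderiv ℝ (v : E → ℝ) x := fun u v x =>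
    fderiv_add (hdiff u x) (hdiff v x)
  have hfsmul : ∀ (c : ℝ) (u : S) x, fderiv ℝ ((c • u : S) : E → ℝ) x =
      c • fderiv ℝ (u : E → ℝ) x := fun c u x => fderiv_const_smul (hdiff u x) c
  -- the partial derivatives
  have hcd : ∀ (i : Fin 3) (u : S), Continuous fun x =>
      fderiv ℝ (u : E → ℝ) x (EuclideanSpace.single i 1) := by
    intro i u
    have := (hC1 u).continuous_fderiv (by norm_num)
    fun_prop
  have hsd : ∀ (i : Fin 3) (u : S), HasCompactSupport fun x =>
      fderiv ℝ (u : E → ℝ) x (EuclideanSpace.single i 1) := fun i u =>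
    (hcs u).fderiv_apply (𝕜 := ℝ) _
  have hQ : ∀ i : Fin 3, ∃ B : LinearMap.BilinForm ℝ S, ∀ u v : S, B u v =
      ∫ x, (1 : ℝ) * (fderiv ℝ (u : E → ℝ) x (EuclideanSpace.single i 1) *
        fderiv ℝ (v : E → ℝ) x (EuclideanSpace.single i 1)) := by
    intro i
    refine A4_mk S (fun _ => 1) hloc1
      (fun u x => fderiv ℝ (u : E → ℝ) x (EuclideanSpace.single i 1)) ?_ ?_ (hcd i) (hsd i)
    · intro u v x
      simp only [hfadd]
      rfl
    · intro c u x
      simp only [hfsmul]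
      rfl
  choose BQ hBQ using hQ
  obtain ⟨B0, hB0⟩ : ∃ B : LinearMap.BilinForm ℝ S, ∀ u v : S, B u v =
      ∫ x, W x * ((u : E → ℝ) x * (v : E → ℝ) x) :=
    A4_mk S W hlocW (fun u => (u : E → ℝ)) (fun u v x => rfl) (fun c u x => rfl)
      (fun u => (hC1 u).continuous) hcs
  have hcL : ∀ (a b : Fin 3) (u : S), Continuous (LF a b (u : E → ℝ)) := fun a b u =>
    LF_continuous a b _ (hC1 u)
  have hsL : ∀ (a b : Fin 3) (u : S), HasCompactSupport (LF a b (u : E → ℝ)) := by
    intro a b u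
    have h1 : HasCompactSupport fun x : E =>
        x a * fderiv ℝ (u : E → ℝ) x (EuclideanSpace.single b 1) := (hsd b u).mul_left
    have h2 : HasCompactSupport fun x : E =>
        x b * fderiv ℝ (u : E → ℝ) x (EuclideanSpace.single a 1) := (hsd a u).mul_left
    exact h1.sub h2
  have hD : ∀ a b : Fin 3, ∃ B : LinearMap.BilinForm ℝ S, ∀ u v : S, B u v =
      ∫ x, W x * (LF a b (u : E → ℝ) x * LF a b (v : E → ℝ) x) := by
    intro a b
    refine A4_mk S W hlocW (fun u => LF a b (u : E → ℝ)) ?_ ?_ (hcL a b) (hsL a b)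
    · intro u v x
      simp only [LF, hfadd, _root_.add_apply]
      ring
    · intro c u x
      simp only [LF, hfsmul, _root_.smul_apply, smul_eq_mul]
      ring
  choose BD hBD using hD
  refine ⟨(∑ i, BQ i) - B0, BD 0 1 + BD 0 2 + BD 1 2, ?_, ?_⟩
  · intro u
    have e1 : ((∑ i, BQ i) - B0) u u = (∑ i, BQ i u u) - B0 u u := by
      simp [LinearMap.sub_apply, LinearMap.sum_apply]
    rw [e1, hB0]
    simp only [hBQ]
    have hii : ∀ i ∈ (Finset.univ : Finset (Fin 3)), Integrable (fun x : E =>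
        (1 : ℝ) * (fderiv ℝ (u : E → ℝ) x (EuclideanSpace.single i 1) *
          fderiv ℝ (u : E → ℝ) x (EuclideanSpace.single i 1))) := fun i _ =>
      hloc1 _ ((hcd i u).mul (hcd i u)) ((hsd i u).mul_right)
    rw [← integral_finsetSum _ hii]
    congr 1
    · congr 1
      funext x
      rw [A4_norm]
      refine Finset.sum_congr rfl fun i _ => ?_
      ring
    · congr 1
      funext x
      ring
  · intro u
    have e1 : (BD 0 1 + BD 0 2 + BD 1 2) u u = BD 0 1 u u + BD 0 2 u u + BD 1 2 u u := by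
      simp [LinearMap.add_apply]
    have hi : ∀ a b : Fin 3, Integrable (fun x => W x *
        (LF a b (u : E → ℝ) x * LF a b (u : E → ℝ) x)) := fun a b =>
      hlocW _ ((hcL a b u).mul (hcL a b u)) ((hsL a b u).mul_right)
    have hi2 : Integrable (fun x => W x * (LF 0 1 (u : E → ℝ) x * LF 0 1 (u : E → ℝ) x) +
        W x * (LF 0 2 (u : E → ℝ) x * LF 0 2 (u : E → ℝ) x)) := (hi 0 1).add (hi 0 2)
    rw [e1, hBD, hBD, hBD, ← integral_add (hi 0 1) (hi 0 2), ← integral_add hi2 (hi 1 2)]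
    congr 1
    funext x
    unfold ang
    ring

end

end Pool.Agent.H379R3.RC
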