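import Pool.Agent.H379R3.RC.Defs

/-! # C1: min-max values from real subspaces of `H¹` -/

set_option autoImplicit false

open MeasureTheory Set Metric Real MvPolynomial
open Pool.Helper490.SH

namespace Pool.Agent.H379R3.RC

noncomputable section

open Pool.Helper490.Eig

/-- normalisation of a Sobolev function -/
theorem C1_unit (u g : ℝ → ℂ) (h : IsSobolev u g) (hu : u ≠ 0) :
    ∃ c : ℝ, c ^ 2 * ∫ x, ‖u x‖ ^ 2 = 1 ∧ IsSobolev (fun x => (c : ℂ) * u x)
      (fun x => (c : ℂ) * g x) ∧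
      ∀ n m : Fin 1, ∫ x, star ((fun _ : Fin 1 => fun x => (c : ℂ) * u x) n x) *
        (fun _ : Fin 1 => fun x => (c : ℂ) * u x) m x = if n = m then (1 : ℂ) else 0 := by
  have hpos := h.integral_pos hu
  set m : ℝ := ∫ x, ‖u x‖ ^ 2 with hm
  refine ⟨(√m)⁻¹, ?_, h.const_mul _, ?_⟩
  · rw [inv_pow, Real.sq_sqrt hpos.le, inv_mul_cancel₀ hpos.ne']
  · intro i j
    rw [if_pos (Subsingleton.elim i j)]
    have h1 : ∀ x, star (((√m)⁻¹ : ℝ) * u x) * ((((√m)⁻¹ : ℝ) : ℂ) * u x) =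
        ((m⁻¹ * ‖u x‖ ^ 2 : ℝ) : ℂ) := by
      intro x
      have h2 : ‖(((√m)⁻¹ : ℝ) : ℂ) * u x‖ ^ 2 = m⁻¹ * ‖u x‖ ^ 2 := by
        rw [norm_mul, mul_pow, Complex.norm_real, Real.norm_eq_abs, sq_abs, inv_pow,
          Real.sq_sqrt hpos.le]
      rw [← h2, ← Complex.normSq_eq_norm_sq, mul_comm]
      exact Complex.mul_conj _
    simp only [h1]
    rw [integral_complex_ofReal, integral_const_mul, ← hm, inv_mul_cancel₀ hpos.ne']
    simp

/-- `V |u|²` is integrable for `u` in `H¹` and `V` in `L^(3/2)` -/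
theorem C1_integrable (V : ℝ → ℝ) (hV : MemLp V (3 / 2)) (u g : ℝ → ℂ) (h : IsSobolev u g) :
    Integrable (fun x => V x * ‖u x‖ ^ 2) := by
  by_cases hu : u = 0
  · subst hu; simp
  obtain ⟨c, hc, hS, ho⟩ := C1_unit u g h hu
  obtain ⟨hρ3, -⟩ := Pool.Helper490.Calib.sharp_H1_complex
    (fun _ : Fin 1 => fun x => (c : ℂ) * u x) (fun _ : Fin 1 => fun x => (c : ℂ) * g x)
    (fun _ => hS.memLp) (fun _ => hS.memLp_deriv) (fun _ => hS.integral_deriv) ho
  have hc0 : c ≠ 0 := by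
    rintro rfl
    simp at hc
  have hcont : Continuous (fun x => ‖(c : ℂ) * u x‖ ^ 2) := hS.continuous.norm.pow 2
  have h3 : MemLp (fun x => ‖(c : ℂ) * u x‖ ^ 2) 3 := by
    rw [← integrable_norm_rpow_iff hcont.aestronglyMeasurable (by norm_num) (by norm_num)]
    refine hρ3.congr (Filter.Eventually.of_forall fun x => ?_)
    simp only [ENNReal.toReal_ofNat, Fintype.sum_unique]
    rw [Real.norm_eq_abs, abs_of_nonneg (sq_nonneg _)]
    generalize (‖(c : ℂ) * u x‖ ^ 2) = y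
    exact_mod_cast (Real.rpow_natCast y 3).symm
  have hinst := holder_inst
  have h4 : Integrable (fun x => V x * ‖(c : ℂ) * u x‖ ^ 2) := hV.integrable_mul h3
  have h5 := h4.const_mul ((c ^ 2)⁻¹)
  refine h5.congr (Filter.Eventually.of_forall fun x => ?_)
  simp only [norm_mul, Complex.norm_real, Real.norm_eq_abs, mul_pow, sq_abs]
  field_simp

/-- lower bound of the form -/
theorem C1_lower (U : ℝ → ℝ) (hU : MemLp U (3 / 2)) (u g : ℝ → ℂ) (h : IsSobolev u g)
    (hu : u ≠ 0) (lam : ℝ)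
    (hl : (∫ x, ‖g x‖ ^ 2) + ∫ x, U x * ‖u x‖ ^ 2 ≤ lam * ∫ x, ‖u x‖ ^ 2) :
    -(L11 * ∫ x, (max (-U x) 0) ^ ((3:ℝ) / 2)) ≤ lam := by
  obtain ⟨c, hc, hS, ho⟩ := C1_unit u g h hu
  have hf := family_bound (fun _ : Fin 1 => fun x => (c : ℂ) * u x)
    (fun _ : Fin 1 => fun x => (c : ℂ) * g x) (fun _ => hS) ho U hU
  simp only [Fintype.sum_unique] at hf
  have e1 : ∀ x, ‖(c : ℂ) * g x‖ ^ 2 = c ^ 2 * ‖g x‖ ^ 2 := by
    intro x
    rw [norm_mul, mul_pow, Complex.norm_real, Real.norm_eq_abs, sq_abs]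
  have e2 : ∀ x, U x * ‖(c : ℂ) * u x‖ ^ 2 = c ^ 2 * (U x * ‖u x‖ ^ 2) := by
    intro x
    rw [norm_mul, mul_pow, Complex.norm_real, Real.norm_eq_abs, sq_abs]
    ring
  simp only [e1, e2] at hf
  rw [integral_const_mul, integral_const_mul, ← mul_add] at hf
  have h1 := mul_le_mul_of_nonneg_left hl (sq_nonneg c)
  have h2 : c ^ 2 * (lam * ∫ x, ‖u x‖ ^ 2) = lam := by
    calc c ^ 2 * (lam * ∫ x, ‖u x‖ ^ 2) = lam * (c ^ 2 * ∫ x, ‖u x‖ ^ 2) := by ring
      _ = lam := by rw [hc, mul_one]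
  rw [h2] at h1
  linarith

/-- the complex function with real part `a` and imaginary part `b` -/
def cplx (a b : ℝ → ℝ) (t : ℝ) : ℂ := (a t : ℂ) + (b t : ℂ) * Complex.I

theorem cplx_norm (a b : ℝ → ℝ) (t : ℝ) : ‖cplx a b t‖ ^ 2 = a t ^ 2 + b t ^ 2 := by
  rw [← Complex.normSq_eq_norm_sq, cplx, Complex.normSq_add_mul_I]

theorem C1_sobolev (a b : H1) : IsSobolev (cplx (a : ℝ → ℝ) (b : ℝ → ℝ))
    (cplx (deriv (a : ℝ → ℝ)) (deriv (b : ℝ → ℝ))) := by
  obtain ⟨a, ha1, ha2, ha3⟩ := a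
  obtain ⟨b, hb1, hb2, hb3⟩ := b
  simp only
  have hac : Continuous (deriv a) := ha1.continuous_deriv (by norm_num)
  have hbc : Continuous (deriv b) := hb1.continuous_deriv (by norm_num)
  have hc1 : Continuous (cplx a b) :=
    (Complex.continuous_ofReal.comp ha1.continuous).add
      ((Complex.continuous_ofReal.comp hb1.continuous).mul continuous_const)
  have hc2 : Continuous (cplx (deriv a) (deriv b)) :=
    (Complex.continuous_ofReal.comp hac).add
      ((Complex.continuous_ofReal.comp hbc).mul continuous_const)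
  refine ⟨?_, ?_, ?_⟩
  · rw [memLp_two_iff_integrable_sq_norm hc1.aestronglyMeasurable]
    simp only [cplx_norm]
    exact ha2.add hb2
  · rw [memLp_two_iff_integrable_sq_norm hc2.aestronglyMeasurable]
    simp only [cplx_norm]
    exact ha3.add hb3
  · intro x y
    rw [eq_comm]
    apply intervalIntegral.integral_eq_sub_of_hasDerivAt
    · intro t _
      have h1 : HasDerivAt a (deriv a t) t :=
        (ha1.differentiable (by norm_num) t).hasDerivAt
      have h2 : HasDerivAt b (deriv b t) t :=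
        (hb1.differentiable (by norm_num) t).hasDerivAt
      exact h1.ofReal_comp.add (h2.ofReal_comp.mul_const Complex.I)
    · exact hc2.intervalIntegrable _ _

/-- complex combinations of real functions -/
theorem C1_comb {m : ℕ} (F : Fin m → ℝ → ℝ) (c : Fin m → ℂ) :
    (∑ i, c i • (fun t => (F i t : ℂ) : ℝ → ℂ)) =
      cplx (∑ i, (c i).re • F i) (∑ i, (c i).im • F i) := by
  funext t
  have e1 : (∑ i, (c i).re • F i) t = ∑ i, (c i).re * F i t := by
    simp only [Finset.sum_apply, Pi.smul_apply, smul_eq_mul]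
  have e2 : (∑ i, (c i).im • F i) t = ∑ i, (c i).im * F i t := by
    simp only [Finset.sum_apply, Pi.smul_apply, smul_eq_mul]
  rw [cplx, e1, e2]
  simp only [Finset.sum_apply, Pi.smul_apply, smul_eq_mul]
  push_cast
  rw [Finset.sum_mul, ← Finset.sum_add_distrib]
  refine Finset.sum_congr rfl fun i _ => ?_
  conv_lhs => rw [← Complex.re_add_im (c i)]
  ring

/-- real linear independence implies complex linear independence -/
theorem C1_indep {m : ℕ} (F : Fin m → ℝ → ℝ) (hF : LinearIndependent ℝ F) :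
    LinearIndependent ℂ (fun i => (fun t => (F i t : ℂ) : ℝ → ℂ)) := by
  rw [Fintype.linearIndependent_iff]
  intro c hc i
  rw [C1_comb F c] at hc
  have hre : (∑ i, (c i).re • F i) = 0 := by
    funext t
    have h1 := congrArg Complex.re (congrFun hc t)
    simpa [cplx] using h1
  have him : (∑ i, (c i).im • F i) = 0 := by
    funext t
    have h1 := congrArg Complex.im (congrFun hc t)
    simpa [cplx] using h1
  have h1 := Fintype.linearIndependent_iff.1 hF _ hre i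
  have h2 := Fintype.linearIndependent_iff.1 hF _ him i
  exact Complex.ext h1 h2

/-- the form inequality for `a + i b` -/
theorem C1_ineq (V : ℝ → ℝ) (hV : MemLp V (3 / 2)) (lam : ℝ) (a b : H1)
    (hTa : (∫ t, deriv (a : ℝ → ℝ) t ^ 2) - (∫ t, V t * (a : ℝ → ℝ) t ^ 2) ≤
      lam * ∫ t, (a : ℝ → ℝ) t ^ 2)
    (hTb : (∫ t, deriv (b : ℝ → ℝ) t ^ 2) - (∫ t, V t * (b : ℝ → ℝ) t ^ 2) ≤
      lam * ∫ t, (b : ℝ → ℝ) t ^ 2) :
    (∫ x, ‖cplx (deriv (a : ℝ → ℝ)) (deriv (b : ℝ → ℝ)) x‖ ^ 2) +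
      ∫ x, -V x * ‖cplx (a : ℝ → ℝ) (b : ℝ → ℝ) x‖ ^ 2 ≤
      lam * ∫ x, ‖cplx (a : ℝ → ℝ) (b : ℝ → ℝ) x‖ ^ 2 := by
  have hS1 := C1_sobolev a 0
  have hS2 := C1_sobolev b 0
  obtain ⟨a', ha1, ha2, ha3⟩ := a
  obtain ⟨b', hb1, hb2, hb3⟩ := b
  simp only at hTa hTb hS1 hS2 ⊢
  have hVa : Integrable (fun x => V x * a' x ^ 2) := by
    have h1 := C1_integrable V hV _ _ hS1
    simp only [cplx_norm] at h1
    refine h1.congr (Filter.Eventually.of_forall fun x => ?_)
    simp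
  have hVb : Integrable (fun x => V x * b' x ^ 2) := by
    have h1 := C1_integrable V hV _ _ hS2
    simp only [cplx_norm] at h1
    refine h1.congr (Filter.Eventually.of_forall fun x => ?_)
    simp
  simp only [cplx_norm]
  have e3 : ∫ x, -V x * (a' x ^ 2 + b' x ^ 2) =
      -(∫ x, V x * a' x ^ 2) - ∫ x, V x * b' x ^ 2 := by
    have h1 : ∀ x, -V x * (a' x ^ 2 + b' x ^ 2) =
        -(V x * a' x ^ 2 + V x * b' x ^ 2) := by
      intro x; ring
    simp only [h1]
    rw [integral_neg, integral_add hVa hVb]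
    ring
  rw [e3, integral_add ha3 hb3, integral_add ha2 hb2]
  linarith

/-- a linearly independent family in a finite dimensional space of functions -/
theorem C1_exists {X : Type} [AddCommGroup X] [Module ℝ X] (M : Submodule ℝ X)
    (T : Submodule ℝ M) [FiniteDimensional ℝ T] (n : ℕ) (hn : n < Module.finrank ℝ T) :
    ∃ F : Fin (n + 1) → X, LinearIndependent ℝ F ∧
      ∀ c : Fin (n + 1) → ℝ, ∃ a : M, a ∈ T ∧ (a : X) = ∑ i, c i • F i := by
  obtain ⟨e, he⟩ : ∃ e : Fin (n + 1) → T, LinearIndependent ℝ e :=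
    exists_linearIndependent_of_le_finrank hn
  let φ : T →ₗ[ℝ] X := M.subtype.comp T.subtype
  have hφ : Function.Injective φ := by
    intro x y hxy
    exact Subtype.ext (Subtype.ext hxy)
  refine ⟨fun i => φ (e i), he.map' φ (LinearMap.ker_eq_bot.2 hφ), fun c => ?_⟩
  refine ⟨((∑ i, c i • e i : T) : M), (∑ i, c i • e i : T).2, ?_⟩
  have ha : φ (∑ i, c i • e i) = ∑ i, c i • φ (e i) := by
    rw [map_sum]; exact Finset.sum_congr rfl fun i _ => map_smul _ _ _
  exact ha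

theorem C1_minMax (V : ℝ → ℝ) (hV : MemLp V (3 / 2)) (T : Submodule ℝ H1)
    [FiniteDimensional ℝ T] (lam : ℝ)
    (hT : ∀ v ∈ T, (∫ t, deriv (v : ℝ → ℝ) t ^ 2) - (∫ t, V t * (v : ℝ → ℝ) t ^ 2) ≤
      lam * ∫ t, (v : ℝ → ℝ) t ^ 2) (n : ℕ) (hn : n < Module.finrank ℝ T) :
    Pool.Helper490.Eig.minMax (fun t => -V t) n ≤ lam := by
  have hU : MemLp (fun t => -V t) (3 / 2) := hV.neg
  rw [minMax]
  refine csInf_le ?_ ?_
  · refine ⟨-(L11 * ∫ x, (max (-(-V x)) 0) ^ ((3:ℝ) / 2)), ?_⟩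
    rintro lam' ⟨X, hX, hX2⟩
    have hne : X ≠ ⊥ := by
      intro h
      rw [h, finrank_bot] at hX
      omega
    obtain ⟨u, huX, hu0⟩ := (Submodule.ne_bot_iff _).1 hne
    obtain ⟨g, hg, hq⟩ := hX2 u huX
    exact C1_lower (fun t => -V t) hU u g hg hu0 lam' hq
  · obtain ⟨F, hF, hc⟩ := C1_exists H1 T n hn
    refine ⟨Submodule.span ℂ (Set.range (fun i => (fun t => (F i t : ℂ) : ℝ → ℂ))), ?_, ?_⟩
    · rw [finrank_span_eq_card (C1_indep F hF), Fintype.card_fin]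
    · intro u hu
      rw [Submodule.mem_span_range_iff_exists_fun] at hu
      obtain ⟨c, rfl⟩ := hu
      rw [C1_comb F c]
      obtain ⟨a, haT, ha⟩ := hc (fun i => (c i).re)
      obtain ⟨b, hbT, hb⟩ := hc (fun i => (c i).im)
      rw [← ha, ← hb]
      exact ⟨_, C1_sobolev a b, C1_ineq V hV lam a b (hT a haT) (hT b hbT)⟩

end

end Pool.Agent.H379R3.RC
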