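import Pool.Agent.H379R3.RC.Defs

set_option autoImplicit false

open MeasureTheory Set Metric Real MvPolynomial
open Pool.Helper490.SH

namespace Pool.Agent.H379R3.RC

noncomputable section

theorem C2_sqrt (K k : ℕ) (h : k ∈ Finset.Ico (K ^ 2) ((K + 1) ^ 2)) : Nat.sqrt k = K := by
  rw [Finset.mem_Ico] at h
  symm
  rw [Nat.eq_sqrt]
  constructor
  · nlinarith [h.1]
  · nlinarith [h.2]

theorem C2_sum (K : ℕ) (d : ℕ → ℕ) :
    ∑ k ∈ Finset.range (K ^ 2), d (Nat.sqrt k) = ∑ l ∈ Finset.range K, (2 * l + 1) * d l := by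
  induction K with
  | zero => simp
  | succ K ih =>
    rw [Finset.sum_range_succ, ← ih, ← Finset.sum_range_add_sum_Ico _
      (show K ^ 2 ≤ (K + 1) ^ 2 from Nat.pow_le_pow_left (Nat.le_succ K) 2)]
    congr 1
    rw [Finset.sum_congr rfl (fun k hk => by rw [C2_sqrt K k hk]), Finset.sum_const,
      Nat.card_Ico, smul_eq_mul]
    congr 1
    have : (K + 1) ^ 2 = K ^ 2 + (2 * K + 1) := by ring
    omega

theorem C2_odd (L : ℕ) : ∑ l ∈ Finset.range L, (2 * l + 1) = L ^ 2 := by
  induction L with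
  | zero => simp
  | succ L ih => rw [Finset.sum_range_succ, ih]; ring

/-- C2: counting (pure combinatorics) -/
theorem C2_count (K : ℕ) (d : ℕ → ℕ) (N : ℕ) (μ : ℕ → ℝ) (hμ : ∀ n, 0 ≤ μ n)
    (hd : ∀ l < K, d l ≤ N) (h : ∀ l < K, ∀ n < d l, ((l : ℝ) + 1 / 2) ^ 2 ≤ μ n) :
    ((∑ k ∈ Finset.range (K ^ 2), d (Nat.sqrt k) : ℕ) : ℝ) ≤ 4 * ∑ n ∈ Finset.range N, μ n := by
  have e1 : ∑ k ∈ Finset.range (K ^ 2), d (Nat.sqrt k) =
      ∑ n ∈ Finset.range N, ∑ l ∈ (Finset.range K).filter (fun l => n < d l), (2 * l + 1) := by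
    rw [C2_sum]
    have : ∀ l ∈ Finset.range K, (2 * l + 1) * d l =
        ∑ n ∈ Finset.range N, if n < d l then (2 * l + 1) else 0 := by
      intro l hl
      rw [← Finset.sum_filter, Finset.sum_const, smul_eq_mul, mul_comm]
      congr 1
      have : (Finset.range N).filter (fun n => n < d l) = Finset.range (d l) := by
        ext n
        simp only [Finset.mem_filter, Finset.mem_range]
        have := hd l (Finset.mem_range.1 hl)
        omega
      rw [this, Finset.card_range]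
    rw [Finset.sum_congr rfl this, Finset.sum_comm]
    refine Finset.sum_congr rfl fun n _ => ?_
    rw [Finset.sum_filter]
  rw [e1, Nat.cast_sum, Finset.mul_sum]
  refine Finset.sum_le_sum fun n _ => ?_
  set A := (Finset.range K).filter (fun l => n < d l) with hA
  rcases A.eq_empty_or_nonempty with h0 | h0
  · rw [h0]
    simpa using hμ n
  · set L := A.max' h0 with hL
    have hLm : L ∈ A := A.max'_mem h0
    rw [hA, Finset.mem_filter, Finset.mem_range] at hLm
    have hsub : A ⊆ Finset.range (L + 1) := by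
      intro l hl
      rw [Finset.mem_range]
      have := A.le_max' l hl
      omega
    have h1 : ∑ l ∈ A, (2 * l + 1) ≤ (L + 1) ^ 2 := by
      rw [← C2_odd]
      exact Finset.sum_le_sum_of_subset hsub
    have h2 : ((∑ l ∈ A, (2 * l + 1) : ℕ) : ℝ) ≤ ((L : ℝ) + 1) ^ 2 := by exact_mod_cast h1
    have h3 := h L hLm.1 n hLm.2
    have h4 : (0 : ℝ) ≤ L := Nat.cast_nonneg L
    nlinarith

end

end Pool.Agent.H379R3.RC
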