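import Pool.Agent.H379R3.RC.Defs
import Pool.Agent.H379R3.RC.C1
import Pool.Agent.H379R3.RC.C2

/-! Task C3 of helper379's project RC: the sum over the channels. -/

set_option autoImplicit false

open MeasureTheory Set Metric Real MvPolynomial
open Pool.Helper490.SH

namespace Pool.Agent.H379R3.RC

noncomputable section

/-- C3: the sum over the channels (uses C1, C2, minMax_bound) -/
theorem C3_chan (V : ℝ → ℝ) (hV : MemLp V (3 / 2)) (K : ℕ) (T : ℕ → Submodule ℝ H1)
    (hf : ∀ l, FiniteDimensional ℝ (T l))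
    (hneg : ∀ l, ∀ v ∈ T l, v ≠ 0 → qf V l (v : ℝ → ℝ) < 0) :
    ((∑ k ∈ Finset.range (K ^ 2), Module.finrank ℝ (T (Nat.sqrt k)) : ℕ) : ℝ) ≤
      16 / (3 * √3 * π) * ∫ t, (max (V t) 0) ^ (3 / 2 : ℝ) := by
  set d : ℕ → ℕ := fun l => Module.finrank ℝ (T l) with hd
  set N : ℕ := (Finset.range K).sup d with hN
  set μ : ℕ → ℝ := fun n => max (-Pool.Helper490.Eig.minMax (fun t => -V t) n) 0 with hμ
  have h1 : ∀ l < K, ∀ n < d l, ((l : ℝ) + 1 / 2) ^ 2 ≤ μ n := by
    intro l _ n hn
    have := hf l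
    have h2 := C1_minMax V hV (T l) (-((l : ℝ) + 1 / 2) ^ 2) (fun v hv => by
      by_cases h0 : v = 0
      · have h3 : ((v : H1) : ℝ → ℝ) = 0 := by rw [h0]; rfl
        have h4 : deriv (0 : ℝ → ℝ) = fun _ => 0 := by funext t; simp
        rw [h3, h4]
        simp
      · have h3 := hneg l v hv h0
        unfold qf at h3
        linarith) n hn
    exact le_max_of_le_left (by linarith)
  have h5 := C2_count K d N μ (fun n => le_max_right _ _)
    (fun l hl => Finset.le_sup (f := d) (Finset.mem_range.2 hl)) h1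
  have h6 := Pool.Helper490.Eig.minMax_bound (fun t => -V t) hV.neg N
  simp only [neg_neg] at h6
  refine h5.trans ?_
  have h7 : (16 / (3 * √3 * π) : ℝ) = 4 * Pool.Helper490.Eig.L11 := by
    unfold Pool.Helper490.Eig.L11
    ring
  rw [h7, mul_assoc]
  exact mul_le_mul_of_nonneg_left h6 (by norm_num)

end

end Pool.Agent.H379R3.RC
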