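import Pool.Agent.Helper490.SH.Rot
import Pool.Agent.Helper490.SH.LamMod
import Pool.Agent.Helper490.LTEig

/-!
# The sharp Cwikel-Lieb-Rozenblum inequality for radial potentials in dimension three: definitions

`E = EuclideanSpace ℝ (Fin 3)`, `S2` = unit sphere, `sig` = surface measure (total mass `4 π`),
`ev P x` = value of the polynomial `P`, `LF a b u = x_a ∂_b u - x_b ∂_a u`, `LP` the same on
polynomials, `Lam` = minus the Laplace-Beltrami operator on polynomials (all from helper490's SH).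
-/

set_option autoImplicit false

open MeasureTheory Set Metric Real MvPolynomial
open Pool.Helper490.SH

namespace Pool.Agent.H379R3.RC

noncomputable section

/-- smooth functions with compact support -/
def Cc (u : E → ℝ) : Prop := ContDiff ℝ (⊤ : ℕ∞) u ∧ HasCompactSupport u

/-- a unit vector -/
def e0 : E := EuclideanSpace.single 0 1

/-- radial functions -/
def Rad (W : E → ℝ) : Prop := ∀ x y : E, ‖x‖ = ‖y‖ → W x = W y

/-- square of the tangential part of the gradient, times `|x|²` -/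
def ang (u : E → ℝ) (x : E) : ℝ := LF 0 1 u x ^ 2 + LF 0 2 u x ^ 2 + LF 1 2 u x ^ 2

/-- orthonormal polynomials on the sphere with degrees at most `√k` (some of them may vanish on
the sphere) -/
structure Fam0 (Y : ℕ → MvPolynomial (Fin 3) ℝ) : Prop where
  orth : ∀ j k, j ≠ k → ∫ w : S2, ev (Y j) (w : E) * ev (Y k) (w : E) ∂sig = 0
  norm : ∀ k, ∫ w : S2, ev (Y k) (w : E) ^ 2 ∂sig = 0 ∨ ∫ w : S2, ev (Y k) (w : E) ^ 2 ∂sig = 1
  deg : ∀ k, (Y k).totalDegree ≤ Nat.sqrt k
  span : ∀ (P : MvPolynomial (Fin 3) ℝ) (L : ℕ), P.totalDegree ≤ L →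
    ∃ c : ℕ → ℝ, ∀ w : S2, ev P (w : E) =
      ∑ k ∈ Finset.range ((L + 1) ^ 2), c k * ev (Y k) (w : E)

/-- orthonormal spherical harmonics: `Y k` has degree `√k` -/
structure Fam (Y : ℕ → MvPolynomial (Fin 3) ℝ) : Prop extends Fam0 Y where
  lam : ∀ (k : ℕ) (w : S2), ev (Lam (Y k)) (w : E) =
    (Nat.sqrt k : ℝ) * ((Nat.sqrt k : ℝ) + 1) * ev (Y k) (w : E)

/-- coefficient of `u` on the sphere of radius `r` -/
def ck (P : MvPolynomial (Fin 3) ℝ) (u : E → ℝ) (r : ℝ) : ℝ :=
  ∫ w : S2, u (r • (w : E)) * ev P (w : E) ∂sig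

/-- derivative of `ck` with respect to `r` -/
def ckd (P : MvPolynomial (Fin 3) ℝ) (u : E → ℝ) (r : ℝ) : ℝ :=
  ∫ w : S2, fderiv ℝ u (r • (w : E)) (w : E) * ev P (w : E) ∂sig

/-- the coefficient in logarithmic coordinates -/
def vk (P : MvPolynomial (Fin 3) ℝ) (u : E → ℝ) (t : ℝ) : ℝ := exp (t / 2) * ck P u (exp t)

/-- the potential in logarithmic coordinates -/
def VV (W : E → ℝ) (t : ℝ) : ℝ := exp (2 * t) * W (exp t • e0)

/-- `H¹(ℝ) ∩ C¹(ℝ)`, real valued -/
def H1 : Submodule ℝ (ℝ → ℝ) where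
  carrier := {v | ContDiff ℝ 1 v ∧ Integrable (fun t => v t ^ 2) ∧
    Integrable (fun t => deriv v t ^ 2)}
  zero_mem' := by
    refine ⟨contDiff_const, ?_, ?_⟩
    · simp
    · have : deriv (0 : ℝ → ℝ) = fun _ => 0 := by funext t; simp
      simp [this]
  add_mem' := by
    rintro v w ⟨hv, hv2, hv3⟩ ⟨hw, hw2, hw3⟩
    refine ⟨hv.add hw, ?_, ?_⟩
    · refine ((hv2.const_mul 2).add (hw2.const_mul 2)).mono'
        ((hv.continuous.add hw.continuous).pow 2).aestronglyMeasurable
        (Filter.Eventually.of_forall fun t => ?_)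
      simp only [Pi.add_apply, Real.norm_eq_abs, abs_pow, sq_abs]
      nlinarith [sq_nonneg (v t - w t)]
    · have hd : ∀ t, deriv (v + w) t = deriv v t + deriv w t := fun t =>
        deriv_add (hv.differentiable (by norm_num) t) (hw.differentiable (by norm_num) t)
      simp only [hd]
      refine ((hv3.const_mul 2).add (hw3.const_mul 2)).mono'
        (((hv.continuous_deriv (by norm_num)).add (hw.continuous_deriv (by norm_num))).pow
          2).aestronglyMeasurable (Filter.Eventually.of_forall fun t => ?_)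
      simp only [Pi.add_apply, Real.norm_eq_abs, abs_pow, sq_abs]
      nlinarith [sq_nonneg (deriv v t - deriv w t)]
  smul_mem' := by
    rintro c v ⟨hv, hv2, hv3⟩
    refine ⟨contDiff_const.smul hv, ?_, ?_⟩
    · refine (hv2.const_mul (c ^ 2)).congr (Filter.Eventually.of_forall fun t => ?_)
      simp only [Pi.smul_apply, smul_eq_mul]
      ring
    · have hd : ∀ t, deriv (c • v) t = c * deriv v t := fun t => by
        rw [deriv_const_smul c (hv.differentiable (by norm_num) t), smul_eq_mul]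
      refine (hv3.const_mul (c ^ 2)).congr (Filter.Eventually.of_forall fun t => ?_)
      simp only [hd]
      ring

/-- the quadratic form of `-d²/dt² - V + (l + 1/2)²` -/
def qf (V : ℝ → ℝ) (l : ℕ) (v : ℝ → ℝ) : ℝ :=
  (∫ t, deriv v t ^ 2) - (∫ t, V t * v t ^ 2) + ((l : ℝ) + 1 / 2) ^ 2 * ∫ t, v t ^ 2

/-- the same in the variable `r` -/
def AA (W : E → ℝ) (P : MvPolynomial (Fin 3) ℝ) (l : ℕ) (u : E → ℝ) : ℝ :=
  ∫ r in Ioi (0 : ℝ), (r ^ 2 * ckd P u r ^ 2 + (l : ℝ) * ((l : ℝ) + 1) * ck P u r ^ 2 -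
    W (r • e0) * r ^ 2 * ck P u r ^ 2)

end

end Pool.Agent.H379R3.RC
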