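import Pool.Agent.H379R3.RC.Defs

/-! L1: the integral of the Talenti function. -/

set_option autoImplicit false

open MeasureTheory Set Metric Real MvPolynomial
open Pool.Helper490.SH

namespace Pool.Agent.H379R3.RC

noncomputable section

private theorem L1_pow (r : ℝ) :
    (3 / (1 + r ^ 2) ^ 2 : ℝ) ^ (3 / 2 : ℝ) = 3 * √3 / (1 + r ^ 2) ^ 3 := by
  have h1 : 0 < 1 + r ^ 2 := by positivity
  rw [Real.rpow_div_two_eq_sqrt _ (by positivity), Real.sqrt_div (by norm_num),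
    Real.sqrt_sq h1.le]
  have h3 : ((3 : ℝ)) = ((3 : ℕ) : ℝ) := by norm_num
  rw [show (√3 / (1 + r ^ 2)) ^ (3 : ℝ) = (√3 / (1 + r ^ 2)) ^ 3 by
    rw [← Real.rpow_natCast]; norm_num]
  rw [div_pow]
  congr 1
  have h4 : √3 ^ 2 = 3 := Real.sq_sqrt (by norm_num)
  calc √3 ^ 3 = √3 ^ 2 * √3 := by ring
    _ = 3 * √3 := by rw [h4]

private def L1_F (r : ℝ) : ℝ := (1 / 8) * (arctan r + (r ^ 3 - r) / (1 + r ^ 2) ^ 2)

private theorem L1_deriv (r : ℝ) : HasDerivAt L1_F (r ^ 2 / (1 + r ^ 2) ^ 3) r := by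
  have h1 : (1 + r ^ 2) ≠ 0 := by positivity
  have e1 : HasDerivAt (fun r : ℝ => r ^ 3 - r) (3 * r ^ 2 - 1) r := by
    have := (hasDerivAt_pow 3 r).fun_sub (hasDerivAt_id' r)
    simpa using this
  have e2 : HasDerivAt (fun r : ℝ => (1 + r ^ 2) ^ 2) (2 * (1 + r ^ 2) * (2 * r)) r := by
    have h := ((hasDerivAt_pow 2 r).const_add 1).fun_pow 2
    refine h.congr_deriv ?_
    simp
  have e3 := ((Real.hasDerivAt_arctan r).fun_add (e1.fun_div e2 (by positivity))).const_mul (1 / 8)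
  refine e3.congr_deriv ?_
  field_simp
  ring

private theorem L1_lim : Filter.Tendsto L1_F Filter.atTop (nhds (π / 16)) := by
  have h1 : Filter.Tendsto arctan Filter.atTop (nhds (π / 2)) :=
    (Real.tendsto_arctan_atTop).mono_right nhdsWithin_le_nhds
  have h2 : Filter.Tendsto (fun r : ℝ => (r ^ 3 - r) / (1 + r ^ 2) ^ 2) Filter.atTop (nhds 0) := by
    have h3 : Filter.Tendsto (fun r : ℝ => 1 / r) Filter.atTop (nhds 0) := by
      simpa using tendsto_inv_atTop_zero (𝕜 := ℝ)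
    refine squeeze_zero_norm' ?_ h3
    filter_upwards [Filter.eventually_gt_atTop (0 : ℝ)] with r hr
    rw [Real.norm_eq_abs, abs_div, abs_of_pos (show 0 < (1 + r ^ 2) ^ 2 by positivity),
      div_le_div_iff₀ (by positivity) hr, one_mul]
    have h4 : |r ^ 3 - r| ≤ r ^ 3 + r := by
      rw [abs_le]
      constructor <;> nlinarith [pow_pos hr 3]
    have h5 : |r ^ 3 - r| * r ≤ (r ^ 3 + r) * r := mul_le_mul_of_nonneg_right h4 hr.le
    nlinarith [sq_nonneg r, sq_nonneg (r ^ 2)]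
  have h3 := (h1.add h2).const_mul (1 / 8)
  have e : (1 / 8 : ℝ) * (π / 2 + 0) = π / 16 := by ring
  rw [e] at h3
  exact h3

private theorem L1_integrableOn :
    IntegrableOn (fun r : ℝ => r ^ 2 / (1 + r ^ 2) ^ 3) (Ioi 0) :=
  integrableOn_Ioi_deriv_of_nonneg' (g := L1_F) (fun r _ => L1_deriv r)
    (fun r _ => by positivity) L1_lim

private theorem L1_integral :
    ∫ r in Ioi (0 : ℝ), r ^ 2 / (1 + r ^ 2) ^ 3 = π / 16 := by
  rw [integral_Ioi_of_hasDerivAt_of_nonneg' (g := L1_F) (fun r _ => L1_deriv r)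
    (fun r _ => by positivity) L1_lim]
  simp [L1_F]

/-- L1: the integral of the Talenti function -/
theorem L1_int : Integrable (fun x : E => (3 / (1 + ‖x‖ ^ 2) ^ 2 : ℝ) ^ (3 / 2 : ℝ)) ∧
    ∫ x : E, (3 / (1 + ‖x‖ ^ 2) ^ 2 : ℝ) ^ (3 / 2 : ℝ) = 3 * √3 * π ^ 2 / 4 := by
  have hdim : Module.finrank ℝ E = 3 := by simp [E]
  have hfun : (fun x : E => (3 / (1 + ‖x‖ ^ 2) ^ 2 : ℝ) ^ (3 / 2 : ℝ)) =
      fun x : E => (fun r : ℝ => 3 * √3 / (1 + r ^ 2) ^ 3) ‖x‖ := by
    funext x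
    exact L1_pow ‖x‖
  have hcomp : (fun y : ℝ => y ^ (Module.finrank ℝ E - 1) • (3 * √3 / (1 + y ^ 2) ^ 3)) =
      fun y => (3 * √3) * (y ^ 2 / (1 + y ^ 2) ^ 3) := by
    funext y
    rw [hdim, smul_eq_mul]
    ring
  constructor
  · rw [hfun]
    rw [integrable_fun_norm_addHaar (volume : Measure E)
      (f := fun r : ℝ => 3 * √3 / (1 + r ^ 2) ^ 3)]
    rw [hcomp]
    exact L1_integrableOn.const_mul _
  · have h1 := integral_fun_norm_addHaar (volume : Measure E)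
      (fun r : ℝ => 3 * √3 / (1 + r ^ 2) ^ 3)
    have hvol : (volume : Measure E).real (ball 0 1) = π * 4 / 3 := by
      rw [measureReal_def, EuclideanSpace.volume_ball_fin_three]
      rw [ENNReal.toReal_mul, ENNReal.toReal_ofReal (by positivity)]
      simp
    rw [hfun, h1, hvol, hcomp, integral_const_mul, L1_integral, hdim, nsmul_eq_mul, smul_eq_mul]
    push_cast
    ring

end

end Pool.Agent.H379R3.RC
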