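import Pool.Agent.H379R3.RC.Defs

/-! # L2: the energy of a truncated Talenti function -/

set_option autoImplicit false

open MeasureTheory Set Metric Real MvPolynomial
open Pool.Helper490.SH

namespace Pool.Agent.H379R3.RC

noncomputable section

/-- norm of a functional -/
theorem L2_norm (L : E →L[ℝ] ℝ) :
    ‖L‖ ^ 2 = ∑ i : Fin 3, (L (EuclideanSpace.single i 1)) ^ 2 := by
  have h1 : ‖L‖ = ‖(InnerProductSpace.toDual ℝ E).symm L‖ := by
    rw [LinearIsometryEquiv.norm_map]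
  rw [h1, EuclideanSpace.norm_sq_eq]
  refine Finset.sum_congr rfl fun i _ => ?_
  rw [Real.norm_eq_abs, sq_abs]
  congr 1
  have h2 : inner ℝ ((InnerProductSpace.toDual ℝ E).symm L) (EuclideanSpace.single i (1 : ℝ)) =
      L (EuclideanSpace.single i 1) := InnerProductSpace.toDual_symm_apply
  rw [← h2, EuclideanSpace.inner_single_right]
  simp

/-- the integral of a derivative -/
theorem L2_div (h : E → ℝ) (h1 : ContDiff ℝ 1 h) (hc : HasCompactSupport h) (v : E) :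
    ∫ x, fderiv ℝ h x v = 0 := by
  have hi : Integrable (fun x => fderiv ℝ h x v) := by
    refine Continuous.integrable_of_hasCompactSupport
      ((h1.continuous_fderiv (by norm_num)).clm_apply continuous_const) ?_
    exact hc.fderiv_apply (𝕜 := ℝ) (v := v)
  have := integral_mul_fderiv_eq_neg_fderiv_mul_of_integrable (μ := (volume : Measure E))
    (f := fun _ : E => (1 : ℝ)) (g := h) (v := v) (by simp)
    (by simpa using hi)
    (by simpa using h1.continuous.integrable_of_hasCompactSupport hc)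
    (fun x _ => differentiableAt_const _)
    (fun x _ => h1.differentiable (by norm_num) x)
  simpa using this

/-- derivative of `1 + |x|²` -/
theorem L2_rho (x : E) : HasFDerivAt (fun y : E => 1 + ‖y‖ ^ 2) (2 • innerSL ℝ x) x :=
  (hasStrictFDerivAt_norm_sq x).hasFDerivAt.const_add 1

theorem L2_inner (x : E) (i : Fin 3) : innerSL ℝ x (EuclideanSpace.single i (1 : ℝ)) = x i := by
  rw [innerSL_apply_apply, EuclideanSpace.inner_single_right]
  simp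

/-- derivative of the Talenti function -/
theorem L2_phi' (x : E) :
    HasFDerivAt (fun y : E => (√(1 + ‖y‖ ^ 2))⁻¹)
      (-((√(1 + ‖x‖ ^ 2))⁻¹ ^ 3) • innerSL ℝ x) x := by
  have hp : 0 < 1 + ‖x‖ ^ 2 := by positivity
  have hs : √(1 + ‖x‖ ^ 2) ≠ 0 := (Real.sqrt_pos.2 hp).ne'
  have h1 := (hasDerivAt_inv hs).comp_hasFDerivAt x ((L2_rho x).sqrt hp.ne')
  refine h1.congr_fderiv ?_
  ext v
  simp only [smul_apply, smul_eq_mul, nsmul_eq_mul]
  push_cast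
  field_simp

theorem L2_phi (x : E) (i : Fin 3) :
    fderiv ℝ (fun y : E => (√(1 + ‖y‖ ^ 2))⁻¹) x (EuclideanSpace.single i 1) =
      -(x i * ((√(1 + ‖x‖ ^ 2))⁻¹) ^ 3) := by
  rw [(L2_phi' x).fderiv, smul_apply, L2_inner, smul_eq_mul]
  ring

/-- partial derivatives of the truncated Talenti function -/
theorem L2_prod (χ : E → ℝ) (hχ : Cc χ) (x : E) (i : Fin 3) :
    fderiv ℝ (fun y : E => χ y * (√(1 + ‖y‖ ^ 2))⁻¹) x (EuclideanSpace.single i 1) =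
      fderiv ℝ χ x (EuclideanSpace.single i 1) * (√(1 + ‖x‖ ^ 2))⁻¹ -
        χ x * (x i * ((√(1 + ‖x‖ ^ 2))⁻¹) ^ 3) := by
  have h1 : HasFDerivAt χ (fderiv ℝ χ x) x := (hχ.1.differentiable (by simp) x).hasFDerivAt
  have h2 : fderiv ℝ (fun y : E => χ y * (√(1 + ‖y‖ ^ 2))⁻¹) x = _ := (h1.mul (L2_phi' x)).fderiv
  rw [h2]
  simp only [add_apply, smul_apply, L2_inner, smul_eq_mul]
  ring

/-- the vector field -/
def L2_G (χ : E → ℝ) (i : Fin 3) (y : E) : ℝ := χ y ^ 2 * (y i * ((1 + ‖y‖ ^ 2)⁻¹) ^ 2)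

theorem L2_coord (i : Fin 3) (x : E) :
    HasFDerivAt (fun y : E => y i) (EuclideanSpace.proj i : E →L[ℝ] ℝ) x :=
  (EuclideanSpace.proj i : E →L[ℝ] ℝ).hasFDerivAt

theorem L2_G' (χ : E → ℝ) (hχ : Cc χ) (x : E) (i : Fin 3) :
    fderiv ℝ (L2_G χ i) x (EuclideanSpace.single i 1) =
      2 * χ x * fderiv ℝ χ x (EuclideanSpace.single i 1) * x i * ((1 + ‖x‖ ^ 2)⁻¹) ^ 2 +
        χ x ^ 2 * ((1 + ‖x‖ ^ 2)⁻¹) ^ 2 - 4 * χ x ^ 2 * x i ^ 2 * ((1 + ‖x‖ ^ 2)⁻¹) ^ 3 := by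
  have hp : 1 + ‖x‖ ^ 2 ≠ 0 := by positivity
  have h1 : HasFDerivAt χ (fderiv ℝ χ x) x := (hχ.1.differentiable (by simp) x).hasFDerivAt
  have h2 := (hasDerivAt_inv hp).comp_hasFDerivAt x (L2_rho x)
  have h3 := (h1.pow 2).mul ((L2_coord i x).mul (h2.pow 2))
  have h4 : fderiv ℝ (L2_G χ i) x = _ := h3.fderiv
  rw [h4]
  simp only [add_apply, smul_apply, L2_inner, smul_eq_mul,
    nsmul_eq_mul, Function.comp, Pi.mul_apply]
  have h5 : (EuclideanSpace.proj i : E →L[ℝ] ℝ) (EuclideanSpace.single i (1 : ℝ)) = 1 := by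
    simp
  rw [h5]
  push_cast
  field_simp
  ring

theorem L2_smooth (χ : E → ℝ) (hχ : Cc χ) (i : Fin 3) : ContDiff ℝ 1 (L2_G χ i) := by
  have h1 : ContDiff ℝ 1 χ := hχ.1.of_le (by exact_mod_cast le_top)
  have h2 : ContDiff ℝ 1 (fun y : E => (1 + ‖y‖ ^ 2)⁻¹) := by
    refine ContDiff.inv (contDiff_const.add (contDiff_norm_sq ℝ)) fun y => ?_
    positivity
  have h3 : ContDiff ℝ 1 (fun y : E => y i) :=
    (EuclideanSpace.proj i : E →L[ℝ] ℝ).contDiff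
  exact (h1.pow 2).mul (h3.mul (h2.pow 2))

theorem L2_supp (χ : E → ℝ) (hχ : Cc χ) (i : Fin 3) : HasCompactSupport (L2_G χ i) := by
  refine hχ.2.mono fun x hx => ?_
  simp only [Function.mem_support, L2_G] at hx ⊢
  intro h
  apply hx
  rw [h]
  ring

/-- pointwise identity -/
theorem L2_point (χ : E → ℝ) (hχ : Cc χ) (x : E) :
    ‖fderiv ℝ (fun y : E => χ y * (√(1 + ‖y‖ ^ 2))⁻¹) x‖ ^ 2 =
      ‖fderiv ℝ χ x‖ ^ 2 * (1 + ‖x‖ ^ 2)⁻¹ +
        3 / (1 + ‖x‖ ^ 2) ^ 2 * (χ x * (√(1 + ‖x‖ ^ 2))⁻¹) ^ 2 -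
        ∑ i : Fin 3, fderiv ℝ (L2_G χ i) x (EuclideanSpace.single i 1) := by
  have hp : 0 < 1 + ‖x‖ ^ 2 := by positivity
  have hs2 : (√(1 + ‖x‖ ^ 2))⁻¹ ^ 2 = (1 + ‖x‖ ^ 2)⁻¹ := by
    rw [inv_pow, Real.sq_sqrt hp.le]
  have hn : ‖x‖ ^ 2 = x 0 ^ 2 + x 1 ^ 2 + x 2 ^ 2 := by
    rw [EuclideanSpace.norm_sq_eq, Fin.sum_univ_three]
    simp only [Real.norm_eq_abs, sq_abs]
  rw [L2_norm, L2_norm]
  simp only [L2_prod χ hχ, L2_G' χ hχ, Fin.sum_univ_three]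
  set s : ℝ := (√(1 + ‖x‖ ^ 2))⁻¹ with hsdef
  set p0 := fderiv ℝ χ x (EuclideanSpace.single 0 1)
  set p1 := fderiv ℝ χ x (EuclideanSpace.single 1 1)
  set p2 := fderiv ℝ χ x (EuclideanSpace.single 2 1)
  set q : ℝ := (1 + ‖x‖ ^ 2)⁻¹ with hq
  have hd : 3 / (1 + ‖x‖ ^ 2) ^ 2 = 3 * q ^ 2 := by
    rw [hq, inv_pow, div_eq_mul_inv]
  have hq1 : q * (1 + (x 0 ^ 2 + x 1 ^ 2 + x 2 ^ 2)) = 1 := by
    rw [hq, ← hn]
    exact inv_mul_cancel₀ hp.ne'
  rw [hd]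
  have h4 : s ^ 4 = q ^ 2 := by rw [← hs2]; ring
  have h6 : s ^ 6 = q ^ 3 := by rw [← hs2]; ring
  have e1 : (p0 * s - χ x * (x 0 * s ^ 3)) ^ 2 + (p1 * s - χ x * (x 1 * s ^ 3)) ^ 2 +
      (p2 * s - χ x * (x 2 * s ^ 3)) ^ 2 =
      (p0 ^ 2 + p1 ^ 2 + p2 ^ 2) * s ^ 2 - 2 * χ x * (p0 * x 0 + p1 * x 1 + p2 * x 2) * s ^ 4 +
        χ x ^ 2 * (x 0 ^ 2 + x 1 ^ 2 + x 2 ^ 2) * s ^ 6 := by ring
  rw [e1, h4, h6, mul_pow, hs2]
  linear_combination (-3 * χ x ^ 2 * q ^ 2) * hq1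

/-- L2: the energy of a truncated Talenti function -/
theorem L2_ims (χ : E → ℝ) (hχ : Cc χ) :
    ∫ x, ‖fderiv ℝ (fun y : E => χ y * (√(1 + ‖y‖ ^ 2))⁻¹) x‖ ^ 2 =
      (∫ x, ‖fderiv ℝ χ x‖ ^ 2 * (1 + ‖x‖ ^ 2)⁻¹) +
        ∫ x, 3 / (1 + ‖x‖ ^ 2) ^ 2 * (χ x * (√(1 + ‖x‖ ^ 2))⁻¹) ^ 2 := by
  have hcf : Continuous (fderiv ℝ χ) := hχ.1.continuous_fderiv (by simp)
  have hρ : Continuous (fun x : E => (1 + ‖x‖ ^ 2)⁻¹) := by
    refine Continuous.inv₀ (by fun_prop) fun x => by positivity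
  have hφ : Continuous (fun x : E => (√(1 + ‖x‖ ^ 2))⁻¹) := by
    refine Continuous.inv₀ (by fun_prop) fun x => ?_
    have hp : 0 < 1 + ‖x‖ ^ 2 := by positivity
    exact (Real.sqrt_pos.2 hp).ne'
  have i1 : Integrable (fun x : E => ‖fderiv ℝ χ x‖ ^ 2 * (1 + ‖x‖ ^ 2)⁻¹) := by
    refine Continuous.integrable_of_hasCompactSupport ((hcf.norm.pow 2).mul hρ) ?_
    refine (hχ.2.fderiv (𝕜 := ℝ)).mono fun x hx => ?_
    simp only [Function.mem_support] at hx ⊢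
    intro h
    apply hx
    rw [h]
    simp
  have i2 : Integrable (fun x : E => 3 / (1 + ‖x‖ ^ 2) ^ 2 * (χ x * (√(1 + ‖x‖ ^ 2))⁻¹) ^ 2) := by
    refine Continuous.integrable_of_hasCompactSupport ?_ ?_
    · have h3 : Continuous (fun x : E => 3 / (1 + ‖x‖ ^ 2) ^ 2) := by
        refine Continuous.div continuous_const (by fun_prop) fun x => by positivity
      exact h3.mul ((hχ.1.continuous.mul hφ).pow 2)
    · refine hχ.2.mono fun x hx => ?_
      simp only [Function.mem_support] at hx ⊢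
      intro h
      apply hx
      rw [h]
      ring
  have i3 : ∀ i : Fin 3, Integrable
      (fun x : E => fderiv ℝ (L2_G χ i) x (EuclideanSpace.single i 1)) := fun i => by
    refine Continuous.integrable_of_hasCompactSupport
      (((L2_smooth χ hχ i).continuous_fderiv (by norm_num)).clm_apply continuous_const) ?_
    exact (L2_supp χ hχ i).fderiv_apply (𝕜 := ℝ) _
  have i4 : Integrable (fun x : E =>
      ∑ i : Fin 3, fderiv ℝ (L2_G χ i) x (EuclideanSpace.single i 1)) :=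
    integrable_finsetSum _ fun i _ => i3 i
  have e4 : ∫ x : E, ∑ i : Fin 3, fderiv ℝ (L2_G χ i) x (EuclideanSpace.single i 1) = 0 := by
    rw [integral_finsetSum _ fun i _ => i3 i]
    exact Finset.sum_eq_zero fun i _ => L2_div _ (L2_smooth χ hχ i) (L2_supp χ hχ i) _
  rw [integral_congr_ae (Filter.Eventually.of_forall fun x => L2_point χ hχ x)]
  have e5 := integral_sub (i1.add i2) i4
  have e6 := integral_add i1 i2
  simp only [Pi.add_apply] at e5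
  rw [e5, e4, sub_zero]
  exact e6

end

end Pool.Agent.H379R3.RC
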