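import Pool.Agent.H379R3.RC.Defs

/-! L3: cutoff functions. -/

set_option autoImplicit false

open MeasureTheory Set Metric Real MvPolynomial
open Pool.Helper490.SH

namespace Pool.Agent.H379R3.RC

noncomputable section

/-- the basic bump -/
def L3_b : ContDiffBump (0 : E) := ⟨1, 2, one_pos, one_lt_two⟩

lemma L3_cd : ContDiff ℝ (⊤ : ℕ∞) (fun x : E => L3_b x) := L3_b.contDiff

lemma L3_fd_zero (y : E) (hy : ‖y‖ < 1) : fderiv ℝ (fun x : E => L3_b x) y = 0 := by
  have h1 : y ∈ ball (0 : E) L3_b.rIn := by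
    rw [mem_ball_zero_iff]; exact hy
  have h2 := L3_b.eventuallyEq_one_of_mem_ball h1
  have h3 : (fun x : E => L3_b x) =ᶠ[nhds y] fun _ => (1 : ℝ) := h2
  rw [h3.fderiv_eq, fderiv_fun_const]
  rfl

lemma L3_int : Integrable (fun y : E => ‖fderiv ℝ (fun x : E => L3_b x) y‖ ^ 2) := by
  have h1 : Continuous (fun y : E => fderiv ℝ (fun x : E => L3_b x) y) :=
    L3_cd.continuous_fderiv (by simp)
  have h2 : HasCompactSupport (fun y : E => fderiv ℝ (fun x : E => L3_b x) y) :=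
    L3_b.hasCompactSupport.fderiv ℝ
  have h3 : HasCompactSupport (fun y : E => ‖fderiv ℝ (fun x : E => L3_b x) y‖ ^ 2) := by
    refine h2.comp_left (g := fun L => ‖L‖ ^ 2) ?_
    simp
  exact (h1.norm.pow 2).integrable_of_hasCompactSupport h3

/-- L3: cutoff functions -/
theorem L3_cut (δ : ℝ) (hδ : 0 < δ) : ∃ χ : E → ℝ, Cc χ ∧ (∀ x, ‖x‖ ≤ 1 → χ x = 1) ∧
    ∫ x, ‖fderiv ℝ χ x‖ ^ 2 * (1 + ‖x‖ ^ 2)⁻¹ < δ := by
  set G : E → ℝ := fun y => ‖fderiv ℝ (fun x : E => L3_b x) y‖ ^ 2 with hG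
  set C : ℝ := ∫ y, G y with hC
  have hC0 : 0 ≤ C := integral_nonneg fun y => by positivity
  set R : ℝ := 1 + C / δ with hR
  have hR1 : 1 ≤ R := by rw [hR]; linarith [div_nonneg hC0 hδ.le]
  have hR0 : 0 < R := by linarith
  set χ : E → ℝ := fun x => L3_b (R⁻¹ • x) with hχ
  have hfd : ∀ x, fderiv ℝ χ x = R⁻¹ • fderiv ℝ (fun x : E => L3_b x) (R⁻¹ • x) := by
    intro x
    have h1 : χ = fun x => (fun x : E => L3_b x) (R⁻¹ • x) := rfl
    rw [h1, fderiv_comp_smul]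
  refine ⟨χ, ⟨?_, ?_⟩, ?_, ?_⟩
  · exact L3_cd.comp (contDiff_const_smul R⁻¹)
  · exact L3_b.hasCompactSupport.comp_smul (inv_ne_zero hR0.ne')
  · intro x hx
    apply L3_b.one_of_mem_closedBall
    rw [mem_closedBall_zero_iff, norm_smul, norm_inv, Real.norm_eq_abs, abs_of_pos hR0]
    show R⁻¹ * ‖x‖ ≤ 1
    calc R⁻¹ * ‖x‖ ≤ 1 * 1 := by
          gcongr
          exact inv_le_one_of_one_le₀ hR1
      _ = 1 := by norm_num
  · set F : E → ℝ := fun x => ‖fderiv ℝ χ x‖ ^ 2 * (1 + ‖x‖ ^ 2)⁻¹ with hF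
    have h1 : ∫ y : E, F (R • y) = |(R ^ Module.finrank ℝ E)⁻¹| • ∫ x, F x :=
      Measure.integral_comp_smul volume F R
    have hfr : Module.finrank ℝ E = 3 := by
      show Module.finrank ℝ (EuclideanSpace ℝ (Fin 3)) = 3
      rw [finrank_euclideanSpace_fin]
    rw [hfr, abs_of_pos (by positivity), smul_eq_mul] at h1
    have h2 : ∫ x, F x = R ^ 3 * ∫ y : E, F (R • y) := by
      rw [h1, ← mul_assoc, mul_inv_cancel₀ (by positivity), one_mul]
    have h3 : ∀ y : E, F (R • y) ≤ (R⁻¹) ^ 4 * G y := by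
      intro y
      have h4 : F (R • y) = (R⁻¹) ^ 2 * G y * (1 + R ^ 2 * ‖y‖ ^ 2)⁻¹ := by
        simp only [hF, hG]
        rw [hfd, smul_smul, inv_mul_cancel₀ hR0.ne', one_smul, norm_smul, norm_smul,
          Real.norm_eq_abs, Real.norm_eq_abs, abs_of_pos hR0, abs_of_pos (inv_pos.2 hR0),
          mul_pow, mul_pow]
      rw [h4]
      by_cases hy : ‖y‖ < 1
      · have h5 : G y = 0 := by
          simp only [hG]
          rw [L3_fd_zero y hy]
          simp
        rw [h5]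
        simp
      · have h5 : 1 ≤ ‖y‖ := not_lt.1 hy
        have h6 : (1 + R ^ 2 * ‖y‖ ^ 2)⁻¹ ≤ (R⁻¹) ^ 2 := by
          rw [inv_pow]
          apply inv_anti₀ (by positivity)
          nlinarith [sq_nonneg R, mul_le_mul_of_nonneg_left (one_le_pow₀ h5 : 1 ≤ ‖y‖ ^ 2)
            (sq_nonneg R)]
        have h7 : 0 ≤ G y := by simp only [hG]; positivity
        calc (R⁻¹) ^ 2 * G y * (1 + R ^ 2 * ‖y‖ ^ 2)⁻¹ ≤ (R⁻¹) ^ 2 * G y * (R⁻¹) ^ 2 := by
              gcongr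
          _ = (R⁻¹) ^ 4 * G y := by ring
    have h4 : ∫ y : E, F (R • y) ≤ (R⁻¹) ^ 4 * C := by
      rw [hC, ← integral_const_mul]
      apply integral_mono_of_nonneg
      · exact Filter.Eventually.of_forall fun y => by
          simp only [hF, Pi.zero_apply]
          positivity
      · exact L3_int.const_mul _
      · exact Filter.Eventually.of_forall h3
    rw [h2]
    have h5 : R ^ 3 * ((R⁻¹) ^ 4 * C) = C / R := by
      field_simp
    have h6 : C / R < δ := by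
      rw [div_lt_iff₀ hR0, hR]
      have : δ * (1 + C / δ) = δ + C := by field_simp
      rw [this]
      linarith
    calc R ^ 3 * ∫ y : E, F (R • y) ≤ R ^ 3 * ((R⁻¹) ^ 4 * C) := by gcongr
      _ = C / R := h5
      _ < δ := h6

end

end Pool.Agent.H379R3.RC
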