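import Pool.Agent.H379R3.RC.Defs
import Pool.Agent.H379R3.RC.L1
import Pool.Agent.H379R3.RC.L2
import Pool.Agent.H379R3.RC.L3

/-!
# L4 (helper51): sharpness of the constant
-/

set_option autoImplicit false

open MeasureTheory Set Metric Real MvPolynomial
open Pool.Helper490.SH

namespace Pool.Agent.H379R3.RC

noncomputable section

theorem L4_cont : ContDiff ℝ (⊤ : ℕ∞) (fun x : E => (√(1 + ‖x‖ ^ 2))⁻¹) := by
  refine ContDiff.inv (ContDiff.sqrt (contDiff_const.add (contDiff_norm_sq ℝ)) ?_) ?_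
  · intro x; positivity
  · intro x; positivity

theorem L4_Cc {χ : E → ℝ} (hχ : Cc χ) : Cc (fun x : E => χ x * (√(1 + ‖x‖ ^ 2))⁻¹) :=
  ⟨hχ.1.mul L4_cont, hχ.2.mul_right⟩

theorem L4_low {χ : E → ℝ} (hχ : Cc χ) (h1 : ∀ x, ‖x‖ ≤ 1 → χ x = 1) :
    3 / 8 * volume.real (closedBall (0 : E) 1) ≤
      ∫ x, 3 / (1 + ‖x‖ ^ 2) ^ 2 * (χ x * (√(1 + ‖x‖ ^ 2))⁻¹) ^ 2 := by
  have hu := L4_Cc hχ
  have hcont : Continuous (fun x : E => 3 / (1 + ‖x‖ ^ 2) ^ 2 * (χ x * (√(1 + ‖x‖ ^ 2))⁻¹) ^ 2) := by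
    refine Continuous.mul (continuous_const.div (by fun_prop) fun x => by positivity)
      (hu.1.continuous.pow 2)
  have hsupp : HasCompactSupport
      (fun x : E => 3 / (1 + ‖x‖ ^ 2) ^ 2 * (χ x * (√(1 + ‖x‖ ^ 2))⁻¹) ^ 2) := by
    have h2 : HasCompactSupport (fun x : E => (χ x * (√(1 + ‖x‖ ^ 2))⁻¹) ^ 2) := by
      have h3 : HasCompactSupport (fun x : E => (χ x * (√(1 + ‖x‖ ^ 2))⁻¹) *
        (χ x * (√(1 + ‖x‖ ^ 2))⁻¹)) := hu.2.mul_left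
      have h4 : (fun x : E => (χ x * (√(1 + ‖x‖ ^ 2))⁻¹) ^ 2) =
          fun x : E => (χ x * (√(1 + ‖x‖ ^ 2))⁻¹) * (χ x * (√(1 + ‖x‖ ^ 2))⁻¹) := by
        funext x; ring
      rw [h4]; exact h3
    exact h2.mul_left
  have hint := hcont.integrable_of_hasCompactSupport hsupp (μ := volume)
  have h3 := setIntegral_ge_of_const_le (μ := volume) (s := closedBall (0 : E) 1)
    (c := 3 / 8) (f := fun x : E => 3 / (1 + ‖x‖ ^ 2) ^ 2 * (χ x * (√(1 + ‖x‖ ^ 2))⁻¹) ^ 2)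
    measurableSet_closedBall measure_closedBall_lt_top.ne ?_ hint.integrableOn
  · rw [smul_eq_mul, mul_comm] at h3
    refine h3.trans (setIntegral_le_integral hint ?_)
    filter_upwards with x
    positivity
  · intro x hx
    rw [mem_closedBall_zero_iff] at hx
    rw [h1 x hx, one_mul, inv_pow, Real.sq_sqrt (by positivity)]
    have h4 : ‖x‖ ^ 2 ≤ 1 := pow_le_one₀ (norm_nonneg x) hx
    have h5 : 0 ≤ ‖x‖ ^ 2 := by positivity
    have h6 : 3 / (1 + ‖x‖ ^ 2) ^ 2 * (1 + ‖x‖ ^ 2)⁻¹ = 3 / (1 + ‖x‖ ^ 2) ^ 3 := by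
      field_simp
    rw [h6, div_le_div_iff₀ (by norm_num) (by positivity)]
    have h7 : (1 + ‖x‖ ^ 2) ^ 3 ≤ (2 : ℝ) ^ 3 := pow_le_pow_left₀ (by positivity) (by linarith) 3
    linarith

/-- L4: sharpness (uses L1, L2, L3) -/
theorem L4_sharp (c : ℝ) (hc : c < 4 / (3 * √3 * π ^ 2)) :
    ∃ (W : E → ℝ) (u : E → ℝ), Measurable W ∧ (∀ x, 0 ≤ W x) ∧ Rad W ∧
      Integrable (fun x => W x ^ (3 / 2 : ℝ)) ∧ 0 < ∫ x, W x ^ (3 / 2 : ℝ) ∧ Cc u ∧ u ≠ 0 ∧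
      ∫ x, ‖fderiv ℝ u x‖ ^ 2 < ∫ x, W x * u x ^ 2 ∧ c < 1 / ∫ x, W x ^ (3 / 2 : ℝ) := by
  -- choice of `η`
  obtain ⟨η, hη0, hη⟩ : ∃ η : ℝ, 0 < η ∧
      c < 1 / ((1 + η) ^ (3 / 2 : ℝ) * (3 * √3 * π ^ 2 / 4)) := by
    have hcont : ContinuousAt
        (fun η : ℝ => 1 / ((1 + η) ^ (3 / 2 : ℝ) * (3 * √3 * π ^ 2 / 4))) 0 := by
      refine ContinuousAt.div continuousAt_const (ContinuousAt.mul ?_ continuousAt_const) ?_
      · exact ContinuousAt.rpow_const (by fun_prop) (Or.inr (by norm_num))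
      · rw [add_zero, Real.one_rpow]
        positivity
    have h0 : c < (fun η : ℝ => 1 / ((1 + η) ^ (3 / 2 : ℝ) * (3 * √3 * π ^ 2 / 4))) 0 := by
      simp only [add_zero, Real.one_rpow, one_mul]
      rw [one_div_div]
      exact hc
    have h1 := (hcont.eventually (lt_mem_nhds h0)).filter_mono
      (nhdsWithin_le_nhds (s := Ioi (0 : ℝ)))
    obtain ⟨η, hη, hη0⟩ := (h1.and self_mem_nhdsWithin).exists
    exact ⟨η, hη0, hη⟩
  have hvol : 0 < volume.real (closedBall (0 : E) 1) :=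
    ENNReal.toReal_pos (measure_closedBall_pos _ _ one_pos).ne' measure_closedBall_lt_top.ne
  obtain ⟨χ, hχ, h1, h2⟩ := L3_cut (η * (3 / 8 * volume.real (closedBall (0 : E) 1)))
    (by positivity)
  have hlow := L4_low hχ h1
  have hims := L2_ims χ hχ
  have hpow : ∀ x : E, ((1 + η) * (3 / (1 + ‖x‖ ^ 2) ^ 2)) ^ (3 / 2 : ℝ) =
      (1 + η) ^ (3 / 2 : ℝ) * (3 / (1 + ‖x‖ ^ 2) ^ 2 : ℝ) ^ (3 / 2 : ℝ) := fun x =>
    Real.mul_rpow (by positivity) (by positivity)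
  have hI : ∫ x : E, ((1 + η) * (3 / (1 + ‖x‖ ^ 2) ^ 2)) ^ (3 / 2 : ℝ) =
      (1 + η) ^ (3 / 2 : ℝ) * (3 * √3 * π ^ 2 / 4) := by
    simp only [hpow]
    rw [integral_const_mul, L1_int.2]
  refine ⟨fun x => (1 + η) * (3 / (1 + ‖x‖ ^ 2) ^ 2), fun x => χ x * (√(1 + ‖x‖ ^ 2))⁻¹,
    by fun_prop, fun x => by positivity, ?_, ?_, ?_, L4_Cc hχ, ?_, ?_, ?_⟩
  · intro x y hxy
    simp only [hxy]
  · simp only [hpow]
    exact L1_int.1.const_mul _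
  · rw [hI]; positivity
  · intro h
    have h3 := congrFun h 0
    simp only [norm_zero, Pi.zero_apply] at h3
    rw [h1 0 (by simp)] at h3
    norm_num at h3
  · rw [hims]
    have h3 : ∫ x : E, (1 + η) * (3 / (1 + ‖x‖ ^ 2) ^ 2) * (χ x * (√(1 + ‖x‖ ^ 2))⁻¹) ^ 2 =
        (1 + η) * ∫ x : E, 3 / (1 + ‖x‖ ^ 2) ^ 2 * (χ x * (√(1 + ‖x‖ ^ 2))⁻¹) ^ 2 := by
      rw [← integral_const_mul]
      congr 1
      funext x
      ring
    rw [h3]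
    have h4 := mul_le_mul_of_nonneg_left hlow hη0.le
    linarith
  · rw [hI]; exact hη

end

end Pool.Agent.H379R3.RC
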