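import Pool.Agent.H379R3.RC.Defs

/-! Task L5 (helper329). -/

set_option autoImplicit false

open MeasureTheory Set Metric Real MvPolynomial
open Pool.Helper490.SH

namespace Pool.Agent.H379R3.RC

noncomputable section

private lemma L5_pow (y : ℝ) (hy : 0 < y) : y ^ ((3 : ℝ) / 2) = y * √y := by
  rw [show (3 : ℝ) / 2 = 1 + 1 / 2 by norm_num, Real.rpow_add hy, Real.rpow_one,
    ← Real.sqrt_eq_rpow]

private lemma L5_fac (L : ℕ) : (Nat.factorial (L + 3 - 1) : ℝ) / (Nat.factorial L : ℝ) =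
    ((L : ℝ) + 1) * ((L : ℝ) + 2) := by
  have h1 : L + 3 - 1 = L + 2 := by omega
  have h2 : (Nat.factorial L : ℝ) ≠ 0 := by exact_mod_cast Nat.factorial_ne_zero L
  rw [h1, Nat.factorial_succ, Nat.factorial_succ]
  push_cast
  field_simp
  ring

private lemma L5_le (x : ℝ) (hx : 0 ≤ x) :
    (x + 1) * (x + 2) * (x + 3 / 2) / (((x + 1 / 2) * (x + 3 / 2)) ^ ((3 : ℝ) / 2)) ≤ 8 / √3 := by
  have hy : 0 < (x + 1 / 2) * (x + 3 / 2) := by positivity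
  rw [L5_pow _ hy, div_le_div_iff₀ (by positivity) (by positivity)]
  refine le_of_sq_le_sq ?_ (by positivity)
  have h3 : √(3 : ℝ) ^ 2 = 3 := Real.sq_sqrt (by norm_num)
  have h4 : √((x + 1 / 2) * (x + 3 / 2)) ^ 2 = (x + 1 / 2) * (x + 3 / 2) := Real.sq_sqrt hy.le
  have h7 : ((x + 1) * (x + 2) * (x + 3 / 2) * √3) ^ 2 =
      ((x + 1) * (x + 2) * (x + 3 / 2)) ^ 2 * 3 := by rw [mul_pow, h3]
  have h8 : (8 * ((x + 1 / 2) * (x + 3 / 2) * √((x + 1 / 2) * (x + 3 / 2)))) ^ 2 =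
      8 ^ 2 * (((x + 1 / 2) * (x + 3 / 2)) ^ 2 * ((x + 1 / 2) * (x + 3 / 2))) := by
    rw [mul_pow, mul_pow, h4]
  rw [h7, h8]
  have h5 : 8 ^ 2 * (((x + 1 / 2) * (x + 3 / 2)) ^ 2 * ((x + 1 / 2) * (x + 3 / 2))) -
      ((x + 1) * (x + 2) * (x + 3 / 2)) ^ 2 * 3 = (x + 3 / 2) ^ 2 *
        (61 * x ^ 4 + 174 * x ^ 3 + 153 * x ^ 2 + 44 * x) := by
    ring
  have h6 : 0 ≤ (x + 3 / 2) ^ 2 * (61 * x ^ 4 + 174 * x ^ 3 + 153 * x ^ 2 + 44 * x) := by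
    positivity
  linarith

/-- L5: the values of `a_L` in dimension three -/
theorem L5_aL : IsGreatest (Set.range (fun L : ℕ =>
    ((Nat.factorial (L + 3 - 1) : ℝ) / (Nat.factorial L : ℝ)) * ((L : ℝ) + ((3 : ℕ) : ℝ) / 2) /
      (((L : ℝ) + (((3 : ℕ) : ℝ) - 2) / 2) * ((L : ℝ) + ((3 : ℕ) : ℝ) / 2)) ^ (((3 : ℕ) : ℝ) / 2)))
    (8 / √3) ∧
    (4 * Real.pi) ^ (-((3 : ℕ) : ℝ) / 2) / Real.Gamma (1 + ((3 : ℕ) : ℝ) / 2) * (8 / √3) =
      4 / (3 * √3 * π ^ 2) := by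
  have h33 : √(3 : ℝ) * √3 = 3 := Real.mul_self_sqrt (by norm_num)
  have h30 : 0 < √(3 : ℝ) := Real.sqrt_pos.mpr (by norm_num)
  have hc : ∀ L : ℕ, ((Nat.factorial (L + 3 - 1) : ℝ) / (Nat.factorial L : ℝ)) *
      ((L : ℝ) + ((3 : ℕ) : ℝ) / 2) /
      (((L : ℝ) + (((3 : ℕ) : ℝ) - 2) / 2) * ((L : ℝ) + ((3 : ℕ) : ℝ) / 2)) ^ (((3 : ℕ) : ℝ) / 2) =
      ((L : ℝ) + 1) * ((L : ℝ) + 2) * ((L : ℝ) + 3 / 2) /
        ((((L : ℝ) + 1 / 2) * ((L : ℝ) + 3 / 2)) ^ ((3 : ℝ) / 2)) := by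
    intro L
    rw [L5_fac]
    norm_num
  refine ⟨⟨⟨0, ?_⟩, ?_⟩, ?_⟩
  · simp only [hc]
    rw [Nat.cast_zero, L5_pow _ (by norm_num)]
    have h1 : √(((0 : ℝ) + 1 / 2) * (0 + 3 / 2)) = √3 / 2 := by
      rw [show ((0 : ℝ) + 1 / 2) * (0 + 3 / 2) = 3 / 2 ^ 2 by norm_num,
        Real.sqrt_div (by norm_num), Real.sqrt_sq (by norm_num)]
    rw [h1]
    field_simp
    nlinarith
  · rintro _ ⟨L, rfl⟩
    simp only [hc]
    exact L5_le L (Nat.cast_nonneg L)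
  · have hG : Real.Gamma (1 + ((3 : ℕ) : ℝ) / 2) = 3 / 4 * √π := by
      rw [show (1 : ℝ) + ((3 : ℕ) : ℝ) / 2 = (1 / 2 + 1) + 1 by norm_num,
        Real.Gamma_add_one (by norm_num), Real.Gamma_add_one (by norm_num),
        Real.Gamma_one_half_eq]
      ring
    have hP : (4 * Real.pi) ^ (-((3 : ℕ) : ℝ) / 2) = 1 / (8 * π * √π) := by
      rw [show (-((3 : ℕ) : ℝ) / 2) = -((3 : ℝ) / 2) by norm_num, Real.rpow_neg (by positivity),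
        L5_pow _ (by positivity), Real.sqrt_mul (by norm_num),
        show √(4 : ℝ) = 2 by
          rw [show (4 : ℝ) = 2 ^ 2 by norm_num]; exact Real.sqrt_sq (by norm_num)]
      rw [one_div]
      congr 1
      ring
    rw [hG, hP]
    have hpp : √π * √π = π := Real.mul_self_sqrt Real.pi_pos.le
    have hp0 : 0 < √π := Real.sqrt_pos.mpr Real.pi_pos
    have hpi : 0 < π := Real.pi_pos
    have e : 1 / (8 * π * √π) / (3 / 4 * √π) * (8 / √3) = 4 / (3 * √3 * (π * (√π * √π))) := by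
      field_simp
    rw [e, hpp, sq]

end

end Pool.Agent.H379R3.RC
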