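import Pool.Agent.H379R3.RC.Defs

set_option autoImplicit false

open MeasureTheory Set Metric Real MvPolynomial
open Pool.Helper490.SH

namespace Pool.Agent.H379R3.RC

noncomputable section

/-- P1: polar coordinates -/
theorem P1_polar (f : E → ℝ) (hf : Integrable f) :
    IntegrableOn (fun r : ℝ => r ^ 2 * ∫ w : S2, f (r • (w : E)) ∂sig) (Ioi 0) ∧
    ∫ x, f x = ∫ r in Ioi (0 : ℝ), r ^ 2 * ∫ w : S2, f (r • (w : E)) ∂sig := by
  have hdim : Module.finrank ℝ E - 1 = 2 := by simp
  set F : S2 × Ioi (0 : ℝ) → ℝ := fun p => f ((p.2 : ℝ) • (p.1 : E)) with hF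
  have hcomp : F ∘ (homeomorphUnitSphereProd E) = f ∘ ((↑) : ({(0)}ᶜ : Set E) → E) := by
    funext y
    have hy : ‖(y : E)‖ ≠ 0 := norm_ne_zero_iff.2 y.2
    have h1 : ((homeomorphUnitSphereProd E y).1 : E) = ‖(y : E)‖⁻¹ • (y : E) := by simp
    have h2 : ((homeomorphUnitSphereProd E y).2 : ℝ) = ‖(y : E)‖ := by simp
    simp only [hF, Function.comp_apply, h1, h2, smul_smul, mul_inv_cancel₀ hy, one_smul]
  have hmp := (volume : Measure E).measurePreserving_homeomorphUnitSphereProd
  have hFi : Integrable F ((volume : Measure E).toSphere.prod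
      (.volumeIoiPow (Module.finrank ℝ E - 1))) := by
    rw [← hmp.integrable_comp_emb (Homeomorph.measurableEmbedding _), hcomp,
      ← integrableOn_iff_comap_subtypeVal (measurableSet_singleton _).compl]
    exact hf.integrableOn
  have hw : (Measure.volumeIoiPow (Module.finrank ℝ E - 1)) =
      (Measure.comap ((↑) : Ioi (0 : ℝ) → ℝ) volume).withDensity
        (fun r => ((Real.toNNReal ((r : ℝ) ^ 2) : NNReal) : ENNReal)) := by
    rw [hdim]; rfl
  have hm : Measurable fun r : Ioi (0 : ℝ) => Real.toNNReal ((r : ℝ) ^ 2) :=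
    (measurable_subtype_coe.pow_const _).real_toNNReal
  constructor
  · have h1 := hFi.integral_prod_right
    rw [hw, integrable_withDensity_iff_integrable_smul hm] at h1
    rw [integrableOn_iff_comap_subtypeVal measurableSet_Ioi]
    refine h1.congr (Filter.Eventually.of_forall fun r => ?_)
    simp only [Function.comp_apply, NNReal.smul_def, smul_eq_mul]
    rw [Real.coe_toNNReal _ (sq_nonneg _)]
    rfl
  · calc ∫ x, f x = ∫ y : ({(0)}ᶜ : Set E), f (y : E)
        ∂((volume : Measure E).comap ((↑) : ({(0)}ᶜ : Set E) → E)) := by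
          rw [integral_subtype_comap (measurableSet_singleton _).compl f, restrict_compl_singleton]
      _ = ∫ p, F p ∂((volume : Measure E).toSphere.prod
          (.volumeIoiPow (Module.finrank ℝ E - 1))) := by
          rw [← hmp.integral_comp (Homeomorph.measurableEmbedding _)]
          refine integral_congr_ae (Filter.Eventually.of_forall fun y => ?_)
          exact (congrFun hcomp y).symm
      _ = ∫ r : Ioi (0 : ℝ), (∫ w : S2, f ((r : ℝ) • (w : E)) ∂sig)
          ∂(Measure.volumeIoiPow (Module.finrank ℝ E - 1)) := by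
          rw [integral_prod_symm _ hFi]
          rfl
      _ = _ := by
          rw [hw, integral_withDensity_eq_integral_smul hm,
            integral_subtype_comap measurableSet_Ioi fun r : ℝ => Real.toNNReal (r ^ 2) •
              (∫ w : S2, f (r • (w : E)) ∂sig)]
          refine setIntegral_congr_fun measurableSet_Ioi fun r hr => ?_
          simp only [NNReal.smul_def, smul_eq_mul]
          rw [Real.coe_toNNReal _ (sq_nonneg _)]

/-- P2: total mass -/
theorem P2_mass : sig.real univ = 4 * π := by
  unfold sig
  rw [Measure.toSphere_real_apply_univ, Measure.real, EuclideanSpace.volume_ball_fin_three]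
  simp
  rw [ENNReal.toReal_ofReal (by positivity)]
  ring

end

end Pool.Agent.H379R3.RC
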