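import Pool.Agent.H379R3.RC.P1

/-! # P3: the potential in logarithmic coordinates -/

set_option autoImplicit false

open MeasureTheory Set Metric Real MvPolynomial
open Pool.Helper490.SH

namespace Pool.Agent.H379R3.RC

noncomputable section

/-- exponential substitution -/
theorem P3_exp (F : ℝ → ℝ) :
    (IntegrableOn F (Ioi 0) ↔ Integrable (fun t => exp t * F (exp t))) ∧
    ∫ r in Ioi (0 : ℝ), F r = ∫ t, exp t * F (exp t) := by
  have h1 : exp '' univ = Ioi (0 : ℝ) := by rw [image_univ, Real.range_exp]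
  have h2 : ∀ x ∈ (univ : Set ℝ), HasDerivWithinAt exp (exp x) univ x := fun x _ =>
    (Real.hasDerivAt_exp x).hasDerivWithinAt
  have h3 : InjOn exp (univ : Set ℝ) := Real.exp_injective.injOn
  have h4 := integrableOn_image_iff_integrableOn_abs_deriv_smul MeasurableSet.univ h2 h3 F
  have h5 := integral_image_eq_integral_abs_deriv_smul MeasurableSet.univ h2 h3 F
  simp only [h1, abs_exp, smul_eq_mul, integrableOn_univ, setIntegral_univ] at h4 h5
  exact ⟨h4, h5⟩

theorem P3_e0 : ‖e0‖ = 1 := by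
  rw [e0, EuclideanSpace.norm_single]
  simp

theorem P3_sphere (W : E → ℝ) (hWr : Rad W) (r : ℝ) (w : S2) : W (r • (w : E)) = W (r • e0) := by
  apply hWr
  have hw : ‖(w : E)‖ = 1 := by
    have := w.2
    rwa [mem_sphere_zero_iff_norm] at this
  rw [norm_smul, norm_smul, hw, P3_e0]

theorem P3_int (W : E → ℝ) (hWr : Rad W) (hWi : Integrable (fun x => W x ^ (3 / 2 : ℝ))) :
    IntegrableOn (fun r : ℝ => r ^ 2 * W (r • e0) ^ (3 / 2 : ℝ)) (Ioi 0) ∧
    ∫ r in Ioi (0 : ℝ), r ^ 2 * W (r • e0) ^ (3 / 2 : ℝ) =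
      (1 / (4 * π)) * ∫ x, W x ^ (3 / 2 : ℝ) := by
  have hpi : (0 : ℝ) < 4 * π := by positivity
  obtain ⟨h1, h2⟩ := P1_polar _ hWi
  have h3 : (fun r : ℝ => r ^ 2 * ∫ w : S2, W (r • (w : E)) ^ (3 / 2 : ℝ) ∂sig) =
      fun r : ℝ => (4 * π) * (r ^ 2 * W (r • e0) ^ (3 / 2 : ℝ)) := by
    funext r
    simp only [P3_sphere W hWr r]
    rw [integral_const, P2_mass, smul_eq_mul]
    ring
  rw [h3] at h1
  have h4 : ∫ x, W x ^ (3 / 2 : ℝ) =
      ∫ r in Ioi (0 : ℝ), (4 * π) * (r ^ 2 * W (r • e0) ^ (3 / 2 : ℝ)) := by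
    rw [h2]
    refine integral_congr_ae (Filter.Eventually.of_forall fun r => ?_)
    exact congrFun h3 r
  rw [h4, integral_const_mul]
  constructor
  · have h5 := h1.const_mul (1 / (4 * π))
    refine h5.congr (Filter.Eventually.of_forall fun r => ?_)
    simp only
    field_simp
  · field_simp

theorem P3_pow (W : E → ℝ) (hW0 : ∀ x, 0 ≤ W x) (t : ℝ) :
    VV W t ^ (3 / 2 : ℝ) = exp t * (exp t ^ 2 * W (exp t • e0) ^ (3 / 2 : ℝ)) := by
  rw [VV, Real.mul_rpow (exp_pos _).le (hW0 _), ← Real.exp_mul, ← mul_assoc, ← pow_succ']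
  congr 1
  rw [← Real.exp_nat_mul]
  congr 1
  push_cast
  ring

theorem P3_nonneg (W : E → ℝ) (hW0 : ∀ x, 0 ≤ W x) (t : ℝ) : 0 ≤ VV W t :=
  mul_nonneg (exp_pos _).le (hW0 _)

/-- P3: the potential in logarithmic coordinates (uses P1, P2) -/
theorem P3_VV (W : E → ℝ) (hWm : Measurable W) (hW0 : ∀ x, 0 ≤ W x) (hWr : Rad W)
    (hWi : Integrable (fun x => W x ^ (3 / 2 : ℝ))) :
    MemLp (VV W) (3 / 2) ∧
      ∫ t, (max (VV W t) 0) ^ (3 / 2 : ℝ) = (1 / (4 * π)) * ∫ x, W x ^ (3 / 2 : ℝ) := by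
  obtain ⟨h1, h2⟩ := P3_int W hWr hWi
  obtain ⟨h3, h4⟩ := P3_exp (fun r : ℝ => r ^ 2 * W (r • e0) ^ (3 / 2 : ℝ))
  have hm : Measurable (VV W) := by
    have h5 : Measurable (fun t : ℝ => exp t • e0) := by
      have : Continuous (fun t : ℝ => exp t • e0) := by fun_prop
      exact this.measurable
    have h6 : Measurable (fun t : ℝ => exp (2 * t)) := by fun_prop
    exact h6.mul (hWm.comp h5)
  have hi : Integrable (fun t => VV W t ^ (3 / 2 : ℝ)) := by
    simp only [P3_pow W hW0]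
    exact h3.1 h1
  constructor
  · rw [← integrable_norm_rpow_iff hm.aestronglyMeasurable (p := 3 / 2) (by norm_num)
      (ENNReal.div_ne_top (by simp) (by simp))]
    have h7 : ((3 : ENNReal) / 2).toReal = 3 / 2 := by
      rw [ENNReal.toReal_div]; simp
    rw [h7]
    refine hi.congr (Filter.Eventually.of_forall fun t => ?_)
    simp only [Real.norm_eq_abs]
    rw [abs_of_nonneg (P3_nonneg W hW0 t)]
  · rw [← h2, h4]
    refine integral_congr_ae (Filter.Eventually.of_forall fun t => ?_)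
    simp only
    rw [max_eq_left (P3_nonneg W hW0 t), P3_pow W hW0]

end

end Pool.Agent.H379R3.RC
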