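import Pool.Agent.H379R3.RC.Defs

/-! P4, P5: pointwise identities for the gradient in dimension three. -/

set_option autoImplicit false

open MeasureTheory Set Metric Real MvPolynomial
open Pool.Helper490.SH

namespace Pool.Agent.H379R3.RC

noncomputable section

theorem P4_norm_sq (L : E →L[ℝ] ℝ) :
    ‖L‖ ^ 2 = L (EuclideanSpace.single 0 1) ^ 2 + L (EuclideanSpace.single 1 1) ^ 2 +
      L (EuclideanSpace.single 2 1) ^ 2 := by
  set g : E := (InnerProductSpace.toDual ℝ E).symm L with hg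
  have h1 : ‖L‖ = ‖g‖ := by rw [hg, LinearIsometryEquiv.norm_map]
  have h2 : ∀ i, L (EuclideanSpace.single i 1) = g i := by
    intro i
    rw [← InnerProductSpace.toDual_symm_apply (𝕜 := ℝ) (x := EuclideanSpace.single i 1) (y := L),
      ← hg, EuclideanSpace.inner_single_right]
    simp
  rw [h1, h2, h2, h2, EuclideanSpace.real_norm_sq_eq, Fin.sum_univ_three]

theorem P4_apply (L : E →L[ℝ] ℝ) (w : E) :
    L w = w 0 * L (EuclideanSpace.single 0 1) + w 1 * L (EuclideanSpace.single 1 1) +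
      w 2 * L (EuclideanSpace.single 2 1) := by
  have hw : w = w 0 • EuclideanSpace.single (0 : Fin 3) (1 : ℝ) +
      w 1 • EuclideanSpace.single (1 : Fin 3) (1 : ℝ) +
      w 2 • EuclideanSpace.single (2 : Fin 3) (1 : ℝ) := by
    ext i
    fin_cases i <;> simp
  conv_lhs => rw [hw]
  simp only [map_add, map_smul, smul_eq_mul]

/-- P4: pointwise decomposition of the gradient -/
theorem P4_grad (u : E → ℝ) (hu : ContDiff ℝ (⊤ : ℕ∞) u) (r : ℝ) (w : S2) :
    r ^ 2 * ‖fderiv ℝ u (r • (w : E))‖ ^ 2 =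
      r ^ 2 * (fderiv ℝ u (r • (w : E)) (w : E)) ^ 2 + ang u (r • (w : E)) := by
  have hw : (w : E) 0 ^ 2 + (w : E) 1 ^ 2 + (w : E) 2 ^ 2 = 1 := by
    have h1 : ‖(w : E)‖ = 1 := by
      have := w.2
      simpa using this
    have h2 := EuclideanSpace.real_norm_sq_eq (w : E)
    rw [h1, Fin.sum_univ_three] at h2
    rw [← h2]
    norm_num
  rw [P4_norm_sq, P4_apply (fderiv ℝ u (r • (w : E))) (w : E)]
  unfold ang LF
  simp only [PiLp.smul_apply, smul_eq_mul]
  set a := (w : E) 0
  set b := (w : E) 1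
  set c := (w : E) 2
  set x := fderiv ℝ u (r • (w : E)) (EuclideanSpace.single 0 1)
  set y := fderiv ℝ u (r • (w : E)) (EuclideanSpace.single 1 1)
  set z := fderiv ℝ u (r • (w : E)) (EuclideanSpace.single 2 1)
  linear_combination (-(r ^ 2 * (x ^ 2 + y ^ 2 + z ^ 2))) * hw

/-- P5: rotation derivatives and dilations -/
theorem P5_dil (u : E → ℝ) (hu : ContDiff ℝ (⊤ : ℕ∞) u) (r : ℝ) (x : E) :
    ang (fun y => u (r • y)) x = ang u (r • x) := by
  have h1 : ∀ v : E, fderiv ℝ (fun y => u (r • y)) x v = r * fderiv ℝ u (r • x) v := by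
    intro v
    have h2 : HasFDerivAt (fun y : E => r • y) (r • ContinuousLinearMap.id ℝ E) x :=
      (hasFDerivAt_id x).const_smul r
    have h3 : HasFDerivAt u (fderiv ℝ u (r • x)) (r • x) :=
      (hu.differentiable (by simp) (r • x)).hasFDerivAt
    have h4 := (h3.comp x h2).fderiv
    have h5 : fderiv ℝ (fun y => u (r • y)) x =
        (fderiv ℝ u (r • x)).comp (r • ContinuousLinearMap.id ℝ E) := h4
    rw [h5]
    simp
  unfold ang LF
  simp only [h1, PiLp.smul_apply, smul_eq_mul]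
  ring

end

end Pool.Agent.H379R3.RC
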