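import Pool.Agent.H379R3.RC.Defs

set_option autoImplicit false

open MeasureTheory Set Metric Real MvPolynomial
open Pool.Helper490.SH

namespace Pool.Agent.H379R3.RC

noncomputable section

private theorem R1_norm (w : S2) : ‖(w : E)‖ = 1 := mem_sphere_zero_iff_norm.1 w.2

/-- R1: derivative of the coefficients -/
theorem R1_ck (P : MvPolynomial (Fin 3) ℝ) (u : E → ℝ) (hu : Cc u) :
    (∀ r, HasDerivAt (ck P u) (ckd P u r) r) ∧ Continuous (ckd P u) ∧
      ∃ R : ℝ, 0 < R ∧ ∀ r, R ≤ |r| → ck P u r = 0 ∧ ckd P u r = 0 := by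
  obtain ⟨hu1, hu2⟩ := hu
  have huc : Continuous u := hu1.continuous
  have hdc : Continuous (fderiv ℝ u) := hu1.continuous_fderiv (by simp)
  obtain ⟨C, hC⟩ := (hu2.fderiv (𝕜 := ℝ)).exists_bound_of_continuous hdc
  obtain ⟨C', hC'⟩ := hu2.exists_bound_of_continuous huc
  have hPc : Continuous (ev P) := (contDiff_ev P).continuous
  obtain ⟨M, hM⟩ := (isCompact_sphere (0 : E) 1).exists_bound_of_continuousOn hPc.continuousOn
  have hM' : ∀ w : S2, ‖ev P (w : E)‖ ≤ M := fun w => hM _ w.2
  have hc1 : ∀ r : ℝ, Continuous fun w : S2 => u (r • (w : E)) * ev P (w : E) := by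
    intro r; fun_prop
  have hc2 : ∀ r : ℝ, Continuous fun w : S2 =>
      fderiv ℝ u (r • (w : E)) (w : E) * ev P (w : E) := by
    intro r
    have : Continuous fun w : S2 => fderiv ℝ u (r • (w : E)) (w : E) :=
      (hdc.comp (by fun_prop)).clm_apply (by fun_prop)
    fun_prop
  have hb2 : ∀ (r : ℝ) (w : S2), ‖fderiv ℝ u (r • (w : E)) (w : E) * ev P (w : E)‖ ≤ C * M := by
    intro r w
    rw [norm_mul]
    refine mul_le_mul ?_ (hM' w) (norm_nonneg _) ((norm_nonneg _).trans (hC (r • (w : E))))
    refine (ContinuousLinearMap.le_opNorm _ _).trans ?_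
    rw [R1_norm, mul_one]
    exact hC _
  refine ⟨fun r => ?_, ?_, ?_⟩
  · have hd := hasDerivAt_integral_of_dominated_loc_of_deriv_le (μ := sig) (𝕜 := ℝ)
      (F := fun t (w : S2) => u (t • (w : E)) * ev P (w : E))
      (F' := fun t (w : S2) => fderiv ℝ u (t • (w : E)) (w : E) * ev P (w : E)) (x₀ := r)
      (s := Set.univ) (bound := fun _ => C * M) Filter.univ_mem
      (Filter.Eventually.of_forall fun t => (hc1 t).aestronglyMeasurable)
      (Integrable.of_bound ((hc1 r).aestronglyMeasurable) (C' * M)
        (Filter.Eventually.of_forall fun w => by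
          rw [norm_mul]
          exact mul_le_mul (hC' _) (hM' w) (norm_nonneg _) ((norm_nonneg _).trans (hC' 0))))
      ((hc2 r).aestronglyMeasurable)
      (Filter.Eventually.of_forall fun w t _ => hb2 t w)
      (integrable_const _)
      (Filter.Eventually.of_forall fun w t _ => by
        have h1 : HasFDerivAt u (fderiv ℝ u (t • (w : E))) (t • (w : E)) :=
          (hu1.differentiable (by simp)).differentiableAt.hasFDerivAt
        have h2 : HasDerivAt (fun s : ℝ => s • (w : E)) ((1 : ℝ) • (w : E)) t :=
          (hasDerivAt_id t).smul_const (w : E)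
        rw [one_smul] at h2
        exact (h1.comp_hasDerivAt t h2).mul_const _)
    exact hd.2
  · refine continuous_of_dominated (fun r => (hc2 r).aestronglyMeasurable)
      (fun r => Filter.Eventually.of_forall fun w => hb2 r w) (integrable_const _)
      (Filter.Eventually.of_forall fun w => ?_)
    have : Continuous fun r : ℝ => fderiv ℝ u (r • (w : E)) (w : E) :=
      (hdc.comp (by fun_prop)).clm_apply continuous_const
    exact this.mul continuous_const
  · obtain ⟨R, hR⟩ := hu2.isCompact.isBounded.subset_closedBall (0 : E)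
    refine ⟨max R 0 + 1, by positivity, fun r hr => ?_⟩
    have hout : ∀ w : S2, (r • (w : E)) ∉ tsupport u := by
      intro w hw
      have := hR hw
      rw [mem_closedBall_zero_iff, norm_smul, R1_norm, mul_one, Real.norm_eq_abs] at this
      have h2 := le_max_left R 0
      linarith
    constructor
    · unfold ck
      rw [integral_eq_zero_of_ae]
      refine Filter.Eventually.of_forall fun w => ?_
      simp [image_eq_zero_of_notMem_tsupport (hout w)]
    · unfold ckd
      rw [integral_eq_zero_of_ae]
      refine Filter.Eventually.of_forall fun w => ?_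
      have : fderiv ℝ u (r • (w : E)) = 0 := by
        by_contra h
        exact hout w (support_fderiv_subset ℝ h)
      simp [this]

end

end Pool.Agent.H379R3.RC
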