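import Pool.Agent.H379R3.RC.R1

set_option autoImplicit false

open MeasureTheory Set Metric Real MvPolynomial
open Pool.Helper490.SH

namespace Pool.Agent.H379R3.RC

noncomputable section

theorem R2_intg (g : ℝ → ℝ) (hg : Continuous g) (C L : ℝ) (h1 : ∀ t, t ≤ L → |g t| ≤ C * exp t)
    (h2 : ∀ t, L < t → g t = 0) : Integrable g := by
  have hI : Integrable (indicator (Iic L) (fun t => C * exp t)) := by
    rw [integrable_indicator_iff measurableSet_Iic]
    exact (integrableOn_exp_Iic L).const_mul C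
  refine hI.mono' hg.aestronglyMeasurable (Filter.Eventually.of_forall fun t => ?_)
  by_cases ht : t ≤ L
  · rw [indicator_of_mem (show t ∈ Iic L from ht), Real.norm_eq_abs]
    exact h1 t ht
  · rw [indicator_of_notMem (show t ∉ Iic L from ht), h2 t (not_le.1 ht), norm_zero]

theorem R2_deriv (P : MvPolynomial (Fin 3) ℝ) (u : E → ℝ) (hu : Cc u) (t : ℝ) :
    HasDerivAt (vk P u) (exp (t / 2) * (ck P u (exp t) / 2 + exp t * ckd P u (exp t))) t := by
  obtain ⟨h1, -, -⟩ := R1_ck P u hu
  have ha : HasDerivAt (fun t : ℝ => exp (t / 2)) (exp (t / 2) * (1 / 2)) t := by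
    have := ((hasDerivAt_id t).div_const 2).exp
    simpa using this
  have hb : HasDerivAt (fun t : ℝ => ck P u (exp t)) (ckd P u (exp t) * exp t) t :=
    (h1 (exp t)).comp t (Real.hasDerivAt_exp t)
  have := ha.mul hb
  refine this.congr_deriv ?_
  ring

theorem R2_bdd (c : ℝ → ℝ) (hc : Continuous c) (R : ℝ) (h : ∀ r, R ≤ |r| → c r = 0) :
    ∃ C : ℝ, 0 ≤ C ∧ ∀ r, |c r| ≤ C := by
  obtain ⟨C, hC⟩ := (isCompact_Icc (a := -R) (b := R)).exists_bound_of_continuousOn hc.continuousOn
  refine ⟨max C 0, le_max_right _ _, fun r => ?_⟩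
  by_cases hr : R ≤ |r|
  · rw [h r hr, abs_zero]; exact le_max_right _ _
  · push Not at hr
    exact (hC r (by rw [mem_Icc]; exact abs_le.1 hr.le)).trans (le_max_left _ _)

/-- R2: the coefficients in logarithmic coordinates are in `H¹` (uses R1_ck) -/
theorem R2_H1 (P : MvPolynomial (Fin 3) ℝ) (u : E → ℝ) (hu : Cc u) : vk P u ∈ H1 := by
  obtain ⟨h1, h2, R, hR, h3⟩ := R1_ck P u hu
  have hcc : Continuous (ck P u) := continuous_iff_continuousAt.2 fun r => (h1 r).continuousAt
  have hd : deriv (vk P u) = fun t => exp (t / 2) * (ck P u (exp t) / 2 + exp t * ckd P u (exp t)) :=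
    funext fun t => (R2_deriv P u hu t).deriv
  have hdc : Continuous (deriv (vk P u)) := by
    rw [hd]
    have e1 := hcc.comp Real.continuous_exp
    have e2 := h2.comp Real.continuous_exp
    simp only [Function.comp_def] at e1 e2
    fun_prop
  have hvc : Continuous (vk P u) := continuous_iff_continuousAt.2 fun t =>
    (R2_deriv P u hu t).continuousAt
  obtain ⟨C1, hC10, hC1⟩ := R2_bdd (ck P u) hcc R (fun r hr => (h3 r hr).1)
  obtain ⟨C2, hC20, hC2⟩ := R2_bdd (ckd P u) h2 R (fun r hr => (h3 r hr).2)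
  have hexp : ∀ t : ℝ, exp (t / 2) ^ 2 = exp t := fun t => by
    rw [← Real.exp_nat_mul]; congr 1; push_cast; ring
  have hout : ∀ t : ℝ, log R < t → R ≤ |exp t| := fun t ht => by
    rw [abs_of_pos (exp_pos t)]
    calc R = exp (log R) := (exp_log hR).symm
      _ ≤ exp t := exp_le_exp.2 ht.le
  have hin : ∀ t : ℝ, t ≤ log R → exp t ≤ R := fun t ht => by
    calc exp t ≤ exp (log R) := exp_le_exp.2 ht
      _ = R := exp_log hR
  refine ⟨contDiff_one_iff_deriv.2 ⟨fun t => (R2_deriv P u hu t).differentiableAt, hdc⟩, ?_, ?_⟩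
  · refine R2_intg _ (hvc.pow 2) (C1 ^ 2) (log R) (fun t _ => ?_) (fun t ht => ?_)
    · rw [abs_of_nonneg (sq_nonneg _)]
      unfold vk
      rw [mul_pow, hexp, mul_comm]
      refine mul_le_mul_of_nonneg_right ?_ (exp_pos t).le
      rw [← sq_abs]
      exact pow_le_pow_left₀ (abs_nonneg _) (hC1 _) 2
    · unfold vk
      rw [(h3 _ (hout t ht)).1]
      simp
  · refine R2_intg _ (hdc.pow 2) ((C1 / 2 + R * C2) ^ 2) (log R) (fun t ht => ?_) (fun t ht => ?_)
    · rw [abs_of_nonneg (sq_nonneg _), hd]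
      simp only
      rw [mul_pow, hexp, mul_comm]
      refine mul_le_mul_of_nonneg_right ?_ (exp_pos t).le
      rw [← sq_abs]
      refine pow_le_pow_left₀ (abs_nonneg _) ?_ 2
      refine (abs_add_le _ _).trans ?_
      rw [abs_div, abs_mul, abs_of_pos (exp_pos t), abs_two]
      exact add_le_add (div_le_div_of_nonneg_right (hC1 _) two_pos.le)
        (mul_le_mul (hin t ht) (hC2 _) (abs_nonneg _) hR.le)
    · rw [hd]
      simp only
      rw [(h3 _ (hout t ht)).1, (h3 _ (hout t ht)).2]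
      simp

end

end Pool.Agent.H379R3.RC
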