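import Pool.Agent.H379R3.RC.P1

set_option autoImplicit false

open MeasureTheory Set Metric Real MvPolynomial
open Pool.Helper490.SH

namespace Pool.Agent.H379R3.RC

noncomputable section

private theorem R4_pt (w : ℝ) (hw : 0 ≤ w) : w ≤ 1 + w ^ (3 / 2 : ℝ) := by
  rcases le_total w 1 with h | h
  · have := Real.rpow_nonneg hw (3 / 2)
    linarith
  · have := Real.rpow_le_rpow_of_exponent_le h (show (1 : ℝ) ≤ 3 / 2 by norm_num)
    rw [Real.rpow_one] at this
    linarith

private theorem R4_on (W : E → ℝ) (hWm : Measurable W) (hW0 : ∀ x, 0 ≤ W x)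
    (hWi : Integrable (fun x => W x ^ (3 / 2 : ℝ))) (K : Set E) (hK : IsCompact K) :
    IntegrableOn W K := by
  have h1 : IntegrableOn (fun x => 1 + W x ^ (3 / 2 : ℝ)) K :=
    (integrableOn_const hK.measure_lt_top.ne).add hWi.integrableOn
  refine h1.mono' hWm.aestronglyMeasurable (Filter.Eventually.of_forall fun x => ?_)
  rw [Real.norm_eq_abs, abs_of_nonneg (hW0 x)]
  exact R4_pt _ (hW0 x)

/-- R4: local integrability of the potential (uses P1) -/
theorem R4_loc (W : E → ℝ) (hWm : Measurable W) (hW0 : ∀ x, 0 ≤ W x) (hWr : Rad W)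
    (hWi : Integrable (fun x => W x ^ (3 / 2 : ℝ))) :
    (∀ f : E → ℝ, Continuous f → HasCompactSupport f → Integrable (fun x => W x * f x)) ∧
    ∀ R : ℝ, IntegrableOn (fun r : ℝ => W (r • e0) * r ^ 2) (Ioc 0 R) := by
  constructor
  · intro f hf hfs
    have h1 : IntegrableOn (fun x => W x * f x) (tsupport f) := by
      have := (R4_on W hWm hW0 hWi _ hfs.isCompact).mul_continuousOn hf.continuousOn
        hfs.isCompact
      exact this
    rw [integrableOn_iff_integrable_of_support_subset] at h1
    · exact h1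
    · intro x hx
      by_contra h
      exact hx (by simp [image_eq_zero_of_notMem_tsupport h])
  · intro R
    have hg : Integrable (indicator (closedBall (0 : E) R) W) := by
      rw [integrable_indicator_iff measurableSet_closedBall]
      exact R4_on W hWm hW0 hWi _ (isCompact_closedBall _ _)
    have h1 := (P1_polar _ hg).1.mono_set (Ioc_subset_Ioi_self : Ioc (0 : ℝ) R ⊆ Ioi 0)
    have he0 : ‖e0‖ = 1 := by simp [e0]
    have h2 : IntegrableOn (fun r : ℝ => (4 * π) * (W (r • e0) * r ^ 2)) (Ioc 0 R) := by
      refine h1.congr_fun (fun r hr => ?_) measurableSet_Ioc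
      have h3 : ∀ w : S2, indicator (closedBall (0 : E) R) W (r • (w : E)) = W (r • e0) := by
        intro w
        have hn : ‖r • (w : E)‖ = r := by
          rw [norm_smul, mem_sphere_zero_iff_norm.1 w.2, mul_one, Real.norm_eq_abs,
            abs_of_pos hr.1]
        rw [indicator_of_mem]
        · apply hWr
          rw [hn, norm_smul, he0, mul_one, Real.norm_eq_abs, abs_of_pos hr.1]
        · rw [mem_closedBall_zero_iff, hn]
          exact hr.2
      simp only [h3, integral_const, P2_mass, smul_eq_mul]
      ring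
    have h4 : IntegrableOn (fun r : ℝ => (4 * π)⁻¹ * ((4 * π) * (W (r • e0) * r ^ 2)))
      (Ioc 0 R) := h2.const_mul (4 * π)⁻¹
    refine h4.congr_fun (fun r _ => ?_) measurableSet_Ioc
    have : (4 * π) ≠ 0 := by positivity
    simp only
    rw [← mul_assoc, inv_mul_cancel₀ this, one_mul]

end

end Pool.Agent.H379R3.RC
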