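import Pool.Agent.H379R3.RC.Defs
import Pool.Agent.H379R3.RC.R1
import Pool.Agent.H379R3.RC.R4

/-!
# R3: the quadratic form in logarithmic coordinates

Substitution `r = exp t` in the quadratic form of the channel operator.
-/

set_option autoImplicit false

open MeasureTheory Set Metric Real MvPolynomial
open Pool.Helper490.SH

namespace Pool.Agent.H379R3.RC

noncomputable section

/-- the substitution `r = exp t` -/
theorem R3_subst (F : ℝ → ℝ) :
    ∫ t : ℝ, F (exp t) * exp t = ∫ r in Ioi (0 : ℝ), F r := by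
  have h := MeasureTheory.integral_image_eq_integral_abs_deriv_smul (s := univ) (f := Real.exp)
    (f' := Real.exp) MeasurableSet.univ (fun x _ => (Real.hasDerivAt_exp x).hasDerivWithinAt)
    (Real.exp_injective.injOn) F
  rw [image_univ, Real.range_exp, setIntegral_univ] at h
  rw [h]
  refine integral_congr_ae (ae_of_all _ fun t => ?_)
  simp only [smul_eq_mul, abs_of_pos (exp_pos t)]
  ring

/-- integrability of a product with a continuous function vanishing for large arguments -/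
theorem R3_int (w g : ℝ → ℝ) (hg : Continuous g) (R : ℝ) (hR : 0 < R)
    (h0 : ∀ r, R ≤ r → g r = 0) (hw : IntegrableOn w (Ioc 0 R)) :
    IntegrableOn (fun r => w r * g r) (Ioi 0) := by
  rw [← Ioc_union_Ioi_eq_Ioi hR.le]
  refine IntegrableOn.union ?_ ?_
  · rw [← integrableOn_Icc_iff_integrableOn_Ioc] at hw ⊢
    exact hw.mul_continuousOn hg.continuousOn isCompact_Icc
  · refine IntegrableOn.congr_fun (f := fun _ => (0 : ℝ)) integrableOn_zero ?_ measurableSet_Ioi
    intro r hr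
    simp only [h0 r (le_of_lt hr), mul_zero]

/-- integrability of a continuous function vanishing for large arguments -/
theorem R3_int' (g : ℝ → ℝ) (hg : Continuous g) (R : ℝ) (hR : 0 < R)
    (h0 : ∀ r, R ≤ r → g r = 0) : IntegrableOn g (Ioi 0) := by
  have h := R3_int (fun _ => (1 : ℝ)) g hg R hR h0 (by simp)
  simpa using h

/-- the one dimensional computation -/
theorem R3_gen (c c' w : ℝ → ℝ) (hd : ∀ r, HasDerivAt c (c' r) r) (hc' : Continuous c')
    (R : ℝ) (hR : 0 < R) (h0 : ∀ r, R ≤ r → c r = 0 ∧ c' r = 0)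
    (hw : IntegrableOn (fun r => w r * r ^ 2) (Ioc 0 R)) (m : ℝ) :
    (∫ t : ℝ, deriv (fun t : ℝ => exp (t / 2) * c (exp t)) t ^ 2) -
      (∫ t : ℝ, (exp (2 * t) * w (exp t)) * (exp (t / 2) * c (exp t)) ^ 2) +
      (m + 1 / 2) ^ 2 * ∫ t : ℝ, (exp (t / 2) * c (exp t)) ^ 2 =
    ∫ r in Ioi (0 : ℝ), (r ^ 2 * c' r ^ 2 + m * (m + 1) * c r ^ 2 - w r * r ^ 2 * c r ^ 2) := by
  have hc : Continuous c := continuous_iff_continuousAt.2 fun r => (hd r).continuousAt
  have hhalf : ∀ t : ℝ, exp (t / 2) ^ 2 = exp t := by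
    intro t
    rw [← Real.exp_nat_mul]
    congr 1
    push_cast
    ring
  -- the four integrals
  have e1 : (∫ t : ℝ, deriv (fun t : ℝ => exp (t / 2) * c (exp t)) t ^ 2) =
      ∫ r in Ioi (0 : ℝ), (c r / 2 + r * c' r) ^ 2 := by
    rw [← R3_subst (fun r => (c r / 2 + r * c' r) ^ 2)]
    refine integral_congr_ae (ae_of_all _ fun t => ?_)
    have h1 : HasDerivAt (fun t : ℝ => exp (t / 2)) (exp (t / 2) * (1 / 2)) t :=
      ((hasDerivAt_id t).div_const 2).exp
    have h2 : HasDerivAt (fun t : ℝ => c (exp t)) (c' (exp t) * exp t) t :=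
      (hd (exp t)).comp t (Real.hasDerivAt_exp t)
    have h3 := (h1.mul h2).deriv
    have h4 : deriv (fun t : ℝ => exp (t / 2) * c (exp t)) t =
        exp (t / 2) * (1 / 2) * c (exp t) + exp (t / 2) * (c' (exp t) * exp t) := h3
    simp only [h4]
    rw [← hhalf t]
    ring
  have e2 : (∫ t : ℝ, (exp (2 * t) * w (exp t)) * (exp (t / 2) * c (exp t)) ^ 2) =
      ∫ r in Ioi (0 : ℝ), w r * r ^ 2 * c r ^ 2 := by
    rw [← R3_subst (fun r => w r * r ^ 2 * c r ^ 2)]
    refine integral_congr_ae (ae_of_all _ fun t => ?_)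
    have h1 : exp (2 * t) = exp t ^ 2 := by
      rw [← Real.exp_nat_mul]
      norm_num
    simp only
    rw [mul_pow, hhalf t, h1]
    ring
  have e3 : (∫ t : ℝ, (exp (t / 2) * c (exp t)) ^ 2) = ∫ r in Ioi (0 : ℝ), c r ^ 2 := by
    rw [← R3_subst (fun r => c r ^ 2)]
    refine integral_congr_ae (ae_of_all _ fun t => ?_)
    simp only
    rw [mul_pow, hhalf t]
    ring
  -- integrability
  have i1 : IntegrableOn (fun r => c r ^ 2) (Ioi 0) :=
    R3_int' _ (hc.pow 2) R hR fun r hr => by rw [(h0 r hr).1]; ring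
  have i2 : IntegrableOn (fun r => r ^ 2 * c' r ^ 2) (Ioi 0) :=
    R3_int' _ ((continuous_id.pow 2).mul (hc'.pow 2)) R hR fun r hr => by
      rw [(h0 r hr).2]; ring
  have i3 : IntegrableOn (fun r => w r * r ^ 2 * c r ^ 2) (Ioi 0) :=
    R3_int _ _ (hc.pow 2) R hR (fun r hr => by rw [(h0 r hr).1]; ring) hw
  have i4 : IntegrableOn (fun r => c r ^ 2 / 2 + r * c r * c' r) (Ioi 0) :=
    R3_int' _ (((hc.pow 2).div_const 2).add ((continuous_id.mul hc).mul hc')) R hR
      fun r hr => by rw [(h0 r hr).1]; ring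
  -- the boundary term
  have e4 : ∫ r in Ioi (0 : ℝ), (c r ^ 2 / 2 + r * c r * c' r) = 0 := by
    have h := integral_Ioi_of_hasDerivAt_of_tendsto (a := 0) (f := fun r => r * c r ^ 2 / 2)
      (f' := fun r => c r ^ 2 / 2 + r * c r * c' r) (m := 0) ?_ ?_ i4 ?_
    · rw [h]; simp
    · exact (((continuous_id.mul (hc.pow 2)).div_const 2).continuousAt).continuousWithinAt
    · intro r _
      have h1 := (((hasDerivAt_id r).mul ((hd r).pow 2)).div_const 2)
      refine h1.congr_deriv ?_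
      simp only [id, Pi.pow_apply]
      push_cast
      ring
    · refine tendsto_const_nhds.congr' ?_
      filter_upwards [Filter.eventually_ge_atTop R] with r hr
      rw [(h0 r hr).1]; ring
  rw [e1, e2, e3]
  have e5 : ∫ r in Ioi (0 : ℝ), (c r / 2 + r * c' r) ^ 2 =
      (∫ r in Ioi (0 : ℝ), (c r ^ 2 / 2 + r * c r * c' r)) +
        ((∫ r in Ioi (0 : ℝ), r ^ 2 * c' r ^ 2) - (1 / 4) * ∫ r in Ioi (0 : ℝ), c r ^ 2) := by
    have i5 : IntegrableOn (fun r => r ^ 2 * c' r ^ 2 - (1 / 4) * c r ^ 2) (Ioi 0) :=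
      i2.sub (i1.const_mul _)
    rw [← integral_const_mul, ← integral_sub i2 (i1.const_mul _), ← integral_add i4 i5]
    refine integral_congr_ae (ae_of_all _ fun r => ?_)
    simp only
    ring
  have e6 : ∫ r in Ioi (0 : ℝ), (r ^ 2 * c' r ^ 2 + m * (m + 1) * c r ^ 2 -
      w r * r ^ 2 * c r ^ 2) =
      (∫ r in Ioi (0 : ℝ), r ^ 2 * c' r ^ 2) + m * (m + 1) * (∫ r in Ioi (0 : ℝ), c r ^ 2) -
        ∫ r in Ioi (0 : ℝ), w r * r ^ 2 * c r ^ 2 := by
    have i5 : IntegrableOn (fun r => r ^ 2 * c' r ^ 2 + m * (m + 1) * c r ^ 2) (Ioi 0) :=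
      i2.add (i1.const_mul _)
    rw [← integral_const_mul, ← integral_add i2 (i1.const_mul _), ← integral_sub i5 i3]
  rw [e5, e4, e6]
  ring

/-- R3: the form in logarithmic coordinates (uses R1_ck, R4_loc) -/
theorem R3_qf (W : E → ℝ) (hWm : Measurable W) (hW0 : ∀ x, 0 ≤ W x) (hWr : Rad W)
    (hWi : Integrable (fun x => W x ^ (3 / 2 : ℝ)))
    (P : MvPolynomial (Fin 3) ℝ) (l : ℕ) (u : E → ℝ) (hu : Cc u) :
    qf (VV W) l (vk P u) = AA W P l u := by
  obtain ⟨hd, hc', R, hR, h0⟩ := R1_ck P u hu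
  have h4 := (R4_loc W hWm hW0 hWr hWi).2 R
  have h := R3_gen (ck P u) (ckd P u) (fun r => W (r • e0)) hd hc' R hR
    (fun r hr => h0 r (hr.trans (le_abs_self r))) h4 (l : ℝ)
  exact h

end

end Pool.Agent.H379R3.RC
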