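import Pool.Agent.H379R3.RC.Defs

/-! S6 and S9: Parseval and Bessel on the sphere. -/

set_option autoImplicit false

open MeasureTheory Set Metric Real MvPolynomial
open Pool.Helper490.SH

namespace Pool.Agent.H379R3.RC

noncomputable section

private def S6_crd (i : Fin 3) : C(S2, ℝ) :=
  ⟨fun w => (w : E) i, (EuclideanSpace.proj (𝕜 := ℝ) i).continuous.comp continuous_subtype_val⟩

private theorem S6_aev (P : MvPolynomial (Fin 3) ℝ) (w : S2) :
    (MvPolynomial.aeval S6_crd P : C(S2, ℝ)) w = ev P (w : E) := by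
  unfold ev
  induction P using MvPolynomial.induction_on with
  | C a => simp
  | add p q hp hq => simp [hp, hq]
  | mul_X p i hp =>
    simp only [map_mul, MvPolynomial.aeval_X, ContinuousMap.mul_apply, hp, MvPolynomial.eval_X]
    rfl

private theorem S6_dens (f : S2 → ℝ) (hf : Continuous f) (ε : ℝ) (hε : 0 < ε) :
    ∃ P : MvPolynomial (Fin 3) ℝ, ∀ w : S2, |f w - ev P (w : E)| ≤ ε := by
  have hsep : (MvPolynomial.aeval (R := ℝ) S6_crd).range.SeparatesPoints := by
    intro x y hxy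
    have h1 : ∃ i, (x : E) i ≠ (y : E) i := by
      by_contra hcon
      push Not at hcon
      apply hxy
      apply Subtype.ext
      ext i
      exact hcon i
    obtain ⟨i, hi⟩ := h1
    refine ⟨fun w => (w : E) i, ⟨S6_crd i, ⟨X i, by simp⟩, rfl⟩, hi⟩
  obtain ⟨g, hg⟩ := ContinuousMap.exists_mem_subalgebra_near_continuous_of_separatesPoints
    (MvPolynomial.aeval (R := ℝ) S6_crd).range hsep f hf ε hε
  obtain ⟨P, hP⟩ := g.2
  refine ⟨P, fun w => ?_⟩
  have h2 := hg w
  have h3 : ((g : C(S2, ℝ)) : S2 → ℝ) w = ev P (w : E) := by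
    rw [← hP]
    exact S6_aev P w
  rw [Real.norm_eq_abs] at h2
  rw [abs_sub_comm, ← h3]
  exact h2.le

private theorem S6_cev (P : MvPolynomial (Fin 3) ℝ) : Continuous fun w : S2 => ev P (w : E) := by
  unfold ev
  have h : Continuous fun w : S2 => (fun i : Fin 3 => (w : E) i) := by
    refine continuous_pi fun i => ?_
    exact (EuclideanSpace.proj (𝕜 := ℝ) i).continuous.comp continuous_subtype_val
  exact (MvPolynomial.continuous_eval P).comp h

private theorem S6_int {f : S2 → ℝ} (hf : Continuous f) : Integrable f sig :=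
  hf.integrable_of_hasCompactSupport (HasCompactSupport.of_compactSpace f)

private theorem S6_exp (Y : ℕ → MvPolynomial (Fin 3) ℝ) (hY : Fam0 Y) (f : S2 → ℝ)
    (hf : Continuous f) (b : ℕ → ℝ) (m : ℕ) :
    ∫ w : S2, (f w - ∑ k ∈ Finset.range m, b k * ev (Y k) (w : E)) ^ 2 ∂sig =
      (∫ w : S2, f w ^ 2 ∂sig) + ∑ k ∈ Finset.range m,
        (b k ^ 2 * (∫ w : S2, ev (Y k) (w : E) ^ 2 ∂sig) -
          2 * b k * ∫ w : S2, f w * ev (Y k) (w : E) ∂sig) := by
  induction m with
  | zero => simp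
  | succ m ih =>
    rw [Finset.sum_range_succ, ← add_assoc, ← ih]
    have hg : Continuous fun w : S2 => ∑ k ∈ Finset.range m, b k * ev (Y k) (w : E) :=
      continuous_finsetSum _ fun k _ => continuous_const.mul (S6_cev _)
    have h0 : ∫ w : S2, (∑ k ∈ Finset.range m, b k * ev (Y k) (w : E)) * ev (Y m) (w : E) ∂sig
        = 0 := by
      have h1 : (fun w : S2 => (∑ k ∈ Finset.range m, b k * ev (Y k) (w : E)) *
          ev (Y m) (w : E)) = fun w : S2 => ∑ k ∈ Finset.range m,
            b k * (ev (Y k) (w : E) * ev (Y m) (w : E)) := by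
        funext w
        rw [Finset.sum_mul]
        exact Finset.sum_congr rfl fun k _ => by ring
      have h1i : ∀ k ∈ Finset.range m, Integrable
          (fun w : S2 => b k * (ev (Y k) (w : E) * ev (Y m) (w : E))) sig := fun k _ =>
        S6_int (continuous_const.mul ((S6_cev _).mul (S6_cev _)))
      rw [h1, integral_finsetSum _ h1i]
      refine Finset.sum_eq_zero fun k hk => ?_
      rw [integral_const_mul, hY.orth k m (by
        have := Finset.mem_range.1 hk
        omega), mul_zero]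
    have h2 : (fun w : S2 => (f w - ∑ k ∈ Finset.range (m + 1), b k * ev (Y k) (w : E)) ^ 2) =
        fun w : S2 => (f w - ∑ k ∈ Finset.range m, b k * ev (Y k) (w : E)) ^ 2 +
          (b m ^ 2 * ev (Y m) (w : E) ^ 2 + ((- 2 * b m) * (f w * ev (Y m) (w : E)) +
            (2 * b m) * ((∑ k ∈ Finset.range m, b k * ev (Y k) (w : E)) *
              ev (Y m) (w : E)))) := by
      funext w
      rw [Finset.sum_range_succ]
      ring
    rw [h2, integral_add, integral_add, integral_add, integral_const_mul, integral_const_mul,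
      integral_const_mul, h0]
    · ring
    · exact S6_int (continuous_const.mul (hf.mul (S6_cev _)))
    · exact S6_int (continuous_const.mul (hg.mul (S6_cev _)))
    · exact S6_int (continuous_const.mul ((S6_cev _).pow 2))
    · exact S6_int ((continuous_const.mul (hf.mul (S6_cev _))).add
        (continuous_const.mul (hg.mul (S6_cev _))))
    · exact S6_int ((hf.sub hg).pow 2)
    · exact S6_int ((continuous_const.mul ((S6_cev _).pow 2)).add
        ((continuous_const.mul (hf.mul (S6_cev _))).add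
          (continuous_const.mul (hg.mul (S6_cev _)))))

private theorem S6_zero (Y : ℕ → MvPolynomial (Fin 3) ℝ) (f : S2 → ℝ)
    (hf : Continuous f) (k : ℕ) (h0 : ∫ w : S2, ev (Y k) (w : E) ^ 2 ∂sig = 0) :
    ∫ w : S2, f w * ev (Y k) (w : E) ∂sig = 0 := by
  by_contra hc
  set c := ∫ w : S2, f w * ev (Y k) (w : E) ∂sig with hcdef
  have key : ∀ t : ℝ, 0 ≤ (∫ w : S2, f w ^ 2 ∂sig) - 2 * t * c := by
    intro t
    have h1 : 0 ≤ ∫ w : S2, (f w - t * ev (Y k) (w : E)) ^ 2 ∂sig :=
      integral_nonneg fun w => sq_nonneg _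
    have h2 : (fun w : S2 => (f w - t * ev (Y k) (w : E)) ^ 2) =
        fun w : S2 => f w ^ 2 + (t ^ 2 * ev (Y k) (w : E) ^ 2 +
          (- 2 * t) * (f w * ev (Y k) (w : E))) := by
      funext w
      ring
    rw [h2, integral_add, integral_add, integral_const_mul, integral_const_mul, h0] at h1
    · linarith
    · exact S6_int (continuous_const.mul ((S6_cev _).pow 2))
    · exact S6_int (continuous_const.mul (hf.mul (S6_cev _)))
    · exact S6_int (hf.pow 2)
    · exact S6_int ((continuous_const.mul ((S6_cev _).pow 2)).add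
        (continuous_const.mul (hf.mul (S6_cev _))))
  have h3 := key (((∫ w : S2, f w ^ 2 ∂sig) + 1) / (2 * c))
  have h4 : 2 * (((∫ w : S2, f w ^ 2 ∂sig) + 1) / (2 * c)) * c =
      (∫ w : S2, f w ^ 2 ∂sig) + 1 := by
    field_simp
  rw [h4] at h3
  linarith

/-- S9: Bessel's inequality -/
theorem S9_bessel (Y : ℕ → MvPolynomial (Fin 3) ℝ) (hY : Fam0 Y) (f : S2 → ℝ) (hf : Continuous f)
    (m : ℕ) : ∑ k ∈ Finset.range m, (∫ w : S2, f w * ev (Y k) (w : E) ∂sig) ^ 2 ≤
      ∫ w : S2, f w ^ 2 ∂sig := by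
  have h1 := S6_exp Y hY f hf (fun k => ∫ w : S2, f w * ev (Y k) (w : E) ∂sig) m
  have h2 : 0 ≤ ∫ w : S2, (f w - ∑ k ∈ Finset.range m,
      (∫ w : S2, f w * ev (Y k) (w : E) ∂sig) * ev (Y k) (w : E)) ^ 2 ∂sig :=
    integral_nonneg fun w => sq_nonneg _
  rw [h1] at h2
  have h3 : ∑ k ∈ Finset.range m,
        ((∫ w : S2, f w * ev (Y k) (w : E) ∂sig) ^ 2 * (∫ w : S2, ev (Y k) (w : E) ^ 2 ∂sig) -
          2 * (∫ w : S2, f w * ev (Y k) (w : E) ∂sig) *
            ∫ w : S2, f w * ev (Y k) (w : E) ∂sig) =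
      - ∑ k ∈ Finset.range m, (∫ w : S2, f w * ev (Y k) (w : E) ∂sig) ^ 2 := by
    rw [← Finset.sum_neg_distrib]
    refine Finset.sum_congr rfl fun k _ => ?_
    rcases hY.norm k with h | h
    · rw [h, S6_zero Y f hf k h]
      ring
    · rw [h]
      ring
  rw [h3] at h2
  linarith

/-- S6: Parseval -/
theorem S6_pars (Y : ℕ → MvPolynomial (Fin 3) ℝ) (hY : Fam0 Y) (f : S2 → ℝ) (hf : Continuous f) :
    HasSum (fun k => (∫ w : S2, f w * ev (Y k) (w : E) ∂sig) ^ 2) (∫ w : S2, f w ^ 2 ∂sig) := by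
  rw [hasSum_iff_tendsto_nat_of_nonneg (fun k => sq_nonneg _)]
  rw [Metric.tendsto_atTop]
  intro ε hε
  have hM : 0 ≤ sig.real univ := measureReal_nonneg
  set δ := Real.sqrt (ε / (2 * (sig.real univ + 1))) with hδ
  have hδ0 : 0 < δ := Real.sqrt_pos.2 (by positivity)
  have hδ2 : δ ^ 2 * sig.real univ < ε := by
    rw [hδ, Real.sq_sqrt (by positivity), div_mul_eq_mul_div, div_lt_iff₀ (by positivity)]
    nlinarith
  obtain ⟨P, hP⟩ := S6_dens f hf δ hδ0
  obtain ⟨b, hb⟩ := hY.span P P.totalDegree le_rfl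
  refine ⟨(P.totalDegree + 1) ^ 2, fun m hm => ?_⟩
  have h1 := S6_exp Y hY f hf b ((P.totalDegree + 1) ^ 2)
  have h2 : ∫ w : S2, (f w - ∑ k ∈ Finset.range ((P.totalDegree + 1) ^ 2),
      b k * ev (Y k) (w : E)) ^ 2 ∂sig ≤ δ ^ 2 * sig.real univ := by
    have h3 : ∫ w : S2, (f w - ∑ k ∈ Finset.range ((P.totalDegree + 1) ^ 2),
        b k * ev (Y k) (w : E)) ^ 2 ∂sig ≤ ∫ _ : S2, δ ^ 2 ∂sig := by
      refine integral_mono ?_ (integrable_const _) fun w => ?_
      · exact S6_int ((hf.sub (continuous_finsetSum _ fun k _ =>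
          continuous_const.mul (S6_cev _))).pow 2)
      · have h4 := hP w
        rw [hb w] at h4
        have h5 := abs_le.1 h4
        show (f w - ∑ k ∈ Finset.range ((P.totalDegree + 1) ^ 2),
          b k * ev (Y k) (w : E)) ^ 2 ≤ δ ^ 2
        exact sq_le_sq' h5.1 h5.2
    rw [integral_const, smul_eq_mul] at h3
    linarith
  have h3 : - ∑ k ∈ Finset.range ((P.totalDegree + 1) ^ 2),
      (∫ w : S2, f w * ev (Y k) (w : E) ∂sig) ^ 2 ≤
      ∑ k ∈ Finset.range ((P.totalDegree + 1) ^ 2),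
        (b k ^ 2 * (∫ w : S2, ev (Y k) (w : E) ^ 2 ∂sig) -
          2 * b k * ∫ w : S2, f w * ev (Y k) (w : E) ∂sig) := by
    rw [← Finset.sum_neg_distrib]
    refine Finset.sum_le_sum fun k _ => ?_
    rcases hY.norm k with h | h
    · rw [h, S6_zero Y f hf k h]
      simp
    · rw [h]
      nlinarith [sq_nonneg (b k - ∫ w : S2, f w * ev (Y k) (w : E) ∂sig)]
  have h4 : ∑ k ∈ Finset.range ((P.totalDegree + 1) ^ 2),
      (∫ w : S2, f w * ev (Y k) (w : E) ∂sig) ^ 2 ≤
      ∑ k ∈ Finset.range m, (∫ w : S2, f w * ev (Y k) (w : E) ∂sig) ^ 2 :=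
    Finset.sum_le_sum_of_subset_of_nonneg (Finset.range_mono hm) fun k _ _ => sq_nonneg _
  have h5 := S9_bessel Y hY f hf m
  rw [Real.dist_eq, abs_lt]
  constructor <;> linarith

end

end Pool.Agent.H379R3.RC
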