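import Pool.Agent.H379R3.RC.S8
import Pool.Agent.H379R3.RC.S6
import Pool.Agent.H379R3.RC.P1
import Pool.Agent.H379R3.RC.P4
import Pool.Agent.H379R3.RC.R1
import Pool.Agent.H379R3.RC.R4

/-!
# The main inequality
-/

set_option autoImplicit false

open MeasureTheory Set Metric Real MvPolynomial
open Pool.Helper490.SH

namespace Pool.Agent.H379R3.RC

noncomputable section

theorem R5_cont_LF (a b : Fin 3) (u : E → ℝ) (hu : ContDiff ℝ (⊤ : ℕ∞) u) :
    Continuous (LF a b u) := by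
  unfold LF
  have h1 : Continuous (fderiv ℝ u) := hu.continuous_fderiv (by simp)
  have h2 : ∀ c : Fin 3, Continuous (fun x : E => fderiv ℝ u x (EuclideanSpace.single c 1)) :=
    fun c => h1.clm_apply continuous_const
  have h3 : ∀ c : Fin 3, Continuous (fun x : E => x c) := fun c => by fun_prop
  exact ((h3 a).mul (h2 b)).sub ((h3 b).mul (h2 a))

theorem R5_cont_ang (u : E → ℝ) (hu : ContDiff ℝ (⊤ : ℕ∞) u) : Continuous (ang u) := by
  unfold ang
  exact (((R5_cont_LF 0 1 u hu).pow 2).add ((R5_cont_LF 0 2 u hu).pow 2)).add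
    ((R5_cont_LF 1 2 u hu).pow 2)

theorem R5_cs_ang (u : E → ℝ) (hu : Cc u) : HasCompactSupport (ang u) := by
  have h1 : HasCompactSupport (fderiv ℝ u) := hu.2.fderiv ℝ
  refine h1.mono' ?_
  intro x hx
  rw [Function.mem_support] at hx
  by_contra h
  apply hx
  have h2 : fderiv ℝ u x = 0 := image_eq_zero_of_notMem_tsupport h
  simp [ang, LF, h2]

theorem R5_int_sph (f : E → ℝ) (hf : Continuous f) (r : ℝ) :
    Integrable (fun w : S2 => f (r • (w : E))) sig := by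
  have h1 : Continuous (fun w : S2 => f (r • (w : E))) := by fun_prop
  exact h1.integrable_of_hasCompactSupport (HasCompactSupport.of_compactSpace _)

/-- the inequality for fixed `r` -/
theorem R5_point (Y : ℕ → MvPolynomial (Fin 3) ℝ) (hY : Fam Y) (u : E → ℝ) (hu : Cc u) (K : ℕ)
    (hK : 1 ≤ K) (r wt : ℝ) (hwt : 0 ≤ wt) :
    ∑ k ∈ Finset.range (K ^ 2), (r ^ 2 * ckd (Y k) u r ^ 2 +
        ((Nat.sqrt k : ℕ) : ℝ) * (((Nat.sqrt k : ℕ) : ℝ) + 1) * ck (Y k) u r ^ 2 -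
        wt * r ^ 2 * ck (Y k) u r ^ 2) ≤
      r ^ 2 * (∫ w : S2, ‖fderiv ℝ u (r • (w : E))‖ ^ 2 ∂sig) -
        r ^ 2 * (wt * ∫ w : S2, u (r • (w : E)) ^ 2 ∂sig) +
        1 / ((K : ℝ) * ((K : ℝ) + 1)) * (r ^ 2 * (wt * ∫ w : S2, ang u (r • (w : E)) ∂sig)) := by
  have hK0 : (1 : ℝ) ≤ K := by exact_mod_cast hK
  have hKK : 0 < (K : ℝ) * ((K : ℝ) + 1) := by positivity
  have hur : ContDiff ℝ (⊤ : ℕ∞) (fun y : E => u (r • y)) :=
    hu.1.comp (contDiff_id.const_smul r)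
  have h8 := S8_ang Y hY (fun y => u (r • y)) hur K
  simp only [P5_dil u hu.1 r] at h8
  have hfd : Continuous (fderiv ℝ u) := hu.1.continuous_fderiv (by simp)
  have hfc : Continuous (fun w : S2 => fderiv ℝ u (r • (w : E)) (w : E)) := by
    refine Continuous.clm_apply ?_ continuous_subtype_val
    exact hfd.comp (by fun_prop)
  have h9 := S9_bessel Y hY.toFam0 (fun w : S2 => fderiv ℝ u (r • (w : E)) (w : E)) hfc (K ^ 2)
  have huc : Continuous (fun w : S2 => u (r • (w : E))) := hu.1.continuous.comp (by fun_prop)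
  have h9' := S9_bessel Y hY.toFam0 (fun w : S2 => u (r • (w : E))) huc (K ^ 2)
  have hG : r ^ 2 * (∫ w : S2, ‖fderiv ℝ u (r • (w : E))‖ ^ 2 ∂sig) =
      r ^ 2 * (∫ w : S2, (fderiv ℝ u (r • (w : E)) (w : E)) ^ 2 ∂sig) +
        ∫ w : S2, ang u (r • (w : E)) ∂sig := by
    rw [← integral_const_mul, ← integral_const_mul, ← integral_add]
    · exact integral_congr_ae (ae_of_all _ fun w => P4_grad u hu.1 r w)
    · exact ((hfc.pow 2).integrable_of_hasCompactSupport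
        (HasCompactSupport.of_compactSpace _)).const_mul _
    · exact R5_int_sph _ (R5_cont_ang u hu.1) r
  have hck : ∀ k, (∫ w : S2, u (r • (w : E)) * ev (Y k) (w : E) ∂sig) = ck (Y k) u r := fun k => rfl
  have hckd : ∀ k, (∫ w : S2, fderiv ℝ u (r • (w : E)) (w : E) * ev (Y k) (w : E) ∂sig) =
      ckd (Y k) u r := fun k => rfl
  simp only [hck] at h8 h9'
  simp only [hckd] at h9
  set U2 : ℝ := ∫ w : S2, u (r • (w : E)) ^ 2 ∂sig with hU2
  set R2 : ℝ := ∫ w : S2, (fderiv ℝ u (r • (w : E)) (w : E)) ^ 2 ∂sig with hR2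
  set A : ℝ := ∫ w : S2, ang u (r • (w : E)) ∂sig with hA
  set S1 : ℝ := ∑ k ∈ Finset.range (K ^ 2), ck (Y k) u r ^ 2 with hS1
  set SL : ℝ := ∑ k ∈ Finset.range (K ^ 2),
    (Nat.sqrt k : ℝ) * ((Nat.sqrt k : ℝ) + 1) * ck (Y k) u r ^ 2 with hSL
  set SD : ℝ := ∑ k ∈ Finset.range (K ^ 2), ckd (Y k) u r ^ 2 with hSD
  have hSL0 : 0 ≤ SL := Finset.sum_nonneg fun k _ => by positivity
  have htail : U2 - S1 ≤ 1 / ((K : ℝ) * ((K : ℝ) + 1)) * A := by
    rw [one_div, ← div_eq_inv_mul, le_div_iff₀ hKK]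
    nlinarith
  have hlhs : ∑ k ∈ Finset.range (K ^ 2), (r ^ 2 * ckd (Y k) u r ^ 2 +
        ((Nat.sqrt k : ℕ) : ℝ) * (((Nat.sqrt k : ℕ) : ℝ) + 1) * ck (Y k) u r ^ 2 -
        wt * r ^ 2 * ck (Y k) u r ^ 2) = r ^ 2 * SD + SL - wt * r ^ 2 * S1 := by
    rw [Finset.sum_sub_distrib, Finset.sum_add_distrib, ← Finset.mul_sum, ← Finset.mul_sum]
  rw [hlhs, hG]
  have h10 : r ^ 2 * SD ≤ r ^ 2 * R2 := mul_le_mul_of_nonneg_left h9 (by positivity)
  have h11 : 0 ≤ wt * r ^ 2 := by positivity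
  have h12 := mul_le_mul_of_nonneg_left htail h11
  have h13 : 0 ≤ (K : ℝ) * ((K : ℝ) + 1) * (U2 - S1) := mul_nonneg hKK.le (by linarith)
  have e1 : r ^ 2 * (wt * U2) = wt * r ^ 2 * U2 := by ring
  have e2 : 1 / ((K : ℝ) * ((K : ℝ) + 1)) * (r ^ 2 * (wt * A)) =
      wt * r ^ 2 * (1 / ((K : ℝ) * ((K : ℝ) + 1)) * A) := by ring
  rw [e1, e2]
  have e3 : wt * r ^ 2 * (U2 - S1) = wt * r ^ 2 * U2 - wt * r ^ 2 * S1 := by ring
  rw [e3] at h12
  linarith

/-- R5: the main inequality (uses S8, S9, P1, P4, P5, R1, R4) -/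
theorem R5_main (Y : ℕ → MvPolynomial (Fin 3) ℝ) (hY : Fam Y)
    (W : E → ℝ) (hWm : Measurable W) (hW0 : ∀ x, 0 ≤ W x) (hWr : Rad W)
    (hWi : Integrable (fun x => W x ^ (3 / 2 : ℝ))) (u : E → ℝ) (hu : Cc u) (K : ℕ) (hK : 1 ≤ K) :
    ∑ k ∈ Finset.range (K ^ 2), AA W (Y k) (Nat.sqrt k) u ≤
      ((∫ x, ‖fderiv ℝ u x‖ ^ 2) - ∫ x, W x * u x ^ 2) +
        1 / ((K : ℝ) * ((K : ℝ) + 1)) * ∫ x, W x * ang u x := by
  obtain ⟨h41, h42⟩ := R4_loc W hWm hW0 hWr hWi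
  have hfd : Continuous (fderiv ℝ u) := hu.1.continuous_fderiv (by simp)
  have hW : ∀ (r : ℝ), 0 < r → ∀ w : S2, W (r • (w : E)) = W (r • e0) := by
    intro r _ w
    refine hWr _ _ ?_
    rw [norm_smul, norm_smul, e0]
    simp
  -- the three integrals on the right
  have i1 : Integrable (fun x => ‖fderiv ℝ u x‖ ^ 2) := by
    refine (hfd.norm.pow 2).integrable_of_hasCompactSupport ?_
    refine (hu.2.fderiv ℝ).mono ?_
    intro x hx
    rw [Function.mem_support] at hx ⊢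
    intro h
    apply hx
    simp [h]
  have i2 : Integrable (fun x => W x * u x ^ 2) := by
    refine h41 (fun x => u x ^ 2) (hu.1.continuous.pow 2) ?_
    refine hu.2.mono ?_
    intro x hx
    rw [Function.mem_support] at hx ⊢
    intro h
    apply hx
    simp [h]
  have i3 : Integrable (fun x => W x * ang u x) :=
    h41 (ang u) (R5_cont_ang u hu.1) (R5_cs_ang u hu)
  obtain ⟨p1, q1⟩ := P1_polar _ i1
  obtain ⟨p2, q2⟩ := P1_polar _ i2
  obtain ⟨p3, q3⟩ := P1_polar _ i3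
  have hc2 : ∀ r ∈ Ioi (0 : ℝ), r ^ 2 * ∫ w : S2, W (r • (w : E)) * u (r • (w : E)) ^ 2 ∂sig =
      r ^ 2 * (W (r • e0) * ∫ w : S2, u (r • (w : E)) ^ 2 ∂sig) := by
    intro r hr
    have e1 : ∫ w : S2, W (r • (w : E)) * u (r • (w : E)) ^ 2 ∂sig =
        W (r • e0) * ∫ w : S2, u (r • (w : E)) ^ 2 ∂sig := by
      rw [← integral_const_mul]
      exact integral_congr_ae (ae_of_all _ fun w => by simp only [hW r hr w])
    rw [e1]
  have hc3 : ∀ r ∈ Ioi (0 : ℝ), r ^ 2 * ∫ w : S2, W (r • (w : E)) * ang u (r • (w : E)) ∂sig =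
      r ^ 2 * (W (r • e0) * ∫ w : S2, ang u (r • (w : E)) ∂sig) := by
    intro r hr
    have e1 : ∫ w : S2, W (r • (w : E)) * ang u (r • (w : E)) ∂sig =
        W (r • e0) * ∫ w : S2, ang u (r • (w : E)) ∂sig := by
      rw [← integral_const_mul]
      exact integral_congr_ae (ae_of_all _ fun w => by simp only [hW r hr w])
    rw [e1]
  rw [q1, q2, q3, setIntegral_congr_fun measurableSet_Ioi hc2,
    setIntegral_congr_fun measurableSet_Ioi hc3]
  have p2' := p2.congr_fun hc2 measurableSet_Ioi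
  have p3' := p3.congr_fun hc3 measurableSet_Ioi
  -- the left side
  have hint : ∀ k ∈ Finset.range (K ^ 2), IntegrableOn (fun r : ℝ => r ^ 2 * ckd (Y k) u r ^ 2 +
        ((Nat.sqrt k : ℕ) : ℝ) * (((Nat.sqrt k : ℕ) : ℝ) + 1) * ck (Y k) u r ^ 2 -
        W (r • e0) * r ^ 2 * ck (Y k) u r ^ 2) (Ioi 0) := by
    intro k _
    obtain ⟨d1, d2, R, hR, d3⟩ := R1_ck (Y k) u hu
    have cc : Continuous (ck (Y k) u) :=
      continuous_iff_continuousAt.mpr fun r => (d1 r).continuousAt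
    refine Integrable.sub ?_ ?_
    · refine Integrable.integrableOn ?_
      refine Continuous.integrable_of_hasCompactSupport (by fun_prop) ?_
      refine HasCompactSupport.intro (K := Icc (-R) R) isCompact_Icc fun r hr => ?_
      have h1 : R ≤ |r| := by
        by_contra h
        push Not at h
        rw [abs_lt] at h
        exact hr ⟨h.1.le, h.2.le⟩
      obtain ⟨e1, e2⟩ := d3 r h1
      rw [e1, e2]
      ring
    · have h1 : IntegrableOn (fun r : ℝ => W (r • e0) * r ^ 2 * ck (Y k) u r ^ 2) (Ioc 0 R) := by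
        obtain ⟨M, hM⟩ := isCompact_Icc.exists_bound_of_continuousOn
          (f := fun r : ℝ => ck (Y k) u r ^ 2) (s := Icc 0 R) (cc.pow 2).continuousOn
        refine Integrable.mul_bdd (c := M) (h42 R) (cc.pow 2).aestronglyMeasurable ?_
        rw [ae_restrict_iff' measurableSet_Ioc]
        exact ae_of_all _ fun r hr => hM r ⟨hr.1.le, hr.2⟩
      have h2 : IntegrableOn (fun r : ℝ => W (r • e0) * r ^ 2 * ck (Y k) u r ^ 2) (Ioi R) := by
        refine (integrableOn_zero).congr_fun (fun r hr => ?_) measurableSet_Ioi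
        have : R ≤ |r| := (le_of_lt hr).trans (le_abs_self r)
        rw [(d3 r this).1]
        ring
      have h3 : Ioi (0 : ℝ) = Ioc 0 R ∪ Ioi R := (Ioc_union_Ioi_eq_Ioi hR.le).symm
      rw [h3]
      exact h1.union h2
  have hAA : ∑ k ∈ Finset.range (K ^ 2), AA W (Y k) (Nat.sqrt k) u =
      ∫ r in Ioi (0 : ℝ), ∑ k ∈ Finset.range (K ^ 2), (r ^ 2 * ckd (Y k) u r ^ 2 +
        ((Nat.sqrt k : ℕ) : ℝ) * (((Nat.sqrt k : ℕ) : ℝ) + 1) * ck (Y k) u r ^ 2 -
        W (r • e0) * r ^ 2 * ck (Y k) u r ^ 2) := by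
    rw [integral_finsetSum _ hint]
    rfl
  have p12 : IntegrableOn (fun r : ℝ => r ^ 2 * (∫ w : S2, ‖fderiv ℝ u (r • (w : E))‖ ^ 2 ∂sig) -
      r ^ 2 * (W (r • e0) * ∫ w : S2, u (r • (w : E)) ^ 2 ∂sig)) (Ioi 0) := p1.sub p2'
  have p33 : IntegrableOn (fun r : ℝ => 1 / ((K : ℝ) * ((K : ℝ) + 1)) *
      (r ^ 2 * (W (r • e0) * ∫ w : S2, ang u (r • (w : E)) ∂sig))) (Ioi 0) := p3'.const_mul _
  rw [hAA, ← integral_const_mul, ← integral_sub p1 p2', ← integral_add p12 p33]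
  refine setIntegral_mono_on (integrable_finsetSum _ hint) (p12.add p33)
    measurableSet_Ioi fun r hr => ?_
  exact R5_point Y hY u hu K hK r (W (r • e0)) (hW0 _)

end

end Pool.Agent.H379R3.RC
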