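import Pool.Agent.H379R3.RC.Defs

/-! S1: polynomials on the sphere reduce to the monomials `mon k` (helper726 for helper379). -/

set_option autoImplicit false

open MeasureTheory Set Metric Real MvPolynomial
open Pool.Helper490.SH

namespace Pool.Agent.H379R3.RC

noncomputable section

/-- S1': the degree of the monomials -/
theorem S1_deg (k : ℕ) : (mon k).totalDegree ≤ Nat.sqrt k := by
  have h1 : k ≤ Nat.sqrt k * Nat.sqrt k + Nat.sqrt k + Nat.sqrt k := Nat.sqrt_le_add k
  have h2 : Nat.sqrt k * Nat.sqrt k ≤ k := Nat.sqrt_le k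
  unfold mon
  simp only
  set l := Nat.sqrt k
  split_ifs with h
  · refine (totalDegree_mul _ _).trans ?_
    rw [totalDegree_X_pow, totalDegree_X_pow]
    omega
  · refine (totalDegree_mul _ _).trans ?_
    refine (Nat.add_le_add_right (totalDegree_mul _ _) _).trans ?_
    rw [totalDegree_X_pow, totalDegree_X_pow, totalDegree_X]
    omega

/-- the span of the monomials `mon k`, `k < (L+1)^2`, as functions on the sphere -/
def S1_V (L : ℕ) : Submodule ℝ (S2 → ℝ) :=
  Submodule.span ℝ ((fun (k : ℕ) (w : S2) => ev (mon k) (w : E)) '' (Finset.range ((L + 1) ^ 2) : Set ℕ))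

lemma S1_memV (L : ℕ) (f : S2 → ℝ) : f ∈ S1_V L ↔ ∃ c : ℕ → ℝ, ∀ w : S2, f w =
    ∑ k ∈ Finset.range ((L + 1) ^ 2), c k * ev (mon k) (w : E) := by
  unfold S1_V
  rw [Submodule.mem_span_image_finset_iff_exists_fun']
  constructor
  · rintro ⟨c, hc⟩
    refine ⟨c, fun w => ?_⟩
    rw [← hc, Finset.sum_apply]
    rfl
  · rintro ⟨c, hc⟩
    refine ⟨c, ?_⟩
    funext w
    rw [Finset.sum_apply, hc w]
    rfl

lemma S1_mon0 (p q : ℕ) : mon ((p + q) * (p + q) + p) = X 0 ^ p * X 1 ^ q := by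
  unfold mon
  have h : Nat.sqrt ((p + q) * (p + q) + p) = p + q := Nat.sqrt_add_eq (p + q) (by omega)
  simp only [h]
  rw [Nat.add_sub_cancel_left, if_pos (by omega), Nat.add_sub_cancel_left]

lemma S1_mon1 (p q : ℕ) : mon ((p + q + 1) * (p + q + 1) + (p + q + 1 + 1 + p)) =
    X 2 * X 0 ^ p * X 1 ^ q := by
  unfold mon
  have h : Nat.sqrt ((p + q + 1) * (p + q + 1) + (p + q + 1 + 1 + p)) = p + q + 1 :=
    Nat.sqrt_add_eq (p + q + 1) (by omega)
  simp only [h]
  rw [Nat.add_sub_cancel_left, if_neg (by omega)]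
  have e1 : p + q + 1 + 1 + p - (p + q + 1) - 1 = p := by omega
  have e2 : 2 * (p + q + 1) - (p + q + 1 + 1 + p) = q := by omega
  rw [e1, e2]

lemma S1_sphere (w : S2) : (w : E) 2 ^ 2 = 1 - (w : E) 0 ^ 2 - (w : E) 1 ^ 2 := by
  have h : ‖(w : E)‖ = 1 := by
    have := w.2
    rwa [mem_sphere_zero_iff_norm] at this
  have h2 := EuclideanSpace.real_norm_sq_eq (w : E)
  rw [h, Fin.sum_univ_three] at h2
  linarith

lemma S1_monomial (L : ℕ) : ∀ (s p q : ℕ), p + q + s ≤ L →
    (fun w : S2 => (w : E) 0 ^ p * (w : E) 1 ^ q * (w : E) 2 ^ s) ∈ S1_V L := by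
  intro s
  induction s using Nat.strong_induction_on with
  | _ s ih =>
    intro p q h
    rcases s with _ | _ | s
    · have h1 : (p + q) * (p + q) + p < (L + 1) ^ 2 := by nlinarith
      have h2 : (fun w : S2 => ev (mon ((p + q) * (p + q) + p)) (w : E)) ∈ S1_V L :=
        Submodule.subset_span ⟨_, by simpa using h1, rfl⟩
      convert h2 using 2 with w
      rw [S1_mon0]
      simp [ev]
    · have h1 : (p + q + 1) * (p + q + 1) + (p + q + 1 + 1 + p) < (L + 1) ^ 2 := by nlinarith
      have h2 : (fun w : S2 => ev (mon ((p + q + 1) * (p + q + 1) + (p + q + 1 + 1 + p))) (w : E)) ∈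
          S1_V L := Submodule.subset_span ⟨_, by simpa using h1, rfl⟩
      convert h2 using 2 with w
      rw [S1_mon1]
      simp [ev]
      ring
    · have a1 := ih s (by omega) p q (by omega)
      have a2 := ih s (by omega) (p + 2) q (by omega)
      have a3 := ih s (by omega) p (q + 2) (by omega)
      have h2 := (S1_V L).sub_mem ((S1_V L).sub_mem a1 a2) a3
      convert h2 using 1
      funext w
      simp only [Pi.sub_apply]
      have := S1_sphere w
      calc (w : E) 0 ^ p * (w : E) 1 ^ q * (w : E) 2 ^ (s + 1 + 1)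
          = (w : E) 0 ^ p * (w : E) 1 ^ q * (w : E) 2 ^ s * ((w : E) 2 ^ 2) := by ring
        _ = _ := by rw [this]; ring

lemma S1_mem (P : MvPolynomial (Fin 3) ℝ) (L : ℕ) (hP : P.totalDegree ≤ L) :
    (fun w : S2 => ev P (w : E)) ∈ S1_V L := by
  have h1 : (fun w : S2 => ev P (w : E)) = ∑ d ∈ P.support, P.coeff d •
      fun w : S2 => (w : E) 0 ^ d 0 * (w : E) 1 ^ d 1 * (w : E) 2 ^ d 2 := by
    funext w
    rw [Finset.sum_apply]
    unfold ev
    rw [eval_eq']
    apply Finset.sum_congr rfl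
    intro d _
    rw [Fin.prod_univ_three]
    rfl
  rw [h1]
  apply Submodule.sum_mem
  intro d hd
  apply Submodule.smul_mem
  apply S1_monomial
  have h2 := le_totalDegree hd
  rw [Finsupp.sum_fintype _ _ (fun _ => rfl), Fin.sum_univ_three] at h2
  omega

/-- S1: reduction of polynomials on the sphere -/
theorem S1_red (P : MvPolynomial (Fin 3) ℝ) (L : ℕ) (hP : P.totalDegree ≤ L) :
    ∃ c : ℕ → ℝ, ∀ w : S2, ev P (w : E) =
      ∑ k ∈ Finset.range ((L + 1) ^ 2), c k * ev (mon k) (w : E) :=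
  (S1_memV L _).1 (S1_mem P L hP)

end

end Pool.Agent.H379R3.RC
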