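import Pool.Agent.H379R3.RC.S1

/-! S2: Gram-Schmidt for the monomials `mon k` (helper726 for helper379). -/

set_option autoImplicit false

open MeasureTheory Set Metric Real MvPolynomial
open Pool.Helper490.SH

namespace Pool.Agent.H379R3.RC

noncomputable section

lemma S2_cont (P : MvPolynomial (Fin 3) ℝ) : Continuous fun w : S2 => ev P (w : E) := by
  have h1 : Continuous fun x : E => ev P x := by
    unfold ev
    have h2 : (fun x : E => MvPolynomial.eval (fun i => x i) P) =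
        (fun x : Fin 3 → ℝ => MvPolynomial.eval x P) ∘ fun (x : E) i => x i := rfl
    rw [h2]
    refine (MvPolynomial.continuous_eval P).comp ?_
    exact continuous_pi fun i => (EuclideanSpace.proj i : E →L[ℝ] ℝ).continuous
  exact h1.comp continuous_subtype_val

lemma S2_int {f : S2 → ℝ} (hf : Continuous f) : Integrable f sig :=
  hf.integrable_of_hasCompactSupport (HasCompactSupport.of_compactSpace f)

/-- the inner product -/
def S2_ip (P Q : MvPolynomial (Fin 3) ℝ) : ℝ := ∫ w : S2, ev P (w : E) * ev Q (w : E) ∂sig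

lemma S2_evC (c : ℝ) (P : MvPolynomial (Fin 3) ℝ) (x : E) : ev (C c * P) x = c * ev P x := by
  simp [ev]

lemma S2_ev_sub (P Q : MvPolynomial (Fin 3) ℝ) (x : E) : ev (P - Q) x = ev P x - ev Q x := by
  simp [ev]

lemma S2_ev_sum {α : Type} (s : Finset α) (P : α → MvPolynomial (Fin 3) ℝ) (x : E) :
    ev (∑ i ∈ s, P i) x = ∑ i ∈ s, ev (P i) x := by
  simp [ev]

lemma S2_ip_C (c : ℝ) (P Q : MvPolynomial (Fin 3) ℝ) : S2_ip (C c * P) Q = c * S2_ip P Q := by
  unfold S2_ip
  simp only [S2_evC, mul_assoc]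
  rw [integral_const_mul]

lemma S2_ip_comm (P Q : MvPolynomial (Fin 3) ℝ) : S2_ip P Q = S2_ip Q P := by
  unfold S2_ip
  simp only [mul_comm]

lemma S2_ip_sub (P P' Q : MvPolynomial (Fin 3) ℝ) :
    S2_ip (P - P') Q = S2_ip P Q - S2_ip P' Q := by
  unfold S2_ip
  simp only [S2_ev_sub, sub_mul]
  exact integral_sub (S2_int ((S2_cont P).mul (S2_cont Q))) (S2_int ((S2_cont P').mul (S2_cont Q)))

lemma S2_ip_sum {α : Type} (s : Finset α) (P : α → MvPolynomial (Fin 3) ℝ)
    (Q : MvPolynomial (Fin 3) ℝ) : S2_ip (∑ i ∈ s, P i) Q = ∑ i ∈ s, S2_ip (P i) Q := by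
  unfold S2_ip
  simp only [S2_ev_sum, Finset.sum_mul]
  exact integral_finsetSum s fun i _ => S2_int ((S2_cont (P i)).mul (S2_cont Q))

lemma S2_ip_nonneg (P : MvPolynomial (Fin 3) ℝ) : 0 ≤ S2_ip P P :=
  integral_nonneg fun _ => mul_self_nonneg _

lemma S2_ip_zero {P : MvPolynomial (Fin 3) ℝ} (h : S2_ip P P = 0) (w : S2) : ev P (w : E) = 0 := by
  have hc := (S2_cont P).mul (S2_cont P)
  have : (sig : Measure S2).IsOpenPosMeasure := by unfold sig; infer_instance
  have h1 := (integral_eq_zero_iff_of_nonneg (fun w : S2 => mul_self_nonneg (ev P (w : E)))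
    (S2_int hc)).1 h
  have h2 : (fun w : S2 => ev P (w : E) * ev P (w : E)) = fun _ => 0 :=
    (Continuous.ae_eq_iff_eq sig hc continuous_const).1 h1
  exact mul_self_eq_zero.1 (congrFun h2 w)

/-- the Gram-Schmidt polynomials -/
def S2_Y (k : ℕ) : MvPolynomial (Fin 3) ℝ :=
  let Z := mon k - ∑ j : Fin k, C (S2_ip (mon k) (S2_Y j)) * S2_Y j
  C ((√(S2_ip Z Z))⁻¹) * Z
termination_by k
decreasing_by exact j.2

/-- before normalisation -/
def S2_Z (k : ℕ) : MvPolynomial (Fin 3) ℝ :=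
  mon k - ∑ j ∈ Finset.range k, C (S2_ip (mon k) (S2_Y j)) * S2_Y j

lemma S2_Y_eq (k : ℕ) : S2_Y k = C ((√(S2_ip (S2_Z k) (S2_Z k)))⁻¹) * S2_Z k := by
  have h : S2_Z k = mon k - ∑ j : Fin k, C (S2_ip (mon k) (S2_Y j)) * S2_Y j := by
    unfold S2_Z
    rw [Finset.sum_range]
  rw [h, S2_Y]

lemma S2_norm (k : ℕ) : S2_ip (S2_Y k) (S2_Y k) = 0 ∧ S2_Y k = 0 ∨ S2_ip (S2_Y k) (S2_Y k) = 1 := by
  have h0 := S2_ip_nonneg (S2_Z k)
  rcases h0.lt_or_eq with h | h
  · right
    rw [S2_Y_eq, S2_ip_C, S2_ip_comm (S2_Z k) (C _ * S2_Z k), S2_ip_C, ← mul_assoc, ← mul_inv,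
      Real.mul_self_sqrt h0, inv_mul_cancel₀ h.ne']
  · left
    have : S2_Y k = 0 := by
      rw [S2_Y_eq, ← h, Real.sqrt_zero, inv_zero, C_0, zero_mul]
    refine ⟨?_, this⟩
    rw [this]
    simp [S2_ip, ev]

lemma S2_orth_lt (k : ℕ) : ∀ j < k, S2_ip (S2_Y k) (S2_Y j) = 0 := by
  induction k using Nat.strong_induction_on with
  | _ k ih =>
    intro j hj
    rw [S2_Y_eq, S2_ip_C]
    have hZ : S2_ip (S2_Z k) (S2_Y j) = 0 := by
      unfold S2_Z
      rw [S2_ip_sub, S2_ip_sum, Finset.sum_eq_single_of_mem j (Finset.mem_range.2 hj)]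
      · rw [S2_ip_C]
        rcases S2_norm j with h | h
        · rw [h.2]
          simp [S2_ip, ev]
        · rw [h]; ring
      · intro i hi hij
        rw [Finset.mem_range] at hi
        rw [S2_ip_C]
        rcases Nat.lt_or_gt_of_ne hij with h | h
        · rw [S2_ip_comm (S2_Y i), ih j hj i h, mul_zero]
        · rw [ih i hi j h, mul_zero]
    rw [hZ, mul_zero]

lemma S2_deg (k : ℕ) : (S2_Y k).totalDegree ≤ Nat.sqrt k := by
  induction k using Nat.strong_induction_on with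
  | _ k ih =>
    have hC : ∀ (c : ℝ) (P : MvPolynomial (Fin 3) ℝ), (C c * P).totalDegree ≤ P.totalDegree := by
      intro c P
      refine (totalDegree_mul _ _).trans ?_
      rw [totalDegree_C, zero_add]
    rw [S2_Y_eq]
    refine (hC _ _).trans ?_
    unfold S2_Z
    refine (totalDegree_sub _ _).trans (max_le (S1_deg k) ?_)
    apply totalDegree_finsetSum_le
    intro i hi
    rw [Finset.mem_range] at hi
    exact (hC _ _).trans ((ih i hi).trans (Nat.sqrt_le_sqrt hi.le))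

/-- the span of the `Y k` -/
def S2_V (L : ℕ) : Submodule ℝ (S2 → ℝ) :=
  Submodule.span ℝ ((fun (k : ℕ) (w : S2) => ev (S2_Y k) (w : E)) ''
    (Finset.range ((L + 1) ^ 2) : Set ℕ))

lemma S2_mon (L k : ℕ) (hk : k < (L + 1) ^ 2) :
    (fun w : S2 => ev (mon k) (w : E)) ∈ S2_V L := by
  have hY : ∀ j, j < (L + 1) ^ 2 → (fun w : S2 => ev (S2_Y j) (w : E)) ∈ S2_V L := fun j hj =>
    Submodule.subset_span ⟨j, by simpa using hj, rfl⟩
  have hZ : (fun w : S2 => ev (S2_Z k) (w : E)) ∈ S2_V L := by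
    have h0 := S2_ip_nonneg (S2_Z k)
    rcases h0.lt_or_eq with h | h
    · have h1 : (fun w : S2 => ev (S2_Z k) (w : E)) = √(S2_ip (S2_Z k) (S2_Z k)) •
          fun w : S2 => ev (S2_Y k) (w : E) := by
        funext w
        rw [S2_Y_eq, Pi.smul_apply, S2_evC, smul_eq_mul, ← mul_assoc,
          mul_inv_cancel₀ (Real.sqrt_pos.2 h).ne', one_mul]
      rw [h1]
      exact Submodule.smul_mem _ _ (hY k hk)
    · have h1 : (fun w : S2 => ev (S2_Z k) (w : E)) = 0 := by
        funext w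
        exact S2_ip_zero h.symm w
      rw [h1]
      exact Submodule.zero_mem _
  have h2 : (fun w : S2 => ev (mon k) (w : E)) = (fun w : S2 => ev (S2_Z k) (w : E)) +
      ∑ j ∈ Finset.range k, S2_ip (mon k) (S2_Y j) • fun w : S2 => ev (S2_Y j) (w : E) := by
    funext w
    rw [Pi.add_apply, Finset.sum_apply]
    unfold S2_Z
    rw [S2_ev_sub, S2_ev_sum]
    simp only [S2_evC, Pi.smul_apply, smul_eq_mul]
    ring
  rw [h2]
  refine Submodule.add_mem _ hZ (Submodule.sum_mem _ fun j hj => Submodule.smul_mem _ _ (hY j ?_))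
  rw [Finset.mem_range] at hj
  omega

/-- S2: Gram-Schmidt (uses S1_red, S1_deg) -/
theorem S2_gs : ∃ Y : ℕ → MvPolynomial (Fin 3) ℝ, Fam0 Y := by
  refine ⟨S2_Y, ?_, ?_, S2_deg, ?_⟩
  · intro j k hjk
    rcases Nat.lt_or_gt_of_ne hjk with h | h
    · have := S2_orth_lt k j h
      rw [S2_ip_comm] at this
      exact this
    · exact S2_orth_lt j k h
  · intro k
    have h := S2_norm k
    have e : ∫ w : S2, ev (S2_Y k) (w : E) ^ 2 ∂sig = S2_ip (S2_Y k) (S2_Y k) := by
      unfold S2_ip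
      simp only [sq]
    rw [e]
    rcases h with h | h
    · exact Or.inl h.1
    · exact Or.inr h
  · intro P L hP
    have h1 : S1_V L ≤ S2_V L := by
      unfold S1_V
      rw [Submodule.span_le]
      rintro _ ⟨k, hk, rfl⟩
      exact S2_mon L k (by simpa using hk)
    have h2 := h1 (S1_mem P L hP)
    unfold S2_V at h2
    rw [Submodule.mem_span_image_finset_iff_exists_fun'] at h2
    obtain ⟨c, hc⟩ := h2
    refine ⟨c, fun w => ?_⟩
    have h3 := congrFun hc w
    rw [Finset.sum_apply] at h3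
    exact h3.symm

end

end Pool.Agent.H379R3.RC
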