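import Pool.Agent.H379R3.RC.Defs

/-! Green's formulas on the sphere. -/

set_option autoImplicit false

open MeasureTheory Set Metric Real MvPolynomial
open Pool.Helper490.SH

namespace Pool.Agent.H379R3.RC

noncomputable section

theorem LF_smooth (a b : Fin 3) (f : E → ℝ) (hf : ContDiff ℝ (⊤ : ℕ∞) f) :
    ContDiff ℝ (⊤ : ℕ∞) (LF a b f) := by
  have h1 : ContDiff ℝ (⊤ : ℕ∞) (fderiv ℝ f) := hf.fderiv_right (m := (⊤ : ℕ∞)) (by simp)
  have h2 : ∀ i : Fin 3, ContDiff ℝ (⊤ : ℕ∞)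
      (fun x : E => fderiv ℝ f x (EuclideanSpace.single i 1)) :=
    fun i => h1.clm_apply contDiff_const
  have h3 : ∀ i : Fin 3, ContDiff ℝ (⊤ : ℕ∞) (fun x : E => x i) :=
    fun i => (EuclideanSpace.proj i : E →L[ℝ] ℝ).contDiff
  exact ((h3 a).mul (h2 b)).sub ((h3 b).mul (h2 a))

theorem LF_mul (a b : Fin 3) (f g : E → ℝ) (hf : Differentiable ℝ f) (hg : Differentiable ℝ g)
    (x : E) : LF a b (fun y => f y * g y) x = LF a b f x * g x + f x * LF a b g x := by
  unfold LF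
  rw [fderiv_fun_mul (hf x) (hg x)]
  simp only [add_apply, smul_apply, smul_eq_mul]
  ring

theorem integrable_S2 (f : E → ℝ) (hf : Continuous f) : Integrable (fun w : S2 => f (w : E)) sig :=
  (hf.comp continuous_subtype_val).integrable_of_hasCompactSupport
    (HasCompactSupport.of_compactSpace _)

theorem LF_parts (a b : Fin 3) (f g : E → ℝ) (hf : ContDiff ℝ (⊤ : ℕ∞) f)
    (hg : ContDiff ℝ (⊤ : ℕ∞) g) :
    ∫ w : S2, LF a b f (w : E) * g (w : E) ∂sig = -∫ w : S2, f (w : E) * LF a b g (w : E) ∂sig := by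
  have h0 := LF_integral a b (fun y => f y * g y)
    ((hf.mul hg).of_le (by exact_mod_cast le_top))
  have h1 : ∀ w : S2, LF a b (fun y => f y * g y) (w : E) =
      LF a b f (w : E) * g (w : E) + f (w : E) * LF a b g (w : E) := fun w =>
    LF_mul a b f g (hf.differentiable (by simp)) (hg.differentiable (by simp)) _
  simp only [h1] at h0
  rw [integral_add (integrable_S2 (fun y => LF a b f y * g y)
      ((LF_smooth a b f hf).continuous.mul hg.continuous))
    (integrable_S2 (fun y => f y * LF a b g y)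
      (hf.continuous.mul (LF_smooth a b g hg).continuous))] at h0
  linarith

theorem LF_twice (a b : Fin 3) (f g : E → ℝ) (hf : ContDiff ℝ (⊤ : ℕ∞) f)
    (hg : ContDiff ℝ (⊤ : ℕ∞) g) :
    ∫ w : S2, LF a b (LF a b f) (w : E) * g (w : E) ∂sig =
      ∫ w : S2, f (w : E) * LF a b (LF a b g) (w : E) ∂sig := by
  rw [LF_parts a b (LF a b f) g (LF_smooth a b f hf) hg,
    LF_parts a b f (LF a b g) hf (LF_smooth a b g hg), neg_neg]

theorem int3 (u v w : S2 → ℝ) (hu : Integrable u sig) (hv : Integrable v sig)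
    (hw : Integrable w sig) :
    ∫ x, (u x + v x + w x) ∂sig = ∫ x, u x ∂sig + ∫ x, v x ∂sig + ∫ x, w x ∂sig := by
  have h1 := integral_add (hu.add hv) hw
  have h2 := integral_add hu hv
  simp only [Pi.add_apply] at h1
  rw [h1, h2]

/-- minus the Laplace operator of the sphere -/
def LB (f : E → ℝ) (x : E) : ℝ :=
  -(LF 0 1 (LF 0 1 f) x + LF 0 2 (LF 0 2 f) x + LF 1 2 (LF 1 2 f) x)

theorem LB_continuous (f : E → ℝ) (hf : ContDiff ℝ (⊤ : ℕ∞) f) : Continuous (LB f) := by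
  have h : ∀ a b : Fin 3, Continuous (LF a b (LF a b f)) := fun a b =>
    (LF_smooth a b _ (LF_smooth a b f hf)).continuous
  exact (((h 0 1).add (h 0 2)).add (h 1 2)).neg

theorem LB_ev (P : MvPolynomial (Fin 3) ℝ) (x : E) : LB (ev P) x = ev (Lam P) x := by
  have h : ∀ a b : Fin 3, LF a b (LF a b (ev P)) x = ev (LP a b (LP a b P)) x := by
    intro a b
    have h1 : LF a b (ev P) = ev (LP a b P) := by
      funext y; exact LF_ev a b P y
    rw [h1, LF_ev]
  unfold LB Lam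
  rw [h, h, h]
  simp [ev]

theorem LB_symm (f g : E → ℝ) (hf : ContDiff ℝ (⊤ : ℕ∞) f) (hg : ContDiff ℝ (⊤ : ℕ∞) g) :
    ∫ w : S2, LB f (w : E) * g (w : E) ∂sig = ∫ w : S2, f (w : E) * LB g (w : E) ∂sig := by
  have hi : ∀ (a b : Fin 3) (f g : E → ℝ), ContDiff ℝ (⊤ : ℕ∞) f → ContDiff ℝ (⊤ : ℕ∞) g →
      Integrable (fun w : S2 => LF a b (LF a b f) (w : E) * g (w : E)) sig := fun a b f g hf hg =>
    integrable_S2 (fun y => LF a b (LF a b f) y * g y)
      ((LF_smooth a b _ (LF_smooth a b f hf)).continuous.mul hg.continuous)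
  have hi' : ∀ (a b : Fin 3) (f g : E → ℝ), ContDiff ℝ (⊤ : ℕ∞) f → ContDiff ℝ (⊤ : ℕ∞) g →
      Integrable (fun w : S2 => f (w : E) * LF a b (LF a b g) (w : E)) sig := fun a b f g hf hg =>
    integrable_S2 (fun y => f y * LF a b (LF a b g) y)
      (hf.continuous.mul (LF_smooth a b _ (LF_smooth a b g hg)).continuous)
  have e1 : ∀ w : S2, LB f (w : E) * g (w : E) = -((LF 0 1 (LF 0 1 f) (w : E) * g (w : E) +
      LF 0 2 (LF 0 2 f) (w : E) * g (w : E)) + LF 1 2 (LF 1 2 f) (w : E) * g (w : E)) := fun w => by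
    unfold LB; ring
  have e2 : ∀ w : S2, f (w : E) * LB g (w : E) = -((f (w : E) * LF 0 1 (LF 0 1 g) (w : E) +
      f (w : E) * LF 0 2 (LF 0 2 g) (w : E)) + f (w : E) * LF 1 2 (LF 1 2 g) (w : E)) := fun w => by
    unfold LB; ring
  simp only [e1, e2]
  rw [integral_neg, integral_neg, int3 _ _ _ (hi 0 1 f g hf hg) (hi 0 2 f g hf hg)
    (hi 1 2 f g hf hg), int3 _ _ _ (hi' 0 1 f g hf hg) (hi' 0 2 f g hf hg) (hi' 1 2 f g hf hg),
    LF_twice 0 1 f g hf hg, LF_twice 0 2 f g hf hg, LF_twice 1 2 f g hf hg]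

/-- S3: `Lam` is symmetric on the sphere -/
theorem S3_symm (P Q : MvPolynomial (Fin 3) ℝ) :
    ∫ w : S2, ev (Lam P) (w : E) * ev Q (w : E) ∂sig =
      ∫ w : S2, ev P (w : E) * ev (Lam Q) (w : E) ∂sig := by
  have h := LB_symm (ev P) (ev Q) (contDiff_ev P) (contDiff_ev Q)
  simp only [LB_ev] at h
  exact h

/-- S7: Green's formula on the sphere -/
theorem S7_green (f : E → ℝ) (hf : ContDiff ℝ (⊤ : ℕ∞) f) :
    ∃ g : E → ℝ, Continuous g ∧
      (∫ w : S2, ang f (w : E) ∂sig = ∫ w : S2, f (w : E) * g (w : E) ∂sig) ∧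
      ∀ P : MvPolynomial (Fin 3) ℝ, ∫ w : S2, g (w : E) * ev P (w : E) ∂sig =
        ∫ w : S2, f (w : E) * ev (Lam P) (w : E) ∂sig := by
  refine ⟨LB f, LB_continuous f hf, ?_, ?_⟩
  · have hs : ∀ a b : Fin 3, ContDiff ℝ (⊤ : ℕ∞) (LF a b f) := fun a b => LF_smooth a b f hf
    have hi : ∀ a b : Fin 3, Integrable (fun w : S2 => LF a b f (w : E) * LF a b f (w : E)) sig :=
      fun a b => integrable_S2 (fun y => LF a b f y * LF a b f y)
        ((hs a b).continuous.mul (hs a b).continuous)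
    have hi' : ∀ a b : Fin 3, Integrable (fun w : S2 => f (w : E) * LF a b (LF a b f) (w : E)) sig :=
      fun a b => integrable_S2 (fun y => f y * LF a b (LF a b f) y)
        (hf.continuous.mul (LF_smooth a b _ (hs a b)).continuous)
    have hp : ∀ a b : Fin 3, ∫ w : S2, LF a b f (w : E) * LF a b f (w : E) ∂sig =
        -∫ w : S2, f (w : E) * LF a b (LF a b f) (w : E) ∂sig := fun a b =>
      LF_parts a b f (LF a b f) hf (hs a b)
    have e1 : ∀ w : S2, ang f (w : E) = (LF 0 1 f (w : E) * LF 0 1 f (w : E) +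
        LF 0 2 f (w : E) * LF 0 2 f (w : E)) + LF 1 2 f (w : E) * LF 1 2 f (w : E) := fun w => by
      unfold ang; ring
    have e2 : ∀ w : S2, f (w : E) * LB f (w : E) = -((f (w : E) * LF 0 1 (LF 0 1 f) (w : E) +
        f (w : E) * LF 0 2 (LF 0 2 f) (w : E)) + f (w : E) * LF 1 2 (LF 1 2 f) (w : E)) :=
      fun w => by unfold LB; ring
    simp only [e1, e2]
    rw [integral_neg, int3 _ _ _ (hi 0 1) (hi 0 2) (hi 1 2),
      int3 _ _ _ (hi' 0 1) (hi' 0 2) (hi' 1 2), hp 0 1, hp 0 2, hp 1 2]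
    ring
  · intro P
    have h := LB_symm f (ev P) hf (contDiff_ev P)
    simp only [LB_ev] at h
    exact h

end

end Pool.Agent.H379R3.RC
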