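import Pool.Agent.H379R3.RC.S2
import Pool.Agent.H379R3.RC.S3

/-! # S4: the orthonormal polynomials are eigenfunctions -/

set_option autoImplicit false

open MeasureTheory Set Metric Real MvPolynomial
open Pool.Helper490.SH

namespace Pool.Agent.H379R3.RC

noncomputable section

theorem S4_low (Y : ℕ → MvPolynomial (Fin 3) ℝ) (hY : Fam0 Y) (k L : ℕ)
    (P : MvPolynomial (Fin 3) ℝ) (hP : P.totalDegree ≤ L) (hk : (L + 1) ^ 2 ≤ k) :
    S2_ip (Y k) P = 0 := by
  obtain ⟨c, hc⟩ := hY.span P L hP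
  unfold S2_ip
  simp only [hc, Finset.mul_sum]
  have h0 : ∀ j ∈ Finset.range ((L + 1) ^ 2), Integrable
      (fun w : S2 => ev (Y k) (w : E) * (c j * ev (Y j) (w : E))) sig := fun j _ =>
    S2_int ((S2_cont (Y k)).mul (continuous_const.mul (S2_cont (Y j))))
  rw [integral_finsetSum _ h0]
  refine Finset.sum_eq_zero fun j hj => ?_
  have hjk : k ≠ j := by
    have := Finset.mem_range.1 hj
    omega
  have h1 : ∀ w : S2, ev (Y k) (w : E) * (c j * ev (Y j) (w : E)) =
      c j * (ev (Y k) (w : E) * ev (Y j) (w : E)) := fun w => by ring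
  simp only [h1]
  rw [integral_const_mul, hY.orth k j hjk, mul_zero]

theorem S4_LamDeg (P : MvPolynomial (Fin 3) ℝ) : (Lam P).totalDegree ≤ P.totalDegree := by
  unfold Lam
  rw [totalDegree_neg]
  refine (totalDegree_add _ _).trans (max_le ((totalDegree_add _ _).trans (max_le ?_ ?_)) ?_)
  all_goals exact (LP_totalDegree _ _ _).trans (LP_totalDegree _ _ _)

/-- S4: the orthonormal polynomials are eigenfunctions (uses S3_symm, Lam_mod) -/
theorem S4_fam (Y : ℕ → MvPolynomial (Fin 3) ℝ) (hY : Fam0 Y) : Fam Y := by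
  refine ⟨hY, ?_⟩
  intro k w
  obtain ⟨R, hR, hRw⟩ := Lam_mod (Y k) (Nat.sqrt k) (hY.deg k)
  rw [hRw w]
  suffices h : ev R (w : E) = 0 by rw [h, add_zero]
  rcases hR with rfl | hR
  · simp [ev]
  · obtain ⟨L, hL⟩ : ∃ L, Nat.sqrt k = L + 1 := ⟨Nat.sqrt k - 1, by omega⟩
    have hk : (L + 1) ^ 2 ≤ k := by
      rw [← hL, pow_two]
      exact Nat.sqrt_le k
    have hRL : R.totalDegree ≤ L := by omega
    apply S2_ip_zero
    have h1 : S2_ip R R = (∫ w : S2, ev (Lam (Y k)) (w : E) * ev R (w : E) ∂sig) -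
        (Nat.sqrt k : ℝ) * ((Nat.sqrt k : ℝ) + 1) * S2_ip (Y k) R := by
      unfold S2_ip
      rw [← integral_const_mul, ← integral_sub]
      · refine integral_congr_ae (Filter.Eventually.of_forall fun w => ?_)
        simp only [hRw w]
        ring
      · exact S2_int ((S2_cont _).mul (S2_cont _))
      · exact S2_int (continuous_const.mul ((S2_cont _).mul (S2_cont _)))
    rw [h1, S3_symm, S4_low Y hY k L R hRL hk]
    have h2 := S4_low Y hY k L (Lam R) ((S4_LamDeg R).trans hRL) hk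
    unfold S2_ip at h2
    rw [h2]
    ring

end

end Pool.Agent.H379R3.RC
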