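import Pool.Agent.H379R3.RC.Defs

set_option autoImplicit false

open MeasureTheory Set Metric Real MvPolynomial
open Pool.Helper490.SH

namespace Pool.Agent.H379R3.RC

noncomputable section

/-- restriction of polynomials to the sphere -/
private def S5_hom : MvPolynomial (Fin 3) ℝ →ₐ[ℝ] C(S2, ℝ) :=
  MvPolynomial.aeval (fun i => (⟨fun w => (w : E) i, by fun_prop⟩ : C(S2, ℝ)))

private theorem S5_hom_apply (P : MvPolynomial (Fin 3) ℝ) (w : S2) : S5_hom P w = ev P (w : E) := by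
  have h : (ContinuousMap.evalAlgHom ℝ ℝ w).comp S5_hom = MvPolynomial.aeval (fun i => (w : E) i) := by
    apply MvPolynomial.algHom_ext
    intro i
    simp [S5_hom]
  have h2 : S5_hom P w = MvPolynomial.aeval (fun i => (w : E) i) P := congrArg (fun g => g P) h
  rw [h2]
  exact congrArg (fun g => g P) (MvPolynomial.coe_aeval_eq_eval (fun i => (w : E) i))

/-- S5: Stone-Weierstrass on the sphere -/
theorem S5_dens (f : S2 → ℝ) (hf : Continuous f) (ε : ℝ) (hε : 0 < ε) :
    ∃ P : MvPolynomial (Fin 3) ℝ, ∀ w : S2, |f w - ev P (w : E)| ≤ ε := by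
  have hsep : S5_hom.range.SeparatesPoints := by
    intro x y hxy
    have : ∃ i, (x : E) i ≠ (y : E) i := by
      by_contra h
      push Not at h
      exact hxy (Subtype.ext (by ext i; exact h i))
    obtain ⟨i, hi⟩ := this
    refine ⟨_, ⟨S5_hom (X i), ⟨X i, rfl⟩, rfl⟩, ?_⟩
    simpa [S5_hom] using hi
  have htop := ContinuousMap.subalgebra_topologicalClosure_eq_top_of_separatesPoints _ hsep
  have hmem : (⟨f, hf⟩ : C(S2, ℝ)) ∈ S5_hom.range.topologicalClosure := by rw [htop]; trivial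
  have hmem' : (⟨f, hf⟩ : C(S2, ℝ)) ∈ closure (S5_hom.range : Set C(S2, ℝ)) := hmem
  rw [Metric.mem_closure_iff] at hmem'
  obtain ⟨g, ⟨P, hP⟩, hg⟩ := hmem' ε hε
  refine ⟨P, fun w => ?_⟩
  have h1 := ContinuousMap.dist_apply_le_dist (f := (⟨f, hf⟩ : C(S2, ℝ))) (g := g) w
  rw [Real.dist_eq, ← hP] at h1
  have h2 : S5_hom.toRingHom P w = ev P (w : E) := S5_hom_apply P w
  have h3 : |f w - ev P (w : E)| ≤ dist (⟨f, hf⟩ : C(S2, ℝ)) g := by
    rw [← h2]; rw [← hP]; exact h1
  linarith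

end

end Pool.Agent.H379R3.RC
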