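import Pool.Agent.H379R3.RC.Defs
import Pool.Agent.H379R3.RC.S3
import Pool.Agent.H379R3.RC.S6

/-! S8: the angular inequality (helper959). -/

set_option autoImplicit false

open MeasureTheory Set Metric Real MvPolynomial
open Pool.Helper490.SH

namespace Pool.Agent.H379R3.RC

noncomputable section

private theorem S8_int (f : S2 → ℝ) (hf : Continuous f) : Integrable f sig :=
  hf.integrable_of_hasCompactSupport (HasCompactSupport.of_compactSpace f)

private theorem S8_ev (P : MvPolynomial (Fin 3) ℝ) : Continuous (fun w : S2 => ev P (w : E)) :=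
  (contDiff_ev P).continuous.comp continuous_subtype_val

/-- S8: the angular inequality (uses S6_pars, S7_green) -/
theorem S8_ang (Y : ℕ → MvPolynomial (Fin 3) ℝ) (hY : Fam Y) (f : E → ℝ)
    (hf : ContDiff ℝ (⊤ : ℕ∞) f) (K : ℕ) :
    (∑ k ∈ Finset.range (K ^ 2), (Nat.sqrt k : ℝ) * ((Nat.sqrt k : ℝ) + 1) *
        (∫ w : S2, f (w : E) * ev (Y k) (w : E) ∂sig) ^ 2) +
      (K : ℝ) * ((K : ℝ) + 1) * ((∫ w : S2, f (w : E) ^ 2 ∂sig) -
        ∑ k ∈ Finset.range (K ^ 2), (∫ w : S2, f (w : E) * ev (Y k) (w : E) ∂sig) ^ 2) ≤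
      ∫ w : S2, ang f (w : E) ∂sig := by
  obtain ⟨g, hg, hang, hgP⟩ := S7_green f hf
  have hfc : Continuous (fun w : S2 => f (w : E)) := hf.continuous.comp continuous_subtype_val
  have hgc : Continuous (fun w : S2 => g (w : E)) := hg.comp continuous_subtype_val
  set c : ℕ → ℝ := fun k => ∫ w : S2, f (w : E) * ev (Y k) (w : E) ∂sig with hc
  have hb : ∀ k, ∫ w : S2, g (w : E) * ev (Y k) (w : E) ∂sig =
      (Nat.sqrt k : ℝ) * ((Nat.sqrt k : ℝ) + 1) * c k := by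
    intro k
    rw [hgP, hc, ← integral_const_mul]
    refine integral_congr_ae (Filter.Eventually.of_forall fun w => ?_)
    simp only
    rw [hY.lam k w]
    ring
  have h0 := S6_pars Y hY.toFam0 _ hfc
  have h1 : HasSum (fun k => (∫ w : S2, (f (w : E) + g (w : E)) * ev (Y k) (w : E) ∂sig) ^ 2)
      (∫ w : S2, (f (w : E) + g (w : E)) ^ 2 ∂sig) :=
    S6_pars Y hY.toFam0 (fun w : S2 => f (w : E) + g (w : E)) (hfc.add hgc)
  have h2 : HasSum (fun k => (∫ w : S2, (f (w : E) - g (w : E)) * ev (Y k) (w : E) ∂sig) ^ 2)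
      (∫ w : S2, (f (w : E) - g (w : E)) ^ 2 ∂sig) :=
    S6_pars Y hY.toFam0 (fun w : S2 => f (w : E) - g (w : E)) (hfc.sub hgc)
  have e1 : ∀ k, ∫ w : S2, (f (w : E) + g (w : E)) * ev (Y k) (w : E) ∂sig =
      c k + (Nat.sqrt k : ℝ) * ((Nat.sqrt k : ℝ) + 1) * c k := by
    intro k
    rw [← hb k, hc]
    simp only [add_mul]
    exact integral_add (S8_int _ (hfc.mul (S8_ev _))) (S8_int _ (hgc.mul (S8_ev _)))
  have e2 : ∀ k, ∫ w : S2, (f (w : E) - g (w : E)) * ev (Y k) (w : E) ∂sig =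
      c k - (Nat.sqrt k : ℝ) * ((Nat.sqrt k : ℝ) + 1) * c k := by
    intro k
    rw [← hb k, hc]
    simp only [sub_mul]
    exact integral_sub (S8_int _ (hfc.mul (S8_ev _))) (S8_int _ (hgc.mul (S8_ev _)))
  have e3 : (∫ w : S2, (f (w : E) + g (w : E)) ^ 2 ∂sig) -
      (∫ w : S2, (f (w : E) - g (w : E)) ^ 2 ∂sig) = 4 * ∫ w : S2, ang f (w : E) ∂sig := by
    have i1 : Integrable (fun w : S2 => (f (w : E) + g (w : E)) ^ 2) sig :=
      S8_int _ ((hfc.add hgc).pow 2)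
    have i2 : Integrable (fun w : S2 => (f (w : E) - g (w : E)) ^ 2) sig :=
      S8_int _ ((hfc.sub hgc).pow 2)
    rw [hang, ← integral_const_mul, ← integral_sub i1 i2]
    refine integral_congr_ae (Filter.Eventually.of_forall fun w => ?_)
    simp only
    ring
  have h3 : HasSum (fun k => (Nat.sqrt k : ℝ) * ((Nat.sqrt k : ℝ) + 1) * c k ^ 2)
      (∫ w : S2, ang f (w : E) ∂sig) := by
    have h4 := (h1.sub h2).mul_left (1 / 4 : ℝ)
    have e4 : (1 / 4 : ℝ) * ((∫ w : S2, (f (w : E) + g (w : E)) ^ 2 ∂sig) -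
        (∫ w : S2, (f (w : E) - g (w : E)) ^ 2 ∂sig)) = ∫ w : S2, ang f (w : E) ∂sig := by
      rw [e3]; ring
    rw [e4] at h4
    have e6 : (fun k => (1 / 4 : ℝ) *
        ((∫ w : S2, (f (w : E) + g (w : E)) * ev (Y k) (w : E) ∂sig) ^ 2 -
          (∫ w : S2, (f (w : E) - g (w : E)) * ev (Y k) (w : E) ∂sig) ^ 2)) =
        fun k => (Nat.sqrt k : ℝ) * ((Nat.sqrt k : ℝ) + 1) * c k ^ 2 := by
      funext k
      rw [e1, e2]
      ring
    rw [e6] at h4
    exact h4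
  have h5 : HasSum (fun k => ((Nat.sqrt k : ℝ) * ((Nat.sqrt k : ℝ) + 1) -
      (K : ℝ) * ((K : ℝ) + 1)) * c k ^ 2)
      ((∫ w : S2, ang f (w : E) ∂sig) - (K : ℝ) * ((K : ℝ) + 1) * ∫ w : S2, f (w : E) ^ 2 ∂sig) := by
    have h6 := h3.sub (h0.mul_left ((K : ℝ) * ((K : ℝ) + 1)))
    have e7 : (fun k => (Nat.sqrt k : ℝ) * ((Nat.sqrt k : ℝ) + 1) * c k ^ 2 -
        (K : ℝ) * ((K : ℝ) + 1) * (∫ w : S2, f (w : E) * ev (Y k) (w : E) ∂sig) ^ 2) =
        fun k => ((Nat.sqrt k : ℝ) * ((Nat.sqrt k : ℝ) + 1) -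
          (K : ℝ) * ((K : ℝ) + 1)) * c k ^ 2 := by
      funext k
      have : (∫ w : S2, f (w : E) * ev (Y k) (w : E) ∂sig) = c k := rfl
      rw [this]
      ring
    rw [e7] at h6
    exact h6
  have h7 := sum_le_hasSum (Finset.range (K ^ 2)) (fun k hk => ?_) h5
  · have e5 : ∑ k ∈ Finset.range (K ^ 2), ((Nat.sqrt k : ℝ) * ((Nat.sqrt k : ℝ) + 1) -
        (K : ℝ) * ((K : ℝ) + 1)) * c k ^ 2 =
        ∑ k ∈ Finset.range (K ^ 2), (Nat.sqrt k : ℝ) * ((Nat.sqrt k : ℝ) + 1) * c k ^ 2 -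
        (K : ℝ) * ((K : ℝ) + 1) * ∑ k ∈ Finset.range (K ^ 2), c k ^ 2 := by
      rw [Finset.mul_sum, ← Finset.sum_sub_distrib]
      refine Finset.sum_congr rfl fun k _ => ?_
      ring
    rw [e5] at h7
    have e8 : ∀ k, (∫ w : S2, f (w : E) * ev (Y k) (w : E) ∂sig) = c k := fun k => rfl
    simp only [e8]
    linarith
  · rw [Finset.mem_range, not_lt] at hk
    apply mul_nonneg _ (sq_nonneg _)
    have hK : K ≤ Nat.sqrt k := by
      rw [Nat.le_sqrt']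
      exact hk
    have hKr : (K : ℝ) ≤ (Nat.sqrt k : ℝ) := by exact_mod_cast hK
    have hK0 : (0 : ℝ) ≤ (K : ℝ) := Nat.cast_nonneg _
    nlinarith

end

end Pool.Agent.H379R3.RC
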