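import Pool.Agent.H379R3.RC.Defs

/-! STUBS (never import this file in a finished module). -/

set_option autoImplicit false

open MeasureTheory Set Metric Real MvPolynomial
open Pool.Helper490.SH

namespace Pool.Agent.H379R3.RC

noncomputable section

/-! ### sphere -/

/-- S1: reduction of polynomials on the sphere -/
theorem S1_red (P : MvPolynomial (Fin 3) ℝ) (L : ℕ) (hP : P.totalDegree ≤ L) :
    ∃ c : ℕ → ℝ, ∀ w : S2, ev P (w : E) =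
      ∑ k ∈ Finset.range ((L + 1) ^ 2), c k * ev (mon k) (w : E) := by
  sorry

/-- S1': the degree of the monomials -/
theorem S1_deg (k : ℕ) : (mon k).totalDegree ≤ Nat.sqrt k := by
  sorry

/-- S2: Gram-Schmidt (uses S1_red, S1_deg) -/
theorem S2_gs : ∃ Y : ℕ → MvPolynomial (Fin 3) ℝ, Fam0 Y := by
  sorry

/-- S3: `Lam` is symmetric on the sphere -/
theorem S3_symm (P Q : MvPolynomial (Fin 3) ℝ) :
    ∫ w : S2, ev (Lam P) (w : E) * ev Q (w : E) ∂sig =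
      ∫ w : S2, ev P (w : E) * ev (Lam Q) (w : E) ∂sig := by
  sorry

/-- S4: the orthonormal polynomials are eigenfunctions (uses S3_symm, Lam_mod) -/
theorem S4_fam (Y : ℕ → MvPolynomial (Fin 3) ℝ) (hY : Fam0 Y) : Fam Y := by
  sorry

/-- S5: Stone-Weierstrass on the sphere -/
theorem S5_dens (f : S2 → ℝ) (hf : Continuous f) (ε : ℝ) (hε : 0 < ε) :
    ∃ P : MvPolynomial (Fin 3) ℝ, ∀ w : S2, |f w - ev P (w : E)| ≤ ε := by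
  sorry

/-- S6: Parseval (uses S5_dens) -/
theorem S6_pars (Y : ℕ → MvPolynomial (Fin 3) ℝ) (hY : Fam0 Y) (f : S2 → ℝ) (hf : Continuous f) :
    HasSum (fun k => (∫ w : S2, f w * ev (Y k) (w : E) ∂sig) ^ 2) (∫ w : S2, f w ^ 2 ∂sig) := by
  sorry

/-- S7: Green's formula on the sphere -/
theorem S7_green (f : E → ℝ) (hf : ContDiff ℝ (⊤ : ℕ∞) f) :
    ∃ g : E → ℝ, Continuous g ∧
      (∫ w : S2, ang f (w : E) ∂sig = ∫ w : S2, f (w : E) * g (w : E) ∂sig) ∧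
      ∀ P : MvPolynomial (Fin 3) ℝ, ∫ w : S2, g (w : E) * ev P (w : E) ∂sig =
        ∫ w : S2, f (w : E) * ev (Lam P) (w : E) ∂sig := by
  sorry

/-- S8: the angular inequality (uses S6_pars, S7_green) -/
theorem S8_ang (Y : ℕ → MvPolynomial (Fin 3) ℝ) (hY : Fam Y) (f : E → ℝ)
    (hf : ContDiff ℝ (⊤ : ℕ∞) f) (K : ℕ) :
    (∑ k ∈ Finset.range (K ^ 2), (Nat.sqrt k : ℝ) * ((Nat.sqrt k : ℝ) + 1) *
        (∫ w : S2, f (w : E) * ev (Y k) (w : E) ∂sig) ^ 2) +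
      (K : ℝ) * ((K : ℝ) + 1) * ((∫ w : S2, f (w : E) ^ 2 ∂sig) -
        ∑ k ∈ Finset.range (K ^ 2), (∫ w : S2, f (w : E) * ev (Y k) (w : E) ∂sig) ^ 2) ≤
      ∫ w : S2, ang f (w : E) ∂sig := by
  sorry

/-- S9: Bessel's inequality -/
theorem S9_bessel (Y : ℕ → MvPolynomial (Fin 3) ℝ) (hY : Fam0 Y) (f : S2 → ℝ) (hf : Continuous f)
    (m : ℕ) : ∑ k ∈ Finset.range m, (∫ w : S2, f w * ev (Y k) (w : E) ∂sig) ^ 2 ≤
      ∫ w : S2, f w ^ 2 ∂sig := by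
  sorry

/-! ### polar coordinates -/

/-- P1: polar coordinates -/
theorem P1_polar (f : E → ℝ) (hf : Integrable f) :
    IntegrableOn (fun r : ℝ => r ^ 2 * ∫ w : S2, f (r • (w : E)) ∂sig) (Ioi 0) ∧
    ∫ x, f x = ∫ r in Ioi (0 : ℝ), r ^ 2 * ∫ w : S2, f (r • (w : E)) ∂sig := by
  sorry

/-- P2: total mass -/
theorem P2_mass : sig.real univ = 4 * π := by
  sorry

/-- P3: the potential in logarithmic coordinates (uses P1, P2) -/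
theorem P3_VV (W : E → ℝ) (hWm : Measurable W) (hW0 : ∀ x, 0 ≤ W x) (hWr : Rad W)
    (hWi : Integrable (fun x => W x ^ (3 / 2 : ℝ))) :
    MemLp (VV W) (3 / 2) ∧
      ∫ t, (max (VV W t) 0) ^ (3 / 2 : ℝ) = (1 / (4 * π)) * ∫ x, W x ^ (3 / 2 : ℝ) := by
  sorry

/-- P4: pointwise decomposition of the gradient -/
theorem P4_grad (u : E → ℝ) (hu : ContDiff ℝ (⊤ : ℕ∞) u) (r : ℝ) (w : S2) :
    r ^ 2 * ‖fderiv ℝ u (r • (w : E))‖ ^ 2 =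
      r ^ 2 * (fderiv ℝ u (r • (w : E)) (w : E)) ^ 2 + ang u (r • (w : E)) := by
  sorry

/-- P5: rotation derivatives and dilations -/
theorem P5_dil (u : E → ℝ) (hu : ContDiff ℝ (⊤ : ℕ∞) u) (r : ℝ) (x : E) :
    ang (fun y => u (r • y)) x = ang u (r • x) := by
  sorry

/-! ### the coefficient functions -/

/-- R1: derivative of the coefficients -/
theorem R1_ck (P : MvPolynomial (Fin 3) ℝ) (u : E → ℝ) (hu : Cc u) :
    (∀ r, HasDerivAt (ck P u) (ckd P u r) r) ∧ Continuous (ckd P u) ∧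
      ∃ R : ℝ, 0 < R ∧ ∀ r, R ≤ |r| → ck P u r = 0 ∧ ckd P u r = 0 := by
  sorry

/-- R2: the coefficients in logarithmic coordinates are in `H¹` (uses R1_ck) -/
theorem R2_H1 (P : MvPolynomial (Fin 3) ℝ) (u : E → ℝ) (hu : Cc u) : vk P u ∈ H1 := by
  sorry

/-- R3: the form in logarithmic coordinates (uses R1_ck, R2_H1, R4_loc) -/
theorem R3_qf (W : E → ℝ) (hWm : Measurable W) (hW0 : ∀ x, 0 ≤ W x) (hWr : Rad W)
    (hWi : Integrable (fun x => W x ^ (3 / 2 : ℝ)))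
    (P : MvPolynomial (Fin 3) ℝ) (l : ℕ) (u : E → ℝ) (hu : Cc u) :
    qf (VV W) l (vk P u) = AA W P l u := by
  sorry

/-- R4: local integrability of the potential (uses P1) -/
theorem R4_loc (W : E → ℝ) (hWm : Measurable W) (hW0 : ∀ x, 0 ≤ W x) (hWr : Rad W)
    (hWi : Integrable (fun x => W x ^ (3 / 2 : ℝ))) :
    (∀ f : E → ℝ, Continuous f → HasCompactSupport f → Integrable (fun x => W x * f x)) ∧
    ∀ R : ℝ, IntegrableOn (fun r : ℝ => W (r • e0) * r ^ 2) (Ioc 0 R) := by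
  sorry

/-- R5: the main inequality (uses S8, S9, P1, P4, P5, R1, R4) -/
theorem R5_main (Y : ℕ → MvPolynomial (Fin 3) ℝ) (hY : Fam Y)
    (W : E → ℝ) (hWm : Measurable W) (hW0 : ∀ x, 0 ≤ W x) (hWr : Rad W)
    (hWi : Integrable (fun x => W x ^ (3 / 2 : ℝ))) (u : E → ℝ) (hu : Cc u) (K : ℕ) (hK : 1 ≤ K) :
    ∑ k ∈ Finset.range (K ^ 2), AA W (Y k) (Nat.sqrt k) u ≤
      ((∫ x, ‖fderiv ℝ u x‖ ^ 2) - ∫ x, W x * u x ^ 2) +
        1 / ((K : ℝ) * ((K : ℝ) + 1)) * ∫ x, W x * ang u x := by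
  sorry

/-! ### linear algebra -/

/-- A1: sums of negative indices -/
theorem A1_index {S H : Type*} [AddCommGroup S] [Module ℝ S] [FiniteDimensional ℝ S]
    [AddCommGroup H] [Module ℝ H] (B : ℕ → LinearMap.BilinForm ℝ H) (hB : ∀ l, (B l).IsSymm)
    (m : ℕ) (deg : ℕ → ℕ) (Φ : ℕ → S →ₗ[ℝ] H)
    (hneg : ∀ s : S, s ≠ 0 → ∑ k ∈ Finset.range m, B (deg k) (Φ k s) (Φ k s) < 0) :
    ∃ T : ℕ → Submodule ℝ H, (∀ l, FiniteDimensional ℝ (T l)) ∧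
      (∀ l, ∀ x ∈ T l, x ≠ 0 → B l x x < 0) ∧
      Module.finrank ℝ S ≤ ∑ k ∈ Finset.range m, Module.finrank ℝ (T (deg k)) := by
  sorry

/-- A2: a negative definite form stays negative definite after a small perturbation -/
theorem A2_pert {S : Type*} [AddCommGroup S] [Module ℝ S] [FiniteDimensional ℝ S]
    (Q D : LinearMap.BilinForm ℝ S) (hQ : ∀ s : S, s ≠ 0 → Q s s < 0) :
    ∃ K : ℕ, 1 ≤ K ∧ ∀ s : S, s ≠ 0 →
      Q s s + 1 / ((K : ℝ) * ((K : ℝ) + 1)) * D s s < 0 := by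
  sorry

/-- A3: the bilinear forms on `H¹` -/
theorem A3_forms (V : ℝ → ℝ) (hV : MemLp V (3 / 2)) :
    ∃ B : ℕ → LinearMap.BilinForm ℝ H1, (∀ l, (B l).IsSymm) ∧
      ∀ l (v : H1), B l v v = qf V l (v : ℝ → ℝ) := by
  sorry

/-- A4: the bilinear forms on a space of test functions (uses R4_loc) -/
theorem A4_forms (W : E → ℝ) (hWm : Measurable W) (hW0 : ∀ x, 0 ≤ W x) (hWr : Rad W)
    (hWi : Integrable (fun x => W x ^ (3 / 2 : ℝ))) (S : Submodule ℝ (E → ℝ))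
    (hS : ∀ u ∈ S, Cc u) :
    ∃ Q D : LinearMap.BilinForm ℝ S,
      (∀ u : S, Q u u = (∫ x, ‖fderiv ℝ (u : E → ℝ) x‖ ^ 2) - ∫ x, W x * (u : E → ℝ) x ^ 2) ∧
      ∀ u : S, D u u = ∫ x, W x * ang (u : E → ℝ) x := by
  sorry

/-! ### one dimension -/

/-- C1: the complexified space (for the min-max values) -/
theorem C1_minMax (V : ℝ → ℝ) (hV : MemLp V (3 / 2)) (T : Submodule ℝ H1)
    [FiniteDimensional ℝ T] (lam : ℝ)
    (hT : ∀ v ∈ T, (∫ t, deriv (v : ℝ → ℝ) t ^ 2) - (∫ t, V t * (v : ℝ → ℝ) t ^ 2) ≤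
      lam * ∫ t, (v : ℝ → ℝ) t ^ 2) (n : ℕ) (hn : n < Module.finrank ℝ T) :
    Pool.Helper490.Eig.minMax (fun t => -V t) n ≤ lam := by
  sorry

/-- C2: counting (pure combinatorics) -/
theorem C2_count (K : ℕ) (d : ℕ → ℕ) (N : ℕ) (μ : ℕ → ℝ) (hμ : ∀ n, 0 ≤ μ n)
    (hd : ∀ l < K, d l ≤ N) (h : ∀ l < K, ∀ n < d l, ((l : ℝ) + 1 / 2) ^ 2 ≤ μ n) :
    ((∑ k ∈ Finset.range (K ^ 2), d (Nat.sqrt k) : ℕ) : ℝ) ≤ 4 * ∑ n ∈ Finset.range N, μ n := by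
  sorry

/-- C3: the sum over the channels (uses C1, C2, minMax_bound) -/
theorem C3_chan (V : ℝ → ℝ) (hV : MemLp V (3 / 2)) (K : ℕ) (T : ℕ → Submodule ℝ H1)
    (hf : ∀ l, FiniteDimensional ℝ (T l))
    (hneg : ∀ l, ∀ v ∈ T l, v ≠ 0 → qf V l (v : ℝ → ℝ) < 0) :
    ((∑ k ∈ Finset.range (K ^ 2), Module.finrank ℝ (T (Nat.sqrt k)) : ℕ) : ℝ) ≤
      16 / (3 * √3 * π) * ∫ t, (max (V t) 0) ^ (3 / 2 : ℝ) := by
  sorry

/-! ### upper bound -/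

/-- U: the upper bound for radial potentials (assembly) -/
theorem U_bound (W : E → ℝ) (hWm : Measurable W) (hW0 : ∀ x, 0 ≤ W x) (hWr : Rad W)
    (hWi : Integrable (fun x => W x ^ (3 / 2 : ℝ))) (S : Submodule ℝ (E → ℝ))
    (hf : FiniteDimensional ℝ S) (hS : ∀ u ∈ S, Cc u)
    (hneg : ∀ u ∈ S, u ≠ 0 → ∫ x, ‖fderiv ℝ u x‖ ^ 2 < ∫ x, W x * u x ^ 2) :
    (Module.finrank ℝ S : ℝ) ≤ 4 / (3 * √3 * π ^ 2) * ∫ x, W x ^ (3 / 2 : ℝ) := by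
  sorry

/-! ### lower bound -/

/-- L1: the integral of the Talenti function -/
theorem L1_int : Integrable (fun x : E => (3 / (1 + ‖x‖ ^ 2) ^ 2 : ℝ) ^ (3 / 2 : ℝ)) ∧
    ∫ x : E, (3 / (1 + ‖x‖ ^ 2) ^ 2 : ℝ) ^ (3 / 2 : ℝ) = 3 * √3 * π ^ 2 / 4 := by
  sorry

/-- L2: the energy of a truncated Talenti function -/
theorem L2_ims (χ : E → ℝ) (hχ : Cc χ) :
    ∫ x, ‖fderiv ℝ (fun y : E => χ y * (√(1 + ‖y‖ ^ 2))⁻¹) x‖ ^ 2 =
      (∫ x, ‖fderiv ℝ χ x‖ ^ 2 * (1 + ‖x‖ ^ 2)⁻¹) +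
        ∫ x, 3 / (1 + ‖x‖ ^ 2) ^ 2 * (χ x * (√(1 + ‖x‖ ^ 2))⁻¹) ^ 2 := by
  sorry

/-- L3: cutoff functions -/
theorem L3_cut (δ : ℝ) (hδ : 0 < δ) : ∃ χ : E → ℝ, Cc χ ∧ (∀ x, ‖x‖ ≤ 1 → χ x = 1) ∧
    ∫ x, ‖fderiv ℝ χ x‖ ^ 2 * (1 + ‖x‖ ^ 2)⁻¹ < δ := by
  sorry

/-- L4: sharpness (uses L1, L2, L3) -/
theorem L4_sharp (c : ℝ) (hc : c < 4 / (3 * √3 * π ^ 2)) :
    ∃ (W : E → ℝ) (u : E → ℝ), Measurable W ∧ (∀ x, 0 ≤ W x) ∧ Rad W ∧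
      Integrable (fun x => W x ^ (3 / 2 : ℝ)) ∧ 0 < ∫ x, W x ^ (3 / 2 : ℝ) ∧ Cc u ∧ u ≠ 0 ∧
      ∫ x, ‖fderiv ℝ u x‖ ^ 2 < ∫ x, W x * u x ^ 2 ∧ c < 1 / ∫ x, W x ^ (3 / 2 : ℝ) := by
  sorry

/-- L5: the values of `a_L` in dimension three -/
theorem L5_aL : IsGreatest (Set.range (fun L : ℕ =>
    ((Nat.factorial (L + 3 - 1) : ℝ) / (Nat.factorial L : ℝ)) * ((L : ℝ) + ((3 : ℕ) : ℝ) / 2) /
      (((L : ℝ) + (((3 : ℕ) : ℝ) - 2) / 2) * ((L : ℝ) + ((3 : ℕ) : ℝ) / 2)) ^ (((3 : ℕ) : ℝ) / 2)))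
    (8 / √3) ∧
    (4 * Real.pi) ^ (-((3 : ℕ) : ℝ) / 2) / Real.Gamma (1 + ((3 : ℕ) : ℝ) / 2) * (8 / √3) =
      4 / (3 * √3 * π ^ 2) := by
  sorry

end

end Pool.Agent.H379R3.RC
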