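import Pool.Agent.H379R3.RC.P3
import Pool.Agent.H379R3.RC.S2
import Pool.Agent.H379R3.RC.S4
import Pool.Agent.H379R3.RC.A4
import Pool.Agent.H379R3.RC.A2
import Pool.Agent.H379R3.RC.A1
import Pool.Agent.H379R3.RC.R5
import Pool.Agent.H379R3.RC.R2
import Pool.Agent.H379R3.RC.R3
import Pool.Agent.H379R3.RC.R4
import Pool.Agent.H379R3.RC.C3

set_option autoImplicit false

open MeasureTheory Set Metric Real MvPolynomial
open Pool.Helper490.SH

namespace Pool.Agent.H379R3.RC

noncomputable section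

theorem U_int (P : MvPolynomial (Fin 3) ℝ) (u : E → ℝ) (hu : Cc u) (r : ℝ) :
    Integrable (fun w : S2 => u (r • (w : E)) * ev P (w : E)) sig := by
  have h1 : Continuous (fun w : S2 => r • (w : E)) := continuous_subtype_val.const_smul r
  have h2 : Continuous (fun w : S2 => u (r • (w : E)) * ev P (w : E)) :=
    (hu.1.continuous.comp h1).mul ((contDiff_ev P).continuous.comp continuous_subtype_val)
  exact h2.integrable_of_hasCompactSupport (HasCompactSupport.of_compactSpace _)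

/-- linearity of `vk` -/
theorem U_vk_add (P : MvPolynomial (Fin 3) ℝ) (u v : E → ℝ) (hu : Cc u) (hv : Cc v) :
    vk P (u + v) = vk P u + vk P v := by
  funext t
  simp only [vk, Pi.add_apply]
  have h : ck P (u + v) (exp t) = ck P u (exp t) + ck P v (exp t) := by
    unfold ck
    rw [← integral_add]
    · refine integral_congr_ae (Filter.Eventually.of_forall fun w => ?_)
      simp only [Pi.add_apply]
      ring
    · exact U_int P u hu (exp t)
    · exact U_int P v hv (exp t)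
  rw [h]
  ring

theorem U_vk_smul (P : MvPolynomial (Fin 3) ℝ) (c : ℝ) (u : E → ℝ) :
    vk P (c • u) = c • vk P u := by
  funext t
  simp only [vk, Pi.smul_apply, smul_eq_mul]
  have h : ck P (c • u) (exp t) = c * ck P u (exp t) := by
    unfold ck
    rw [← integral_const_mul]
    refine integral_congr_ae (Filter.Eventually.of_forall fun w => ?_)
    simp only [Pi.smul_apply, smul_eq_mul]
    ring
  rw [h]
  ring

/-- U: the upper bound for radial potentials (assembly) -/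
theorem U_bound (W : E → ℝ) (hWm : Measurable W) (hW0 : ∀ x, 0 ≤ W x) (hWr : Rad W)
    (hWi : Integrable (fun x => W x ^ (3 / 2 : ℝ))) (S : Submodule ℝ (E → ℝ))
    (hf : FiniteDimensional ℝ S) (hS : ∀ u ∈ S, Cc u)
    (hneg : ∀ u ∈ S, u ≠ 0 → ∫ x, ‖fderiv ℝ u x‖ ^ 2 < ∫ x, W x * u x ^ 2) :
    (Module.finrank ℝ S : ℝ) ≤ 4 / (3 * √3 * π ^ 2) * ∫ x, W x ^ (3 / 2 : ℝ) := by
  obtain ⟨hV, hVint⟩ := P3_VV W hWm hW0 hWr hWi
  obtain ⟨Y, hY0⟩ := S2_gs
  have hY := S4_fam Y hY0
  obtain ⟨Q, D, hQ, hD⟩ := A4_forms W hWm hW0 hWr hWi S hS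
  obtain ⟨K, hK, hKneg⟩ := A2_pert Q D (by
    intro s hs
    rw [hQ]
    have h1 : (s : E → ℝ) ≠ 0 := fun h => hs (Subtype.ext h)
    have := hneg s s.2 h1
    linarith)
  obtain ⟨B, hBs, hB⟩ := A3_forms (VV W) hV
  let Φ : ℕ → S →ₗ[ℝ] H1 := fun k =>
    { toFun := fun u => ⟨vk (Y k) u, R2_H1 (Y k) u (hS u u.2)⟩
      map_add' := fun u v => Subtype.ext (U_vk_add (Y k) u v (hS u u.2) (hS v v.2))
      map_smul' := fun c u => Subtype.ext (U_vk_smul (Y k) c u) }
  obtain ⟨T, hTf, hTn, hTd⟩ := A1_index B hBs (K ^ 2) Nat.sqrt Φ (by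
    intro s hs
    have h1 := R5_main Y hY W hWm hW0 hWr hWi s (hS s s.2) K hK
    have h2 := hKneg s hs
    rw [hQ, hD] at h2
    refine lt_of_le_of_lt ?_ h2
    refine le_trans (le_of_eq ?_) h1
    refine Finset.sum_congr rfl fun k _ => ?_
    rw [hB]
    exact R3_qf W hWm hW0 hWr hWi (Y k) (Nat.sqrt k) s (hS s s.2))
  have h3 := C3_chan (VV W) hV K T hTf (by
    intro l v hv hv0
    rw [← hB]
    exact hTn l v hv hv0)
  rw [hVint] at h3
  have h4 : (Module.finrank ℝ S : ℝ) ≤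
      ((∑ k ∈ Finset.range (K ^ 2), Module.finrank ℝ (T (Nat.sqrt k)) : ℕ) : ℝ) := by
    exact_mod_cast hTd
  refine h4.trans (h3.trans (le_of_eq ?_))
  have hpi := Real.pi_pos
  have h30 : 0 < √3 := Real.sqrt_pos.2 (by norm_num)
  field_simp
  ring

end

end Pool.Agent.H379R3.RC
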